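import Mathlib

/-!
MOM/Dyn (MP_2b7f8f_an, strong MOMO for horocycle maps): definitions and elementary identities for
the dynamical part (section 5 of /team-store/MOMO.md).

`G = SL₂(ℝ)`, `hh t` the horocycle elements, `aa s` the diagonal elements, `vv w` the opposite
horocycle elements. `Γ` is a discrete subgroup with `G ⧸ Γ` compact.
-/

set_option autoImplicit false

namespace Pool.Agent.MOM.Dyn

open MeasureTheory Filter Topology Set

/-- the group `SL₂(ℝ)` -/
abbrev G := Matrix.SpecialLinearGroup (Fin 2) ℝ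

/-- the element of `G` with the given entries -/
def mk4 (a b c d : ℝ) (h : a * d - b * c = 1) : G :=
  ⟨!![a, b; c, d], by rw [Matrix.det_fin_two_of]; exact h⟩

/-- upper unipotent elements -/
def hh (t : ℝ) : G := mk4 1 t 0 1 (by ring)

/-- lower unipotent elements -/
def vv (w : ℝ) : G := mk4 1 0 w 1 (by ring)

/-- diagonal elements -/
noncomputable def aa (s : ℝ) : G := mk4 (Real.exp s) 0 0 (Real.exp (-s)) (by
  rw [← Real.exp_add]; simp)

/-- the set of the horocycle elements -/
def HH : Set G := Set.range hh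

theorem ext4 {g g' : G} (h00 : g 0 0 = g' 0 0) (h01 : g 0 1 = g' 0 1) (h10 : g 1 0 = g' 1 0)
    (h11 : g 1 1 = g' 1 1) : g = g' := by
  apply Matrix.SpecialLinearGroup.ext
  intro i j
  fin_cases i <;> fin_cases j <;> assumption

theorem det4 (g : G) : g 0 0 * g 1 1 - g 0 1 * g 1 0 = 1 := by
  have h := g.det_coe
  rw [Matrix.det_fin_two] at h
  exact h

@[simp] theorem mk4_00 (a b c d : ℝ) (h : a * d - b * c = 1) : (mk4 a b c d h) 0 0 = a := rfl
@[simp] theorem mk4_01 (a b c d : ℝ) (h : a * d - b * c = 1) : (mk4 a b c d h) 0 1 = b := rfl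
@[simp] theorem mk4_10 (a b c d : ℝ) (h : a * d - b * c = 1) : (mk4 a b c d h) 1 0 = c := rfl
@[simp] theorem mk4_11 (a b c d : ℝ) (h : a * d - b * c = 1) : (mk4 a b c d h) 1 1 = d := rfl

@[simp] theorem hh_00 (t : ℝ) : hh t 0 0 = 1 := rfl
@[simp] theorem hh_01 (t : ℝ) : hh t 0 1 = t := rfl
@[simp] theorem hh_10 (t : ℝ) : hh t 1 0 = 0 := rfl
@[simp] theorem hh_11 (t : ℝ) : hh t 1 1 = 1 := rfl
@[simp] theorem vv_00 (w : ℝ) : vv w 0 0 = 1 := rfl
@[simp] theorem vv_01 (w : ℝ) : vv w 0 1 = 0 := rfl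
@[simp] theorem vv_10 (w : ℝ) : vv w 1 0 = w := rfl
@[simp] theorem vv_11 (w : ℝ) : vv w 1 1 = 1 := rfl
@[simp] theorem aa_00 (s : ℝ) : aa s 0 0 = Real.exp s := rfl
@[simp] theorem aa_01 (s : ℝ) : aa s 0 1 = 0 := rfl
@[simp] theorem aa_10 (s : ℝ) : aa s 1 0 = 0 := rfl
@[simp] theorem aa_11 (s : ℝ) : aa s 1 1 = Real.exp (-s) := rfl

theorem mul_00 (g h : G) : (g * h) 0 0 = g 0 0 * h 0 0 + g 0 1 * h 1 0 := by
  rw [Matrix.SpecialLinearGroup.coe_mul, Matrix.mul_apply, Fin.sum_univ_two]

theorem mul_01 (g h : G) : (g * h) 0 1 = g 0 0 * h 0 1 + g 0 1 * h 1 1 := by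
  rw [Matrix.SpecialLinearGroup.coe_mul, Matrix.mul_apply, Fin.sum_univ_two]

theorem mul_10 (g h : G) : (g * h) 1 0 = g 1 0 * h 0 0 + g 1 1 * h 1 0 := by
  rw [Matrix.SpecialLinearGroup.coe_mul, Matrix.mul_apply, Fin.sum_univ_two]

theorem mul_11 (g h : G) : (g * h) 1 1 = g 1 0 * h 0 1 + g 1 1 * h 1 1 := by
  rw [Matrix.SpecialLinearGroup.coe_mul, Matrix.mul_apply, Fin.sum_univ_two]

theorem inv_00 (g : G) : g⁻¹ 0 0 = g 1 1 := by
  rw [Matrix.SpecialLinearGroup.coe_inv, Matrix.adjugate_fin_two]; rfl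

theorem inv_01 (g : G) : g⁻¹ 0 1 = -g 0 1 := by
  rw [Matrix.SpecialLinearGroup.coe_inv, Matrix.adjugate_fin_two]; rfl

theorem inv_10 (g : G) : g⁻¹ 1 0 = -g 1 0 := by
  rw [Matrix.SpecialLinearGroup.coe_inv, Matrix.adjugate_fin_two]; rfl

theorem inv_11 (g : G) : g⁻¹ 1 1 = g 0 0 := by
  rw [Matrix.SpecialLinearGroup.coe_inv, Matrix.adjugate_fin_two]; rfl

theorem hh_zero : hh 0 = 1 := by
  apply ext4 <;> simp

theorem hh_add (s t : ℝ) : hh (s + t) = hh s * hh t := by
  apply ext4 <;> simp only [mul_00, mul_01, mul_10, mul_11, hh_00, hh_01, hh_10, hh_11] <;> ring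

theorem hh_neg (t : ℝ) : hh (-t) = (hh t)⁻¹ := by
  rw [eq_inv_iff_mul_eq_one, ← hh_add, neg_add_cancel, hh_zero]

theorem hh_comm (s t : ℝ) : hh s * hh t = hh t * hh s := by
  rw [← hh_add, add_comm, hh_add]

theorem hh_inj {s t : ℝ} (h : hh s = hh t) : s = t := by
  have h1 : hh s 0 1 = hh t 0 1 := by rw [h]
  simpa using h1

theorem hh_pow (t : ℝ) (n : ℕ) : hh t ^ n = hh (n * t) := by
  induction n with
  | zero => rw [pow_zero, Nat.cast_zero, zero_mul, hh_zero]
  | succ n ih =>
    rw [pow_succ, ih, ← hh_add]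
    congr 1
    push_cast
    ring

theorem aa_zero : aa 0 = 1 := by
  apply ext4 <;> simp

theorem aa_add (s t : ℝ) : aa (s + t) = aa s * aa t := by
  apply ext4 <;> simp only [mul_00, mul_01, mul_10, mul_11, aa_00, aa_01, aa_10, aa_11, neg_add,
    Real.exp_add] <;> ring

theorem aa_neg (s : ℝ) : aa (-s) = (aa s)⁻¹ := by
  rw [eq_inv_iff_mul_eq_one, ← aa_add, neg_add_cancel, aa_zero]

/-- `a_s h_t = h_{e^{2s} t} a_s` -/
theorem aa_mul_hh (s t : ℝ) : aa s * hh t = hh (Real.exp (2 * s) * t) * aa s := by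
  have h : Real.exp (2 * s) * Real.exp (-s) = Real.exp s := by
    rw [← Real.exp_add]; congr 1; ring
  apply ext4 <;> simp only [mul_00, mul_01, mul_10, mul_11, aa_00, aa_01, aa_10, aa_11, hh_00,
    hh_01, hh_10, hh_11]
  · ring
  · linear_combination (-t) * h
  · ring
  · ring

/-- `a_s v_w = v_{e^{-2s} w} a_s` -/
theorem aa_mul_vv (s w : ℝ) : aa s * vv w = vv (Real.exp (-(2 * s)) * w) * aa s := by
  have h : Real.exp (-(2 * s)) * Real.exp s = Real.exp (-s) := by
    rw [← Real.exp_add]; congr 1; ring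
  apply ext4 <;> simp only [mul_00, mul_01, mul_10, mul_11, aa_00, aa_01, aa_10, aa_11, vv_00,
    vv_01, vv_10, vv_11]
  · ring
  · ring
  · linear_combination (-w) * h
  · ring

/-- a map into `G` is continuous if its entries are continuous -/
theorem continuous_G {α : Type*} [TopologicalSpace α] {f : α → G}
    (h : ∀ i j, Continuous fun x => f x i j) : Continuous f := by
  refine continuous_induced_rng.mpr ?_
  exact continuous_matrix h

theorem continuous_entry (i j : Fin 2) : Continuous fun g : G => g i j := by fun_prop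

theorem continuous_hh : Continuous hh := by
  apply continuous_G
  intro i j
  fin_cases i <;> fin_cases j
  · exact continuous_const
  · exact continuous_id
  · exact continuous_const
  · exact continuous_const

theorem continuous_vv : Continuous vv := by
  apply continuous_G
  intro i j
  fin_cases i <;> fin_cases j
  · exact continuous_const
  · exact continuous_const
  · exact continuous_id
  · exact continuous_const

theorem continuous_aa : Continuous aa := by
  apply continuous_G
  intro i j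
  fin_cases i <;> fin_cases j
  · exact Real.continuous_exp
  · exact continuous_const
  · exact continuous_const
  · exact Real.continuous_exp.comp continuous_neg

instance : SecondCountableTopology G := by
  have : SecondCountableTopology (Matrix (Fin 2) (Fin 2) ℝ) :=
    inferInstanceAs (SecondCountableTopology (Fin 2 → Fin 2 → ℝ))
  exact (Matrix.SpecialLinearGroup.isClosedEmbedding_val (n := Fin 2)
    (R := ℝ)).isEmbedding.secondCountableTopology

instance : LocallyCompactSpace G := by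
  have : LocallyCompactSpace (Matrix (Fin 2) (Fin 2) ℝ) :=
    inferInstanceAs (LocallyCompactSpace (Fin 2 → Fin 2 → ℝ))
  exact (Matrix.SpecialLinearGroup.isClosedEmbedding_val (n := Fin 2)
    (R := ℝ)).locallyCompactSpace

end Pool.Agent.MOM.Dyn
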