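import Pool.Agent.MOM.Dyn.Top

/-!
MOM/Dyn/DriftB: the time scale and the conjugation identity.

PROOF of `exists_N`. Some `n` has `n P > s0` or `n² Q > s0` (archimedean). Take the smallest such
`n` (`Nat.find`); `n > N1` (monotonicity) and `N = n - 1 ≥ N1 ≥ 1` satisfies the first three
claims. As `n = N + 1 ≤ 2 N`: `s0 < n P ≤ 2 N P` or `s0 < n² Q ≤ 4 N² Q`.

PROOF of `conj_hh`. `u = hh t * g * hh (-t) * hh (-s)`; the entries by `mul_00` .. and `hh_00` ..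
-/

set_option autoImplicit false

namespace Pool.Agent.MOM.Dyn

open MeasureTheory Filter Topology Set

theorem exists_N {P Q s0 : ℝ} (hP : 0 ≤ P) (hQ : 0 ≤ Q) (hPQ : 0 < P ∨ 0 < Q) (hs0 : 0 < s0)
    {N1 : ℕ} (hN1 : 1 ≤ N1) (h1 : (N1 : ℝ) * P ≤ s0) (h2 : (N1 : ℝ) ^ 2 * Q ≤ s0) :
    ∃ N : ℕ, N1 ≤ N ∧ (N : ℝ) * P ≤ s0 ∧ (N : ℝ) ^ 2 * Q ≤ s0 ∧
      (s0 / 4 ≤ (N : ℝ) * P ∨ s0 / 4 ≤ (N : ℝ) ^ 2 * Q) := by
  classical
  have hex : ∃ n : ℕ, s0 < (n : ℝ) * P ∨ s0 < (n : ℝ) ^ 2 * Q := by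
    rcases hPQ with h | h
    · obtain ⟨n, hn⟩ := exists_nat_gt (s0 / P)
      exact ⟨n, Or.inl (by rwa [div_lt_iff₀ h] at hn)⟩
    · obtain ⟨n, hn⟩ := exists_nat_gt (s0 / Q)
      rw [div_lt_iff₀ h] at hn
      refine ⟨n, Or.inr (hn.trans_le ?_)⟩
      have hn1 : (n : ℝ) ≤ (n : ℝ) ^ 2 := by
        rcases Nat.eq_zero_or_pos n with h0 | h0
        · rw [h0]
          norm_num
        · have h3 : (1 : ℝ) ≤ n := by exact_mod_cast h0
          nlinarith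
      exact mul_le_mul_of_nonneg_right hn1 h.le
  have hn := Nat.find_spec hex
  have hlt : N1 < Nat.find hex := by
    by_contra hc
    have hc' : Nat.find hex ≤ N1 := not_lt.1 hc
    have hcr : ((Nat.find hex : ℕ) : ℝ) ≤ (N1 : ℝ) := by exact_mod_cast hc'
    have h0 : (0 : ℝ) ≤ ((Nat.find hex : ℕ) : ℝ) := Nat.cast_nonneg _
    rcases hn with hn | hn
    · have h3 := mul_le_mul_of_nonneg_right hcr hP
      linarith
    · have h3 := mul_le_mul_of_nonneg_right (pow_le_pow_left₀ h0 hcr 2) hQ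
      linarith
  obtain ⟨N, hN⟩ : ∃ N, Nat.find hex = N + 1 := ⟨Nat.find hex - 1, by omega⟩
  have hNlt := Nat.find_min hex (m := N) (by omega)
  rw [hN] at hn
  have hNN : N1 ≤ N := by omega
  push Not at hNlt
  have hN1r : (1 : ℝ) ≤ N := by exact_mod_cast hN1.trans hNN
  refine ⟨N, hNN, hNlt.1, hNlt.2, ?_⟩
  push_cast at hn
  rcases hn with hn | hn
  · left
    have h3 := mul_nonneg (sub_nonneg.2 hN1r) hP
    linarith
  · right
    have h3 : ((N : ℝ) + 1) ^ 2 ≤ 4 * (N : ℝ) ^ 2 := by nlinarith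
    have h4 := mul_le_mul_of_nonneg_right h3 hQ
    linarith

theorem conj_hh (g : G) (t s : ℝ)
    (hs : s = g 0 1 + t * (g 1 1 - g 0 0) - t ^ 2 * g 1 0) :
    ∃ u : G, hh t * g = u * hh s * hh t ∧ u 0 0 = g 0 0 + t * g 1 0 ∧
      u 0 1 = s * (1 - (g 0 0 + t * g 1 0)) ∧ u 1 0 = g 1 0 ∧
      u 1 1 = g 1 1 - t * g 1 0 - s * g 1 0 := by
  refine ⟨hh t * g * hh (-t) * hh (-s), ?_, ?_, ?_, ?_, ?_⟩
  · rw [hh_neg, hh_neg]
    group
  · simp only [mul_00, mul_01, mul_10, mul_11, hh_00, hh_01, hh_10, hh_11]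
    ring
  · simp only [mul_00, mul_01, mul_10, mul_11, hh_00, hh_01, hh_10, hh_11]
    rw [hs]
    ring
  · simp only [mul_00, mul_01, mul_10, mul_11, hh_00, hh_01, hh_10, hh_11]
    ring
  · simp only [mul_00, mul_01, mul_10, mul_11, hh_00, hh_01, hh_10, hh_11]
    ring

end Pool.Agent.MOM.Dyn
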