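import Pool.Agent.MOM.Dyn.DriftA
import Pool.Agent.MOM.Dyn.DriftB

/-!
MOM/Dyn/Drift: the drift of two nearby points.

PROOF of `drift_time`. `nhds_one hU` gives `δ`. Choose `N1 ≥ 100` with
`s0 / (|c| N1) ≤ δ'` where `δ' > 0` is such that `δ' (2 + 6 s0) < δ`, `δ' ≤ 1/4`; then
`δ₁ > 0` with `δ₁ ≤ δ'`, `δ₁ ≤ s0/1000`, `δ₁ ≤ 1/4`,
`N1 |c| (2 δ₁) ≤ s0`, `N1² c² δ₁ ≤ s0`; `V` = the set of `nhds_small δ₁`.
Let `g ∈ V`, `g ∉ HH`, with the entries `a, b, γ, d`; `P = |c| |d - a|`, `Q = c² |γ|`. `P > 0` or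
`Q > 0`: otherwise `γ = 0`, `d = a`, `a² = 1` (`det4`), `a = 1` (`|a - 1| < 1/4`), `g = hh b ∈ HH`
(`ext4`). `exists_N` gives `N ≥ N1`. Put `m = max (N P) (N² Q) ∈ [s0/4, s0]`,
`α = c N (d - a) / m`, `β = c² N² γ / m`: `|α|, |β| ≤ 1` and one of them is `1`. `drift_count` and
`10 |B| ≤ N`: there is `n < N`, `n ∉ B`, with `|α (n/N) - β (n/N)²| ≥ 1/32` (the set of the other
`n` together with `B` has at most `3N/4 + N/10 < N` elements). Put `t = c n`,
`s = b + t (d - a) - t² γ = b + m (α (n/N) - β (n/N)²)`: `|s| ≥ m/32 - |b| ≥ s0/128 - s0/1000 ≥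
s0/300`, `|s| ≤ 2 m + |b| ≤ 3 s0`. `conj_hh` gives `u`. `|t γ| ≤ |c| N |γ| ≤ s0 / (|c| N) ≤ δ'`,
`|γ| ≤ δ₁ ≤ δ'`, so the entries of `u` differ from those of `1` by at most
`δ₁ + δ' ≤ 2 δ'`, `3 s0 * 2 δ'`, `δ₁`, `δ₁ + δ' + 3 s0 δ₁`, all `< δ`.
-/

set_option autoImplicit false

namespace Pool.Agent.MOM.Dyn

open MeasureTheory Filter Topology Set

theorem drift_time {c s0 : ℝ} (hc : c ≠ 0) (hs0 : 0 < s0) {U : Set G} (hU : U ∈ 𝓝 (1 : G)) :
    ∃ V ∈ 𝓝 (1 : G), ∀ g ∈ V, g ∉ HH → ∃ N : ℕ, 0 < N ∧ ∀ B : Finset ℕ, 10 * B.card ≤ N →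
      ∃ n < N, n ∉ B ∧ ∃ s : ℝ, s0 / 300 ≤ |s| ∧ |s| ≤ 3 * s0 ∧
        ∃ u ∈ U, hh (c * n) * g = u * hh s * hh (c * n) := by
  obtain ⟨δ, hδ, hU1⟩ := nhds_one hU
  have hc0 : 0 < |c| := abs_pos.2 hc
  have hcc : c ^ 2 = |c| ^ 2 := (sq_abs c).symm
  have hden : 0 < 2 + 6 * s0 := by linarith
  obtain ⟨δ', hδ', hδ'1, hδ'2⟩ : ∃ δ' : ℝ, 0 < δ' ∧ δ' ≤ 1 / 4 ∧ δ' * (2 + 6 * s0) < δ := by
    refine ⟨min (1 / 4) (δ / (2 * (2 + 6 * s0))), lt_min (by norm_num) (by positivity),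
      min_le_left _ _, ?_⟩
    have h1 : min (1 / 4) (δ / (2 * (2 + 6 * s0))) ≤ δ / (2 * (2 + 6 * s0)) := min_le_right _ _
    have h2 : min (1 / 4) (δ / (2 * (2 + 6 * s0))) * (2 + 6 * s0)
        ≤ δ / (2 * (2 + 6 * s0)) * (2 + 6 * s0) := mul_le_mul_of_nonneg_right h1 hden.le
    have h3 : δ / (2 * (2 + 6 * s0)) * (2 + 6 * s0) = δ / 2 := by
      field_simp
    linarith
  obtain ⟨N0, hN0⟩ := exists_nat_ge (s0 / (δ' * |c|))
  set N1 : ℕ := N0 + 100 with hN1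
  have hN1c : s0 ≤ δ' * |c| * N1 := by
    have h1 : s0 / (δ' * |c|) ≤ (N1 : ℝ) := by
      rw [hN1]
      push_cast
      linarith
    rw [div_le_iff₀ (by positivity)] at h1
    linarith
  have hN1p : (0 : ℝ) < N1 := by
    rw [hN1]
    positivity
  obtain ⟨δ₁, hδ₁, e1, e2, e3, e4, e5⟩ : ∃ δ₁ : ℝ, 0 < δ₁ ∧ δ₁ ≤ δ' ∧ δ₁ ≤ s0 / 1000 ∧ δ₁ ≤ 1 / 4 ∧
      N1 * (|c| * (2 * δ₁)) ≤ s0 ∧ (N1 : ℝ) ^ 2 * (|c| ^ 2 * δ₁) ≤ s0 := by
    have hA : 0 < s0 / (N1 * |c| * 2) := by positivity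
    have hB : 0 < s0 / ((N1 : ℝ) ^ 2 * |c| ^ 2) := by positivity
    refine ⟨min δ' (min (s0 / 1000) (min (1 / 4) (min (s0 / (N1 * |c| * 2))
      (s0 / ((N1 : ℝ) ^ 2 * |c| ^ 2))))),
      lt_min hδ' (lt_min (by positivity) (lt_min (by norm_num) (lt_min hA hB))), ?_, ?_, ?_, ?_, ?_⟩
    · exact min_le_left _ _
    · exact (min_le_right _ _).trans (min_le_left _ _)
    · exact ((min_le_right _ _).trans (min_le_right _ _)).trans (min_le_left _ _)
    · have h1 : min δ' (min (s0 / 1000) (min (1 / 4) (min (s0 / (N1 * |c| * 2))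
          (s0 / ((N1 : ℝ) ^ 2 * |c| ^ 2))))) ≤ s0 / (N1 * |c| * 2) :=
        (((min_le_right _ _).trans (min_le_right _ _)).trans (min_le_right _ _)).trans
          (min_le_left _ _)
      rw [le_div_iff₀ (by positivity)] at h1
      nlinarith [h1]
    · have h1 : min δ' (min (s0 / 1000) (min (1 / 4) (min (s0 / (N1 * |c| * 2))
          (s0 / ((N1 : ℝ) ^ 2 * |c| ^ 2))))) ≤ s0 / ((N1 : ℝ) ^ 2 * |c| ^ 2) :=
        (((min_le_right _ _).trans (min_le_right _ _)).trans (min_le_right _ _)).trans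
          (min_le_right _ _)
      rw [le_div_iff₀ (by positivity)] at h1
      nlinarith [h1]
  refine ⟨_, nhds_small hδ₁, ?_⟩
  rintro g ⟨g00, g01, g10, g11⟩ hg
  set a : ℝ := g 0 0 with ha
  set b : ℝ := g 0 1 with hb
  set γ : ℝ := g 1 0 with hγ
  set d : ℝ := g 1 1 with hd
  have hdet : a * d - b * γ = 1 := det4 g
  have hda : |d - a| ≤ 2 * δ₁ := by
    have h1 : |d - a| ≤ |d - 1| + |a - 1| := by
      have h2 := abs_sub (d - 1) (a - 1)
      have h3 : d - 1 - (a - 1) = d - a := by ring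
      rw [h3] at h2
      exact h2
    linarith
  have hPQ : 0 < |c| * |d - a| ∨ 0 < c ^ 2 * |γ| := by
    by_contra hcon
    push Not at hcon
    obtain ⟨k1, k2⟩ := hcon
    have k3 : |d - a| = 0 := by
      have := abs_nonneg (d - a)
      by_contra hne
      have h4 : 0 < |d - a| := lt_of_le_of_ne this (Ne.symm hne)
      have : 0 < |c| * |d - a| := mul_pos hc0 h4
      linarith
    have k4 : |γ| = 0 := by
      have := abs_nonneg γ
      by_contra hne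
      have h4 : 0 < |γ| := lt_of_le_of_ne this (Ne.symm hne)
      have : 0 < c ^ 2 * |γ| := by positivity
      linarith
    have k5 : d = a := by
      have := abs_eq_zero.1 k3
      linarith
    have k6 : γ = 0 := abs_eq_zero.1 k4
    rw [k5, k6] at hdet
    have k7 : (a - 1) * (a + 1) = 0 := by linarith
    rcases mul_eq_zero.1 k7 with k8 | k8
    · apply hg
      refine ⟨b, ?_⟩
      apply ext4
      · rw [hh_00, ← ha]; linarith
      · rw [hh_01]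
      · rw [hh_10, ← hγ, k6]
      · rw [hh_11, ← hd, k5]; linarith
    · have k9 := (abs_lt.1 g00).1
      linarith
  have hP0 : 0 ≤ |c| * |d - a| := by positivity
  have hQ0 : 0 ≤ c ^ 2 * |γ| := by positivity
  have hNP : (N1 : ℝ) * (|c| * |d - a|) ≤ s0 := by
    have h1 : |c| * |d - a| ≤ |c| * (2 * δ₁) := mul_le_mul_of_nonneg_left hda hc0.le
    have h2 := mul_le_mul_of_nonneg_left h1 hN1p.le
    linarith
  have hNQ : (N1 : ℝ) ^ 2 * (c ^ 2 * |γ|) ≤ s0 := by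
    rw [hcc]
    have h1 : |c| ^ 2 * |γ| ≤ |c| ^ 2 * δ₁ := mul_le_mul_of_nonneg_left g10.le (by positivity)
    have h2 := mul_le_mul_of_nonneg_left h1 (sq_nonneg (N1 : ℝ))
    linarith
  obtain ⟨N, hN1N, hN2, hN3, hN4⟩ := exists_N hP0 hQ0 hPQ hs0 (N1 := N1) (by omega) hNP hNQ
  have hN100 : 100 ≤ N := by omega
  have hNpos : 0 < N := by omega
  have hNR : (0 : ℝ) < N := by exact_mod_cast hNpos
  refine ⟨N, hNpos, fun B hB => ?_⟩
  obtain ⟨m, hm1, hm2, hm3, hm4, hm5⟩ : ∃ m : ℝ, s0 / 4 ≤ m ∧ m ≤ s0 ∧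
      (N : ℝ) * (|c| * |d - a|) ≤ m ∧ (N : ℝ) ^ 2 * (c ^ 2 * |γ|) ≤ m ∧
      ((N : ℝ) * (|c| * |d - a|) = m ∨ (N : ℝ) ^ 2 * (c ^ 2 * |γ|) = m) := by
    refine ⟨max ((N : ℝ) * (|c| * |d - a|)) ((N : ℝ) ^ 2 * (c ^ 2 * |γ|)), ?_, max_le hN2 hN3,
      le_max_left _ _, le_max_right _ _, ?_⟩
    · rcases hN4 with h | h
      · exact h.trans (le_max_left _ _)
      · exact h.trans (le_max_right _ _)
    · rcases max_choice ((N : ℝ) * (|c| * |d - a|)) ((N : ℝ) ^ 2 * (c ^ 2 * |γ|)) with h | h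
      · left; exact h.symm
      · right; exact h.symm
  have hm : 0 < m := by linarith
  have hα : |c * N * (d - a) / m| = (N : ℝ) * (|c| * |d - a|) / m := by
    rw [abs_div, abs_mul, abs_mul, abs_of_pos hm, abs_of_pos hNR]
    ring
  have hβ : |c ^ 2 * (N : ℝ) ^ 2 * γ / m| = (N : ℝ) ^ 2 * (c ^ 2 * |γ|) / m := by
    rw [abs_div, abs_mul, abs_mul, abs_of_pos hm, abs_of_nonneg (sq_nonneg c),
      abs_of_nonneg (sq_nonneg (N : ℝ))]
    ring
  have hα1 : |c * N * (d - a) / m| ≤ 1 := by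
    rw [hα, div_le_one hm]
    exact hm3
  have hβ1 : |c ^ 2 * (N : ℝ) ^ 2 * γ / m| ≤ 1 := by
    rw [hβ, div_le_one hm]
    exact hm4
  have hor : |c * N * (d - a) / m| = 1 ∨ |c ^ 2 * (N : ℝ) ^ 2 * γ / m| = 1 := by
    rcases hm5 with h | h
    · left
      rw [hα, h, div_self hm.ne']
    · right
      rw [hβ, h, div_self hm.ne']
  have hcount := drift_count hα1 hβ1 hor hN100
  set F : Finset ℕ := (Finset.range N).filter fun n : ℕ =>
      |c * N * (d - a) / m * ((n : ℝ) / N) - c ^ 2 * (N : ℝ) ^ 2 * γ / m * ((n : ℝ) / N) ^ 2|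
        < 1 / 32 with hF
  obtain ⟨n, hn1, hn2, hn3⟩ : ∃ n < N, n ∉ B ∧ n ∉ F := by
    by_contra hcon
    push Not at hcon
    have hsub : Finset.range N ⊆ B ∪ F := by
      intro n hn
      rw [Finset.mem_union]
      by_cases hnB : n ∈ B
      · left; exact hnB
      · right; exact hcon n (Finset.mem_range.1 hn) hnB
    have h1 := Finset.card_le_card hsub
    rw [Finset.card_range] at h1
    have h2 := Finset.card_union_le B F
    omega
  refine ⟨n, hn1, hn2, ?_⟩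
  have hn4 : 1 / 32 ≤ |c * N * (d - a) / m * ((n : ℝ) / N)
      - c ^ 2 * (N : ℝ) ^ 2 * γ / m * ((n : ℝ) / N) ^ 2| := by
    by_contra hcon
    push Not at hcon
    exact hn3 (Finset.mem_filter.2 ⟨Finset.mem_range.2 hn1, hcon⟩)
  have hnN : (n : ℝ) ≤ N := by exact_mod_cast hn1.le
  have hn0 : (0 : ℝ) ≤ n := Nat.cast_nonneg n
  have hq0 : 0 ≤ (n : ℝ) / N := by positivity
  have hq1 : (n : ℝ) / N ≤ 1 := by
    rw [div_le_one hNR]
    exact hnN
  set q : ℝ := (n : ℝ) / N with hq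
  set s : ℝ := b + (c * n) * (d - a) - (c * n) ^ 2 * γ with hs
  set X : ℝ := c * N * (d - a) / m * q - c ^ 2 * (N : ℝ) ^ 2 * γ / m * q ^ 2 with hX
  have hsX : s = b + m * X := by
    rw [hs, hX, hq]
    field_simp
    ring
  have hX2 : |X| ≤ 2 := by
    rw [hX]
    refine (abs_sub _ _).trans ?_
    have h1 : |c * N * (d - a) / m * q| ≤ 1 := by
      rw [abs_mul, abs_of_nonneg hq0]
      calc |c * N * (d - a) / m| * q ≤ 1 * 1 := mul_le_mul hα1 hq1 hq0 (by norm_num)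
        _ = 1 := by norm_num
    have h2 : |c ^ 2 * (N : ℝ) ^ 2 * γ / m * q ^ 2| ≤ 1 := by
      rw [abs_mul, abs_of_nonneg (sq_nonneg q)]
      have h3 : q ^ 2 ≤ 1 := by nlinarith
      calc |c ^ 2 * (N : ℝ) ^ 2 * γ / m| * q ^ 2 ≤ 1 * 1 :=
            mul_le_mul hβ1 h3 (sq_nonneg q) (by norm_num)
        _ = 1 := by norm_num
    linarith
  have hmX : |m * X| = m * |X| := by
    rw [abs_mul, abs_of_pos hm]
  have hs1 : s0 / 300 ≤ |s| := by
    have h1 : m * |X| - |b| ≤ |s| := by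
      have h2 : |m * X| ≤ |s| + |b| := by
        have h3 : m * X = s - b := by rw [hsX]; ring
        rw [h3]
        exact abs_sub _ _
      linarith
    have h4 : m * (1 / 32) ≤ m * |X| := mul_le_mul_of_nonneg_left hn4 hm.le
    linarith
  have hs2 : |s| ≤ 3 * s0 := by
    have h1 : |s| ≤ |b| + |m * X| := by
      rw [hsX]
      exact abs_add_le _ _
    have h4 : m * |X| ≤ m * 2 := mul_le_mul_of_nonneg_left hX2 hm.le
    linarith
  refine ⟨s, hs1, hs2, ?_⟩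
  obtain ⟨u, hu, u00, u01, u10, u11⟩ := conj_hh g (c * n) s (by rw [hs])
  rw [← ha, ← hγ] at u00 u01
  rw [← hγ] at u10 u11
  rw [← hd] at u11
  refine ⟨u, ?_, hu⟩
  have htg : |c * n * γ| ≤ δ' := by
    have h1 : |c * n * γ| ≤ |c| * N * |γ| := by
      rw [abs_mul, abs_mul, abs_of_nonneg hn0]
      have h2 : |c| * (n : ℝ) ≤ |c| * N := mul_le_mul_of_nonneg_left hnN hc0.le
      exact mul_le_mul_of_nonneg_right h2 (abs_nonneg γ)
    have h3 : |c| * N * |γ| * (|c| * N) ≤ δ' * (|c| * N) := by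
      have h4 : |c| * N * |γ| * (|c| * N) = (N : ℝ) ^ 2 * (c ^ 2 * |γ|) := by
        rw [hcc]
        ring
      have h5 : (N1 : ℝ) ≤ N := by exact_mod_cast hN1N
      have h6 : δ' * |c| * N1 ≤ δ' * |c| * N := mul_le_mul_of_nonneg_left h5 (by positivity)
      rw [h4]
      linarith
    exact h1.trans (le_of_mul_le_mul_right h3 (by positivity))
  have hδ1' : δ' * (2 + 6 * s0) = 2 * δ' + 6 * (s0 * δ') := by ring
  have hsδ : 0 < s0 * δ' := by positivity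
  have hs0δ : s0 * δ₁ ≤ s0 * δ' := mul_le_mul_of_nonneg_left e1 hs0.le
  have hu00 : |a + c * n * γ - 1| < 2 * δ' := by
    have h1 : a + c * n * γ - 1 = (a - 1) + c * n * γ := by ring
    rw [h1]
    have h2 := abs_add_le (a - 1) (c * n * γ)
    linarith
  refine hU1 u ?_ ?_ ?_ ?_
  · rw [u00]
    linarith
  · rw [u01, abs_mul]
    have h1 : |1 - (a + c * n * γ)| < 2 * δ' := by
      rw [abs_sub_comm]
      exact hu00
    have h2 : |s| * |1 - (a + c * n * γ)| ≤ 3 * s0 * (2 * δ') :=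
      mul_le_mul hs2 h1.le (abs_nonneg _) (by positivity)
    have h3 : 3 * s0 * (2 * δ') = 6 * (s0 * δ') := by ring
    linarith
  · rw [u10]
    linarith
  · rw [u11]
    have h1 : d - c * n * γ - s * γ - 1 = (d - 1) - c * n * γ - s * γ := by ring
    rw [h1]
    have h2 := abs_sub ((d - 1) - c * n * γ) (s * γ)
    have h3 := abs_sub (d - 1) (c * n * γ)
    have h4 : |s * γ| ≤ 3 * s0 * δ₁ := by
      rw [abs_mul]
      exact mul_le_mul hs2 g10.le (abs_nonneg _) (by positivity)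
    have h5 : 3 * s0 * δ₁ = 3 * (s0 * δ₁) := by ring
    linarith

end Pool.Agent.MOM.Dyn
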