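import Mathlib

/-!
MOM/Dyn/DriftA: the polynomial `α t - β t²` is rarely small.

PROOF of `drift_count`. Case `|β| = 1`: with `γ = α / β`, `|α t - β t²| = t |t - γ|` for `t ≥ 0`;
if `t = n/N` is counted then `t < 1/4` or `|t - γ| < 1/8` (otherwise the value is
`≥ 1/32`). The number of `n < N` with `n/N < 1/4` is `≤ N/4 + 1`; the `n` with `|n/N - γ| < 1/8` lie
in an open interval of length `N/4`, so there are at most `N/4 + 1` of them (e.g. they are contained
in `Finset.Ioo`-type sets; or: all of them lie between the smallest one `n₀` and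
`n₀ + N/4`). Total `≤ N/2 + 2 ≤ 3N/4`.
Case `|α| = 1`: `|α t - β t²| ≥ t (1 - t)` for `t ∈ [0, 1]`, so `t < 1/4` or `t > 7/8`
(`(1/4)(3/4) > 1/32`, `(7/8)(1/8) > 1/32`). At most `N/4 + 1 + N/8 + 1 ≤ 3N/4`.
-/

set_option autoImplicit false

namespace Pool.Agent.MOM.Dyn

open MeasureTheory Filter Topology Set

private theorem driftA_cnt (S : Finset ℕ) {L : ℝ} (hL : 0 ≤ L)
    (h : ∀ m ∈ S, ∀ n ∈ S, (n : ℝ) - m ≤ L) : (S.card : ℝ) ≤ L + 1 := by
  rcases S.eq_empty_or_nonempty with rfl | hne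
  · rw [Finset.card_empty]
    push_cast
    linarith
  · have h1 : S ⊆ Finset.Icc (S.min' hne) (S.max' hne) := fun n hn =>
      Finset.mem_Icc.2 ⟨S.min'_le n hn, S.le_max' n hn⟩
    have h2 := Finset.card_le_card h1
    rw [Nat.card_Icc] at h2
    have h3 := h _ (S.min'_mem hne) _ (S.max'_mem hne)
    have h4 : S.min' hne ≤ S.max' hne := S.min'_le _ (S.max'_mem hne)
    have h5 : (S.card : ℝ) ≤ ((S.max' hne + 1 - S.min' hne : ℕ) : ℝ) := by exact_mod_cast h2
    rw [Nat.cast_sub (by omega)] at h5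
    push_cast at h5
    linarith

private theorem driftA_two {N : ℕ} (hN : 100 ≤ N) (P : ℕ → Prop) [DecidablePred P]
    {x y u v : ℝ} (h : ∀ n < N, P n →
      (x < (n : ℝ) / N ∧ (n : ℝ) / N < y) ∨ (u < (n : ℝ) / N ∧ (n : ℝ) / N < v))
    (hx : 0 ≤ y - x) (hu : 0 ≤ v - u) (hs : (y - x) + (v - u) ≤ 5 / 8) :
    4 * ((Finset.range N).filter P).card ≤ 3 * N := by
  classical
  have hN0 : (0 : ℝ) < N := by
    have : 0 < N := by omega
    exact_mod_cast this
  set A : Finset ℕ := (Finset.range N).filter fun n => x < (n : ℝ) / N ∧ (n : ℝ) / N < y with hA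
  set B : Finset ℕ := (Finset.range N).filter fun n => u < (n : ℝ) / N ∧ (n : ℝ) / N < v with hB
  have hsub : (Finset.range N).filter P ⊆ A ∪ B := by
    intro n hn
    rw [Finset.mem_filter, Finset.mem_range] at hn
    rw [Finset.mem_union, hA, hB, Finset.mem_filter, Finset.mem_filter, Finset.mem_range]
    rcases h n hn.1 hn.2 with h1 | h1
    · exact Or.inl ⟨hn.1, h1⟩
    · exact Or.inr ⟨hn.1, h1⟩
  have hcA : (A.card : ℝ) ≤ (y - x) * N + 1 := by
    refine driftA_cnt A (by positivity) fun m hm n hn => ?_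
    rw [hA, Finset.mem_filter] at hm hn
    have h1 := (lt_div_iff₀ hN0).1 hm.2.1
    have h2 := (div_lt_iff₀ hN0).1 hn.2.2
    linarith
  have hcB : (B.card : ℝ) ≤ (v - u) * N + 1 := by
    refine driftA_cnt B (by positivity) fun m hm n hn => ?_
    rw [hB, Finset.mem_filter] at hm hn
    have h1 := (lt_div_iff₀ hN0).1 hm.2.1
    have h2 := (div_lt_iff₀ hN0).1 hn.2.2
    linarith
  have h1 : (((Finset.range N).filter P).card : ℝ) ≤ A.card + B.card := by
    have h2 := (Finset.card_le_card hsub).trans (Finset.card_union_le A B)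
    exact_mod_cast h2
  have h2 : ((y - x) + (v - u)) * N ≤ 5 / 8 * N :=
    mul_le_mul_of_nonneg_right hs hN0.le
  have h3 : (100 : ℝ) ≤ N := by exact_mod_cast hN
  have h4 : (4 : ℝ) * ((Finset.range N).filter P).card ≤ 3 * N := by linarith
  exact_mod_cast h4

theorem drift_count {α β : ℝ} (hα : |α| ≤ 1) (hβ : |β| ≤ 1) (h1 : |α| = 1 ∨ |β| = 1) {N : ℕ}
    (hN : 100 ≤ N) :
    4 * ((Finset.range N).filter fun n : ℕ =>
      |α * ((n : ℝ) / N) - β * ((n : ℝ) / N) ^ 2| < 1 / 32).card ≤ 3 * N := by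
  have hN0 : (0 : ℝ) < N := by
    have : 0 < N := by omega
    exact_mod_cast this
  rcases h1 with h1 | h1
  · refine driftA_two hN _ (x := -(1 / 16)) (y := 1 / 4) (u := 7 / 8) (v := 1)
      (fun n hn hP => ?_) (by norm_num) (by norm_num) (by norm_num)
    have ht0 : 0 ≤ (n : ℝ) / N := by positivity
    have ht1 : (n : ℝ) / N < 1 := by
      rw [div_lt_one hN0]
      exact_mod_cast hn
    set t : ℝ := (n : ℝ) / N with ht
    by_contra hcon
    rw [not_or, not_and_or, not_and_or, not_lt, not_lt, not_lt, not_lt] at hcon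
    have h2 : 1 / 4 ≤ t := by
      rcases hcon.1 with h3 | h3
      · linarith
      · exact h3
    have h3 : t ≤ 7 / 8 := by
      rcases hcon.2 with h4 | h4
      · exact h4
      · linarith
    have h4 : |α * t| - |β * t ^ 2| ≤ |α * t - β * t ^ 2| := abs_sub_abs_le_abs_sub _ _
    rw [abs_mul, abs_mul, h1, abs_of_nonneg ht0, abs_of_nonneg (sq_nonneg t)] at h4
    have h5 : |β| * t ^ 2 ≤ t ^ 2 := mul_le_of_le_one_left (sq_nonneg t) hβ
    nlinarith
  · have hβ0 : β ≠ 0 := by
      intro h2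
      rw [h2, abs_zero] at h1
      exact zero_ne_one h1
    refine driftA_two hN _ (x := -(1 / 16)) (y := 1 / 4) (u := α / β - 1 / 8)
      (v := α / β + 1 / 8) (fun n hn hP => ?_) (by norm_num) (by linarith) (by linarith)
    have ht0 : 0 ≤ (n : ℝ) / N := by positivity
    set t : ℝ := (n : ℝ) / N with ht
    by_contra hcon
    rw [not_or, not_and_or, not_and_or, not_lt, not_lt, not_lt, not_lt] at hcon
    have h2 : 1 / 4 ≤ t := by
      rcases hcon.1 with h3 | h3
      · linarith
      · exact h3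
    have h3 : 1 / 8 ≤ |α / β - t| := by
      rw [le_abs]
      rcases hcon.2 with h4 | h4
      · left
        linarith
      · right
        linarith
    have h4 : α * t - β * t ^ 2 = β * (t * (α / β - t)) := by
      field_simp
    rw [h4, abs_mul, abs_mul, h1, one_mul, abs_of_nonneg ht0] at hP
    have h5 : 1 / 4 * (1 / 8) ≤ t * |α / β - t| :=
      mul_le_mul h2 h3 (by norm_num) ht0
    linarith

end Pool.Agent.MOM.Dyn
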