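import Pool.Agent.MOM.Dyn.TopC
import Pool.Agent.MOM.Dyn.Drift

/-!
MOM/Dyn/DriftTime: the drift of two nearby horocycle orbits (`drift_time`, proved in the file
Drift). Architect of the proof: helper33.
-/
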