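import Pool.Agent.MOM.Dyn.Defs

/-!
MOM/Dyn/MeanDef: the mean value of a continuous function for the horocycle flow (definition).
-/

set_option autoImplicit false

namespace Pool.Agent.MOM.Dyn

open MeasureTheory Filter Topology Set

variable {Γ : Subgroup G}

/-- the average of `f` over the horocycle pieces `a_τ h_u x`, `0 ≤ u ≤ 1` -/
noncomputable def ftau (f : G ⧸ Γ → ℝ) (τ : ℝ) (x : G ⧸ Γ) : ℝ :=
  ∫ u in (0 : ℝ)..1, f (aa τ • hh u • x)

/-- `c` is the uniform mean value of `f` for the horocycle flow -/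
def IsMean (f : G ⧸ Γ → ℝ) (c : ℝ) : Prop :=
  ∀ ε : ℝ, 0 < ε → ∃ T0 : ℝ, 0 < T0 ∧ ∀ T : ℝ, T0 ≤ T → ∀ x : G ⧸ Γ,
    |(∫ t in (0 : ℝ)..T, f (hh t • x)) - c * T| ≤ ε * T

theorem IsMean.comp_hh {f : G ⧸ Γ → ℝ} {c : ℝ} (h : IsMean f c) (s : ℝ) :
    IsMean (fun x => f (hh s • x)) c := by
  intro ε hε
  obtain ⟨T0, h0, h1⟩ := h ε hε
  refine ⟨T0, h0, fun T hT x => ?_⟩
  have h2 := h1 T hT (hh s • x)
  have h3 : (fun t : ℝ => f (hh s • hh t • x)) = fun t : ℝ => f (hh t • hh s • x) := by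
    funext t
    rw [← mul_smul, ← mul_smul, hh_comm]
  show |(∫ t in (0 : ℝ)..T, f (hh s • hh t • x)) - c * T| ≤ ε * T
  rw [h3]
  exact h2

theorem iter_hh (c : ℝ) (n : ℕ) (z : G ⧸ Γ) :
    (fun x : G ⧸ Γ => hh c • x)^[n] z = hh (c * n) • z := by
  induction n with
  | zero => rw [Function.iterate_zero, Nat.cast_zero, mul_zero, hh_zero, one_smul]; rfl
  | succ n ih =>
    rw [Function.iterate_succ_apply', ih, ← mul_smul, ← hh_add]
    congr 2
    push_cast
    ring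

theorem iter_hh2 (c : ℝ) (n : ℕ) (z : (G ⧸ Γ) × (G ⧸ Γ)) :
    (fun x : (G ⧸ Γ) × (G ⧸ Γ) => (hh c • x.1, hh c • x.2))^[n] z =
      (hh (c * n) • z.1, hh (c * n) • z.2) := by
  induction n with
  | zero =>
    rw [Function.iterate_zero, Nat.cast_zero, mul_zero, hh_zero, one_smul, one_smul]; rfl
  | succ n ih =>
    rw [Function.iterate_succ_apply', ih]
    simp only
    rw [← mul_smul, ← mul_smul, ← hh_add]
    congr 3 <;> push_cast <;> ring

theorem continuous_hh_smul (Γ : Subgroup G) :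
    Continuous fun p : ℝ × (G ⧸ Γ) => hh p.1 • p.2 :=
  (continuous_hh.comp continuous_fst).smul continuous_snd

end Pool.Agent.MOM.Dyn
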