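import Pool.Agent.MOM.Dyn.Top
import Pool.Agent.MOM.Dyn.MeanDef

/-!
MOM/Dyn/EquiB: the decomposition `h_u g = v_w a_s h_φ` and small facts on `f`.

PROOF of `hh_mul_eq`. Compare the entries (`ext4`, `mul_00` ..), `exp (log A) = A`,
`exp (- log A) = 1 / A`, the last entry follows from `det4 g`.
PROOF of `va_near`. The map `(w, s) ↦ vv w * aa s` is continuous (`continuous_vv`,
`continuous_aa`) with the value `1` at `(0, 0)`; `Metric.mem_nhds_iff` for `ℝ × ℝ` (sup norm).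
-/

set_option autoImplicit false

namespace Pool.Agent.MOM.Dyn

open MeasureTheory Filter Topology Set

variable {Γ : Subgroup G}

theorem hh_mul_eq (g : G) {u : ℝ} (hA : 0 < g 0 0 + u * g 1 0) :
    hh u * g = vv (g 1 0 / (g 0 0 + u * g 1 0)) * aa (Real.log (g 0 0 + u * g 1 0)) *
      hh ((g 0 1 + u * g 1 1) / (g 0 0 + u * g 1 0)) := by
  have hd := det4 g
  have hA' : g 0 0 + u * g 1 0 ≠ 0 := hA.ne'
  have e1 : Real.exp (Real.log (g 0 0 + u * g 1 0)) = g 0 0 + u * g 1 0 := Real.exp_log hA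
  have e2 : Real.exp (-Real.log (g 0 0 + u * g 1 0)) = (g 0 0 + u * g 1 0)⁻¹ := by
    rw [Real.exp_neg, e1]
  have e3 : g 1 0 / (g 0 0 + u * g 1 0) * (g 0 0 + u * g 1 0) = g 1 0 := div_mul_cancel₀ _ hA'
  have e4 : (g 0 1 + u * g 1 1) / (g 0 0 + u * g 1 0) * (g 0 0 + u * g 1 0) =
      g 0 1 + u * g 1 1 := div_mul_cancel₀ _ hA'
  have e5 : g 1 1 = g 1 0 * ((g 0 1 + u * g 1 1) / (g 0 0 + u * g 1 0)) +
      (g 0 0 + u * g 1 0)⁻¹ := by
    have h1 : g 1 0 * ((g 0 1 + u * g 1 1) / (g 0 0 + u * g 1 0)) + (g 0 0 + u * g 1 0)⁻¹ =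
        (g 1 0 * (g 0 1 + u * g 1 1) + 1) / (g 0 0 + u * g 1 0) := by ring
    rw [h1, eq_div_iff hA']
    linear_combination hd
  apply ext4
  · simp only [mul_00, mul_01, hh_00, hh_01, hh_10, vv_00, vv_01, aa_00, aa_10, aa_01, aa_11, e1]
    ring
  · simp only [mul_00, mul_01, hh_00, hh_01, hh_11, vv_00, vv_01, aa_00, aa_10, aa_01, aa_11, e1]
    linear_combination -e4
  · simp only [mul_10, mul_11, hh_00, hh_10, hh_11, vv_10, vv_11, aa_00, aa_10, aa_01, aa_11, e1]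
    linear_combination -e3
  · simp only [mul_10, mul_11, hh_01, hh_10, hh_11, vv_10, vv_11, aa_00, aa_10, aa_01, aa_11, e1,
      e2]
    rw [e3]
    linear_combination e5

theorem va_near {U : Set G} (hU : U ∈ 𝓝 (1 : G)) :
    ∃ δ : ℝ, 0 < δ ∧ ∀ w s : ℝ, |w| < δ → |s| < δ → vv w * aa s ∈ U := by
  have hc : Continuous fun p : ℝ × ℝ => vv p.1 * aa p.2 :=
    (continuous_vv.comp continuous_fst).mul (continuous_aa.comp continuous_snd)
  have h1 : (fun p : ℝ × ℝ => vv p.1 * aa p.2) ⁻¹' U ∈ 𝓝 ((0, 0) : ℝ × ℝ) := by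
    refine hc.continuousAt.preimage_mem_nhds ?_
    have e : vv ((0, 0) : ℝ × ℝ).1 * aa ((0, 0) : ℝ × ℝ).2 = 1 := by
      have e1 : vv 0 = 1 := by
        apply ext4 <;> simp
      change vv 0 * aa 0 = 1
      rw [e1, aa_zero, mul_one]
    rw [e]
    exact hU
  rw [Metric.mem_nhds_iff] at h1
  obtain ⟨δ, hδ, hb⟩ := h1
  refine ⟨δ, hδ, fun w s hw hs => ?_⟩
  have h2 : ((w, s) : ℝ × ℝ) ∈ Metric.ball ((0, 0) : ℝ × ℝ) δ := by
    rw [Metric.mem_ball, Prod.dist_eq]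
    refine max_lt ?_ ?_
    · simpa [Real.dist_eq] using hw
    · simpa [Real.dist_eq] using hs
  exact hb h2

end Pool.Agent.MOM.Dyn
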