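import Pool.Agent.MOM.Dyn.MeanDef

/-!
MOM/Dyn/EquiC: continuity and boundedness facts for `ftau`.
-/

set_option autoImplicit false

namespace Pool.Agent.MOM.Dyn

open MeasureTheory Filter Topology Set

variable {Γ : Subgroup G}

theorem continuous_piece {f : G ⧸ Γ → ℝ} (hf : Continuous f) (τ : ℝ) (x : G ⧸ Γ) :
    Continuous fun u : ℝ => f (aa τ • hh u • x) := by
  have h1 : Continuous fun u : ℝ => hh u • x := continuous_hh.smul continuous_const
  exact hf.comp (h1.const_smul (aa τ))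

theorem continuous_piece2 {f : G ⧸ Γ → ℝ} (hf : Continuous f) (τ : ℝ) :
    Continuous fun p : (G ⧸ Γ) × ℝ => f (aa τ • hh p.2 • p.1) := by
  have h1 : Continuous fun p : (G ⧸ Γ) × ℝ => hh p.2 • p.1 :=
    (continuous_hh.comp continuous_snd).smul continuous_fst
  exact hf.comp (h1.const_smul (aa τ))

theorem continuous_ftau {f : G ⧸ Γ → ℝ} (hf : Continuous f) (τ : ℝ) :
    Continuous fun x : G ⧸ Γ => ftau f τ x := by
  have h := intervalIntegral.continuous_parametric_intervalIntegral_of_continuous'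
    (μ := volume) (f := fun (x : G ⧸ Γ) (u : ℝ) => f (aa τ • hh u • x)) (continuous_piece2 hf τ) 0 1
  exact h

theorem exists_bound [CompactSpace (G ⧸ Γ)] {f : G ⧸ Γ → ℝ} (hf : Continuous f) :
    ∃ M : ℝ, 0 < M ∧ ∀ x, |f x| ≤ M := by
  obtain ⟨C, hC⟩ := isCompact_univ.exists_bound_of_continuousOn (f := f) hf.continuousOn
  refine ⟨|C| + 1, by positivity, fun x => ?_⟩
  have h1 := hC x (mem_univ x)
  rw [Real.norm_eq_abs] at h1
  have h2 := le_abs_self C
  linarith

theorem abs_ftau_le {f : G ⧸ Γ → ℝ} {M : ℝ} (hM : ∀ x, |f x| ≤ M) (τ : ℝ) (x : G ⧸ Γ) :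
    |ftau f τ x| ≤ M := by
  have h := intervalIntegral.norm_integral_le_of_norm_le_const (a := (0 : ℝ)) (b := 1) (C := M)
    (f := fun u : ℝ => f (aa τ • hh u • x)) (fun u _ => by rw [Real.norm_eq_abs]; exact hM _)
  rw [Real.norm_eq_abs, sub_zero, abs_one, mul_one] at h
  exact h

end Pool.Agent.MOM.Dyn
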