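import Pool.Agent.MOM.Dyn.Top

/-!
MOM/Dyn/TopC: compactness lemmas for the action of small elements.

PROOFS. `unif_small`: `IsCompact.eventually_forall_of_forall_eventually` for `K = univ`,
`P g x := |f (g • x) - f x| ≤ ε`: for fixed `x` the map `(g, y) ↦ f (g • y) - f y` is continuous and
vanishes at `(1, x)`.
`close_one`, `close_two`: the same lemma with `P u x := u • x ∉ K₂` resp.
`P (u, u') x := (u • x.1, u' • x.2) ∉ K₂` (`K₂` is closed); for `close_two` the filter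
`𝓝 (1, 1) = 𝓝 1 ×ˢ 𝓝 1` gives a product neighbourhood, intersect.
-/

set_option autoImplicit false

namespace Pool.Agent.MOM.Dyn

open MeasureTheory Filter Topology Set

variable {Γ : Subgroup G}

theorem unif_small {X : Type*} [TopologicalSpace X] [CompactSpace X] [MulAction G X]
    [ContinuousSMul G X] {f : X → ℝ} (hf : Continuous f) {ε : ℝ} (hε : 0 < ε) :
    ∃ U ∈ 𝓝 (1 : G), ∀ g ∈ U, ∀ x, |f (g • x) - f x| ≤ ε := by
  have h1 : ∀ x ∈ (univ : Set X), ∀ᶠ z : G × X in 𝓝 ((1 : G), x), |f (z.1 • z.2) - f z.2| ≤ ε := by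
    intro x _
    have hc : Continuous (fun z : G × X => |f (z.1 • z.2) - f z.2|) :=
      ((hf.comp continuous_smul).sub (hf.comp continuous_snd)).abs
    have h2 : |f (((1 : G), x).1 • ((1 : G), x).2) - f ((1 : G), x).2| < ε := by
      simp only [one_smul, sub_self, abs_zero]
      exact hε
    exact (hc.continuousAt.eventually_lt_const h2).mono fun z hz => hz.le
  have h2 := isCompact_univ.eventually_forall_of_forall_eventually
    (P := fun (g : G) (x : X) => |f (g • x) - f x| ≤ ε) h1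
  exact ⟨_, h2, fun g hg x => hg x (mem_univ x)⟩

theorem close_one {K1 K2 : Set (G ⧸ Γ)} (h1 : IsCompact K1) (h2 : IsClosed K2)
    (h : ∀ x ∈ K1, x ∉ K2) : ∃ U ∈ 𝓝 (1 : G), ∀ u ∈ U, ∀ x ∈ K1, u • x ∉ K2 := by
  have h3 : ∀ x ∈ K1, ∀ᶠ z : G × (G ⧸ Γ) in 𝓝 ((1 : G), x), z.1 • z.2 ∉ K2 := by
    intro x hx
    have hc : Continuous (fun z : G × (G ⧸ Γ) => z.1 • z.2) := continuous_smul
    refine hc.continuousAt.eventually (h2.isOpen_compl.mem_nhds ?_)
    change (1 : G) • x ∉ K2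
    rw [one_smul]
    exact h x hx
  have h4 := h1.eventually_forall_of_forall_eventually
    (P := fun (g : G) (x : G ⧸ Γ) => g • x ∉ K2) h3
  exact ⟨_, h4, fun g hg x hx => hg x hx⟩

theorem close_two {K1 K2 : Set ((G ⧸ Γ) × (G ⧸ Γ))} (h1 : IsCompact K1) (h2 : IsClosed K2)
    (h : ∀ x ∈ K1, x ∉ K2) :
    ∃ U ∈ 𝓝 (1 : G), ∀ u ∈ U, ∀ w ∈ U, ∀ x ∈ K1, (u • x.1, w • x.2) ∉ K2 := by
  have h3 : ∀ x ∈ K1, ∀ᶠ z : (G × G) × ((G ⧸ Γ) × (G ⧸ Γ)) in 𝓝 ((1 : G × G), x),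
      (z.1.1 • z.2.1, z.1.2 • z.2.2) ∉ K2 := by
    intro x hx
    have hc : Continuous (fun z : (G × G) × ((G ⧸ Γ) × (G ⧸ Γ)) =>
        (z.1.1 • z.2.1, z.1.2 • z.2.2)) := by fun_prop
    refine hc.continuousAt.eventually (h2.isOpen_compl.mem_nhds ?_)
    change ((1 : G) • x.1, (1 : G) • x.2) ∉ K2
    rw [one_smul, one_smul]
    exact h x hx
  have h4 : ∀ᶠ z : G × G in 𝓝 ((1 : G), (1 : G)), ∀ x ∈ K1, (z.1 • x.1, z.2 • x.2) ∉ K2 :=
    h1.eventually_forall_of_forall_eventually h3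
  rw [nhds_prod_eq] at h4
  obtain ⟨U, hU, W, hW, h5⟩ := Filter.mem_prod_iff.1 h4
  exact ⟨U ∩ W, inter_mem hU hW, fun u hu w hw x hx => h5 (mk_mem_prod hu.1 hw.2) x hx⟩

end Pool.Agent.MOM.Dyn
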