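import Pool.Agent.MOM.Dyn.EquiA
import Pool.Agent.MOM.Dyn.EquiB
import Pool.Agent.MOM.Dyn.EquiC
import Pool.Agent.MOM.Dyn.TopC

/-!
MOM/Dyn/Equi: the averages `ftau f τ`, `τ ≥ 0`, are equicontinuous.

PROOF of `equi`. `exists_bound`: `|f| ≤ M`. `unif_small hf (ε/2)` (file TopC) gives
`U₁ ∈ 𝓝 1` with `|f (g • y) - f y| ≤ ε/2` for `g ∈ U₁`; `va_near U₁` gives `δ₁`;
`mobius_close M (ε/2)` gives `δ₂ ≤ 1/4`. Let
`δ = min (δ₁/8) δ₂`
and `U` the set of `nhds_small δ`. Let `g ∈ U`, `a, b, c, d` its entries, `A = a + u c`,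
`u ∈ [0, 1]`: `|A - 1| ≤ 2 δ ≤ 1/2`, `|c / A| ≤ 2 δ < δ₁`, `|log A| ≤ 4 δ < δ₁`
(`log A ≤ A - 1`, `log A ≥ 1 - 1/A`, `Real.log_le_sub_one_of_pos`, `Real.one_sub_inv_le_log_of_pos`).
`hh_mul_eq`, `aa_mul_vv`, `aa_mul` (`aa τ * aa s = aa s * aa τ`):
`aa τ • hh u • g • x = (vv (e^{-2τ} c/A) * aa (log A)) • aa τ • hh (φ u) • x`,
`φ u = (b + u d)/A`, with `|e^{-2τ} c/A| < δ₁` as `τ ≥ 0`. So
`|f (aa τ • hh u • g • x) - f (aa τ • hh (φ u) • x)| ≤ ε/2` for `u ∈ [0, 1]`. Integrate over `u`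
(`u ↦ f (aa τ • hh (φ u) • x)` is continuous on `[0, 1]`), and `mobius_close` with
`F t = f (aa τ • hh t • x)` (`continuous_piece`).
-/

set_option autoImplicit false

namespace Pool.Agent.MOM.Dyn

open MeasureTheory Filter Topology Set

variable {Γ : Subgroup G}

theorem equi [CompactSpace (G ⧸ Γ)] {f : G ⧸ Γ → ℝ} (hf : Continuous f) {ε : ℝ} (hε : 0 < ε) :
    ∃ U ∈ 𝓝 (1 : G), ∀ g ∈ U, ∀ x : G ⧸ Γ, ∀ τ : ℝ, 0 ≤ τ →
      |ftau f τ (g • x) - ftau f τ x| ≤ ε := by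
  obtain ⟨M, hM0, hM⟩ := exists_bound hf
  have hε2 : 0 < ε / 2 := by linarith
  obtain ⟨U₁, hU₁, hU₁f⟩ := unif_small (X := G ⧸ Γ) hf hε2
  obtain ⟨δ₁, hδ₁, hva⟩ := va_near hU₁
  obtain ⟨δ₂, hδ₂, hδ₂4, hmob⟩ := mobius_close hM0.le hε2
  obtain ⟨δ, hδd⟩ : ∃ δ : ℝ, δ = min (δ₁ / 8) δ₂ := ⟨_, rfl⟩
  have hδ0 : 0 < δ := by rw [hδd]; exact lt_min (by linarith) hδ₂
  have hδ1 : δ ≤ δ₁ / 8 := by rw [hδd]; exact min_le_left _ _
  have hδ2 : δ ≤ δ₂ := by rw [hδd]; exact min_le_right _ _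
  refine ⟨_, nhds_small hδ0, ?_⟩
  rintro g ⟨hg0, hg1, hg2, hg3⟩ x τ hτ
  have hdet : g 0 0 * g 1 1 - g 0 1 * g 1 0 = 1 := det4 g
  have hmg := hmob (g 0 0) (g 0 1) (g 1 0) (g 1 1) hdet (hg0.trans_le hδ2) (hg1.trans_le hδ2)
    (hg2.trans_le hδ2) (hg3.trans_le hδ2) (fun t => f (aa τ • hh t • x))
    (continuous_piece hf τ x) (fun t => hM _)
  -- the denominators
  have hA : ∀ u ∈ Icc (0 : ℝ) 1, |g 0 0 + u * g 1 0 - 1| ≤ 2 * δ := by
    intro u hu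
    have h1 : |u * g 1 0| ≤ |g 1 0| := by
      rw [abs_mul, abs_of_nonneg hu.1]
      exact mul_le_of_le_one_left (abs_nonneg _) hu.2
    have h2 : g 0 0 + u * g 1 0 - 1 = (g 0 0 - 1) + u * g 1 0 := by ring
    rw [h2]
    refine (abs_add_le _ _).trans ?_
    linarith
  have hA1 : ∀ u ∈ Icc (0 : ℝ) 1, 1 / 2 ≤ g 0 0 + u * g 1 0 := by
    intro u hu
    have h1 := abs_le.1 (hA u hu)
    linarith [h1.1]
  have hφc : ContinuousOn (fun u : ℝ => f (aa τ • hh ((g 0 1 + u * g 1 1) /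
      (g 0 0 + u * g 1 0)) • x)) (uIcc 0 1) := by
    refine (continuous_piece hf τ x).comp_continuousOn ?_
    intro u hu
    rw [uIcc_of_le zero_le_one] at hu
    have h1 := hA1 u hu
    refine ContinuousAt.continuousWithinAt ?_
    refine ContinuousAt.div (by fun_prop) (by fun_prop) ?_
    intro h
    rw [h] at h1
    norm_num at h1
  have hpt : ∀ u ∈ Icc (0 : ℝ) 1, |f (aa τ • hh u • (g • x)) -
      f (aa τ • hh ((g 0 1 + u * g 1 1) / (g 0 0 + u * g 1 0)) • x)| ≤ ε / 2 := by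
    intro u hu
    have h1 := hA1 u hu
    have h2 := hA u hu
    have hA0 : 0 < g 0 0 + u * g 1 0 := by linarith
    obtain ⟨A, hAd⟩ : ∃ A : ℝ, A = g 0 0 + u * g 1 0 := ⟨_, rfl⟩
    have e1 : aa τ * (hh u * g) = (vv (Real.exp (-(2 * τ)) * (g 1 0 / (g 0 0 + u * g 1 0))) *
        aa (Real.log (g 0 0 + u * g 1 0))) * (aa τ *
        hh ((g 0 1 + u * g 1 1) / (g 0 0 + u * g 1 0))) := by
      rw [hh_mul_eq g hA0]
      have e2 : aa τ * aa (Real.log (g 0 0 + u * g 1 0)) =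
          aa (Real.log (g 0 0 + u * g 1 0)) * aa τ := by
        rw [← aa_add, add_comm, aa_add]
      calc aa τ * (vv (g 1 0 / (g 0 0 + u * g 1 0)) * aa (Real.log (g 0 0 + u * g 1 0)) *
            hh ((g 0 1 + u * g 1 1) / (g 0 0 + u * g 1 0)))
          = (aa τ * vv (g 1 0 / (g 0 0 + u * g 1 0))) * (aa (Real.log (g 0 0 + u * g 1 0)) *
            hh ((g 0 1 + u * g 1 1) / (g 0 0 + u * g 1 0))) := by
            simp only [mul_assoc]
        _ = vv (Real.exp (-(2 * τ)) * (g 1 0 / (g 0 0 + u * g 1 0))) *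
            (aa τ * aa (Real.log (g 0 0 + u * g 1 0))) *
            hh ((g 0 1 + u * g 1 1) / (g 0 0 + u * g 1 0)) := by
            rw [aa_mul_vv]
            simp only [mul_assoc]
        _ = _ := by
            rw [e2]
            simp only [mul_assoc]
    have e3 : aa τ • hh u • (g • x) = (vv (Real.exp (-(2 * τ)) *
        (g 1 0 / (g 0 0 + u * g 1 0))) * aa (Real.log (g 0 0 + u * g 1 0))) •
        (aa τ • hh ((g 0 1 + u * g 1 1) / (g 0 0 + u * g 1 0)) • x) := by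
      have e4 : aa τ • hh u • (g • x) = (aa τ * (hh u * g)) • x := by
        rw [mul_smul, mul_smul]
      rw [e4, e1]
      simp only [mul_smul]
    rw [e3]
    refine hU₁f _ (hva _ _ ?_ ?_) _
    · -- the lower unipotent part
      have h3 : Real.exp (-(2 * τ)) ≤ 1 := Real.exp_le_one_iff.2 (by linarith)
      rw [abs_mul, abs_of_pos (Real.exp_pos _)]
      have h4 : |g 1 0 / (g 0 0 + u * g 1 0)| ≤ 2 * δ := by
        rw [abs_div, abs_of_pos hA0, div_le_iff₀ hA0]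
        nlinarith
      have h5 : Real.exp (-(2 * τ)) * |g 1 0 / (g 0 0 + u * g 1 0)| ≤ 1 * (2 * δ) :=
        mul_le_mul h3 h4 (abs_nonneg _) zero_le_one
      linarith
    · -- the diagonal part
      have h3 : Real.log (g 0 0 + u * g 1 0) ≤ g 0 0 + u * g 1 0 - 1 :=
        Real.log_le_sub_one_of_pos hA0
      have h4 : 1 - (g 0 0 + u * g 1 0)⁻¹ ≤ Real.log (g 0 0 + u * g 1 0) :=
        Real.one_sub_inv_le_log_of_pos hA0
      have h5 : -(4 * δ) ≤ 1 - (g 0 0 + u * g 1 0)⁻¹ := by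
        rw [← hAd] at h1 h2 hA0 ⊢
        have h6 := (abs_le.1 h2).1
        have h7 : A⁻¹ ≤ 1 + 4 * δ := by
          rw [inv_le_iff_one_le_mul₀ hA0]
          nlinarith
        linarith
      have h6 := (abs_le.1 h2).2
      rw [abs_lt]
      constructor <;> linarith
  have hi1 : IntervalIntegrable (fun u : ℝ => f (aa τ • hh u • (g • x))) volume 0 1 :=
    (continuous_piece hf τ (g • x)).intervalIntegrable _ _
  have hi2 : IntervalIntegrable (fun u : ℝ => f (aa τ • hh ((g 0 1 + u * g 1 1) /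
      (g 0 0 + u * g 1 0)) • x)) volume 0 1 := hφc.intervalIntegrable
  have h1 : |ftau f τ (g • x) - ∫ u in (0 : ℝ)..1, f (aa τ • hh ((g 0 1 + u * g 1 1) /
      (g 0 0 + u * g 1 0)) • x)| ≤ ε / 2 := by
    rw [ftau, ← intervalIntegral.integral_sub hi1 hi2]
    have h2 := intervalIntegral.norm_integral_le_of_norm_le_const
      (f := fun u : ℝ => f (aa τ • hh u • (g • x)) - f (aa τ • hh ((g 0 1 + u * g 1 1) /
        (g 0 0 + u * g 1 0)) • x)) (C := ε / 2) (a := 0) (b := 1) ?_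
    · simpa using h2
    · intro u hu
      rw [uIoc_of_le zero_le_one] at hu
      exact hpt u ⟨hu.1.le, hu.2⟩
  have h2 := abs_sub_le (ftau f τ (g • x)) (∫ u in (0 : ℝ)..1, f (aa τ • hh ((g 0 1 +
    u * g 1 1) / (g 0 0 + u * g 1 0)) • x)) (ftau f τ x)
  have h3 : |(∫ u in (0 : ℝ)..1, f (aa τ • hh ((g 0 1 + u * g 1 1) /
      (g 0 0 + u * g 1 0)) • x)) - ftau f τ x| ≤ ε / 2 := hmg
  linarith

end Pool.Agent.MOM.Dyn
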