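import Mathlib

/-!
MOM/Dyn/EquiA: averages along Moebius maps near the identity.

PROOF of `mobius_close`. Take `δ = min (1/4) (ε / (40 (M + 1)))`. Put `A u = a + u c`, for
`u ∈ [0, 1]` `|A u - 1| ≤ 2 δ ≤ 1/2`, so `A u ∈ [1/2, 3/2]`. `φ u = (b + u d) / (a + u c)` has the
derivative `(d (a + u c) - c (b + u d)) / A² = 1 / A²` (as `a d - b c = 1`) on `[0, 1]`. So
`∫_0^1 F (φ u) / (A u)^2 du = ∫_{φ 0}^{φ 1} F`
(`intervalIntegral.integral_comp_mul_deriv'` or `_deriv''`).
`|1 - 1/A²| = |A - 1| |A + 1| / A² ≤ 2 δ * (5/2) * 4 = 20 δ`, so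
`|∫_0^1 F (φ u) du - ∫_0^1 F (φ u) / (A u)^2 du| ≤ 20 δ M`
(`intervalIntegral.norm_integral_le_of_norm_le_const`). `|φ 0| = |b| / |a| ≤ 2 δ`,
`|φ 1 - 1| = |b + d - a - c| / |a + c| ≤ 8 δ`, so `|∫_{φ 0}^{φ 1} F - ∫_0^1 F| ≤ 10 δ M`
(`intervalIntegral.integral_interval_sub_interval_comm` or `integral_add_adjacent_intervals`).
Sum: `30 δ M ≤ ε`.
-/

set_option autoImplicit false

namespace Pool.Agent.MOM.Dyn

open MeasureTheory Filter Topology Set

theorem mobius_close {M ε : ℝ} (hM : 0 ≤ M) (hε : 0 < ε) :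
    ∃ δ : ℝ, 0 < δ ∧ δ ≤ 1 / 4 ∧ ∀ a b c d : ℝ, a * d - b * c = 1 → |a - 1| < δ → |b| < δ →
      |c| < δ → |d - 1| < δ → ∀ F : ℝ → ℝ, Continuous F → (∀ t, |F t| ≤ M) →
        |(∫ u in (0 : ℝ)..1, F ((b + u * d) / (a + u * c))) - ∫ u in (0 : ℝ)..1, F u| ≤ ε := by
  set δ : ℝ := min (1 / 4) (ε / (40 * (M + 1))) with hδ
  have hM1 : 0 < 40 * (M + 1) := by linarith
  have hδ0 : 0 < δ := lt_min (by norm_num) (div_pos hε hM1)
  have hδ4 : δ ≤ 1 / 4 := min_le_left _ _
  have hδε : δ * (40 * (M + 1)) ≤ ε := (le_div_iff₀ hM1).1 (min_le_right _ _)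
  refine ⟨δ, hδ0, hδ4, ?_⟩
  intro a b c d hdet ha hb hc hd F hF hFM
  have hA : ∀ u ∈ Icc (0 : ℝ) 1, |a + u * c - 1| ≤ 2 * δ := by
    intro u hu
    have h1 : |u * c| ≤ |c| := by
      rw [abs_mul, abs_of_nonneg hu.1]
      exact mul_le_of_le_one_left (abs_nonneg c) hu.2
    have h2 : a + u * c - 1 = (a - 1) + u * c := by ring
    rw [h2]
    refine (abs_add_le _ _).trans ?_
    linarith
  have hA1 : ∀ u ∈ Icc (0 : ℝ) 1, 1 / 2 ≤ a + u * c ∧ a + u * c ≤ 3 / 2 := by
    intro u hu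
    have h1 := abs_le.1 (hA u hu)
    constructor <;> linarith [h1.1, h1.2]
  have huI : uIcc (0 : ℝ) 1 = Icc 0 1 := uIcc_of_le zero_le_one
  set φ : ℝ → ℝ := fun u => (b + u * d) / (a + u * c) with hφ
  have hφd : ∀ u ∈ uIcc (0 : ℝ) 1, HasDerivAt φ (1 / (a + u * c) ^ 2) u := by
    intro u hu
    rw [huI] at hu
    have hne : a + u * c ≠ 0 := by
      have := (hA1 u hu).1
      intro h
      rw [h] at this
      norm_num at this
    have h1 : HasDerivAt (fun u : ℝ => b + u * d) d u := by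
      simpa using ((hasDerivAt_id u).mul_const d).const_add b
    have h2 : HasDerivAt (fun u : ℝ => a + u * c) c u := by
      simpa using ((hasDerivAt_id u).mul_const c).const_add a
    have h3 := h1.div h2 hne
    have h4 : (d * (a + u * c) - (b + u * d) * c) / (a + u * c) ^ 2 =
        1 / (a + u * c) ^ 2 := by
      congr 1
      linear_combination hdet
    rw [h4] at h3
    exact h3
  have hcontA : ContinuousOn (fun u : ℝ => 1 / (a + u * c) ^ 2) (uIcc 0 1) := by
    intro u hu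
    have hu' := hu
    rw [huI] at hu'
    have hne : (a + u * c) ^ 2 ≠ 0 := by
      have := (hA1 u hu').1
      positivity
    refine ContinuousAt.continuousWithinAt ?_
    refine ContinuousAt.div continuousAt_const ?_ hne
    fun_prop
  have hφc : ContinuousOn φ (uIcc 0 1) := fun u hu => (hφd u hu).continuousAt.continuousWithinAt
  have hFφ : ContinuousOn (fun u => F (φ u)) (uIcc 0 1) := hF.comp_continuousOn hφc
  have hsub : ∫ u in (0 : ℝ)..1, (F ∘ φ) u * (1 / (a + u * c) ^ 2) =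
      ∫ x in φ 0..φ 1, F x :=
    intervalIntegral.integral_comp_mul_deriv' hφd hcontA hF.continuousOn
  have hi1 : IntervalIntegrable (fun u => F (φ u)) volume 0 1 := hFφ.intervalIntegrable
  have hi2 : IntervalIntegrable (fun u => (F ∘ φ) u * (1 / (a + u * c) ^ 2)) volume 0 1 :=
    (hFφ.mul hcontA).intervalIntegrable
  have e1 : |(∫ u in (0 : ℝ)..1, F (φ u)) -
      ∫ u in (0 : ℝ)..1, (F ∘ φ) u * (1 / (a + u * c) ^ 2)| ≤ 20 * δ * M := by
    rw [← intervalIntegral.integral_sub hi1 hi2]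
    have h1 := intervalIntegral.norm_integral_le_of_norm_le_const
      (f := fun u => F (φ u) - (F ∘ φ) u * (1 / (a + u * c) ^ 2)) (C := 20 * δ * M)
      (a := 0) (b := 1) ?_
    · simpa using h1
    · intro u hu
      rw [uIoc_of_le zero_le_one] at hu
      have hu' : u ∈ Icc (0 : ℝ) 1 := ⟨hu.1.le, hu.2⟩
      have hA2 := hA1 u hu'
      have hA3 := hA u hu'
      set A : ℝ := a + u * c with hAdef
      have hpos : 0 < A := by linarith [hA2.1]
      have h2 : F (φ u) - (F ∘ φ) u * (1 / A ^ 2) = F (φ u) * ((A - 1) * (A + 1) / A ^ 2) := by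
        simp only [Function.comp]
        field_simp
        ring
      rw [h2, Real.norm_eq_abs, abs_mul]
      have h3 : |(A - 1) * (A + 1) / A ^ 2| ≤ 20 * δ := by
        rw [abs_div, abs_mul, abs_of_pos (by positivity : 0 < A ^ 2),
          abs_of_pos (by linarith : 0 < A + 1), div_le_iff₀ (by positivity)]
        have h4 : |A - 1| * (A + 1) ≤ (2 * δ) * (5 / 2) :=
          mul_le_mul hA3 (by linarith [hA2.2]) (by linarith) (by linarith)
        have h5 : (1 : ℝ) / 4 ≤ A ^ 2 := by nlinarith [hA2.1]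
        nlinarith
      have h4 := mul_le_mul (hFM (φ u)) h3 (abs_nonneg _) hM
      linarith
  have hφ0 : |φ 0| ≤ 2 * δ := by
    have h1 := (hA1 0 ⟨le_refl _, zero_le_one⟩).1
    simp only [zero_mul, add_zero] at h1
    have h2 : φ 0 = b / a := by simp [hφ]
    rw [h2, abs_div, div_le_iff₀ (by rw [abs_pos]; intro h; rw [h] at h1; norm_num at h1)]
    have h3 : 1 / 2 ≤ |a| := h1.trans (le_abs_self a)
    nlinarith [abs_nonneg b]
  have hφ1 : |φ 1 - 1| ≤ 8 * δ := by
    have h1 := (hA1 1 ⟨zero_le_one, le_refl _⟩).1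
    simp only [one_mul] at h1
    have hne : a + c ≠ 0 := by
      intro h
      rw [h] at h1
      norm_num at h1
    have h2 : φ 1 - 1 = (b + (d - 1) - (a - 1) - c) / (a + c) := by
      simp only [hφ, one_mul]
      field_simp
      ring
    have hpos : 0 < a + c := by linarith
    rw [h2, abs_div, abs_of_pos hpos, div_le_iff₀ hpos]
    have h3 : |b + (d - 1) - (a - 1) - c| ≤ 4 * δ := by
      rw [abs_le]
      have k1 := abs_lt.1 ha
      have k2 := abs_lt.1 hb
      have k3 := abs_lt.1 hc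
      have k4 := abs_lt.1 hd
      constructor <;> linarith [k1.1, k1.2, k2.1, k2.2, k3.1, k3.2, k4.1, k4.2]
    nlinarith
  have hii : ∀ x y : ℝ, IntervalIntegrable F volume x y := fun x y => hF.intervalIntegrable x y
  have hbd : ∀ x y : ℝ, |∫ t in x..y, F t| ≤ M * |y - x| := by
    intro x y
    have := intervalIntegral.norm_integral_le_of_norm_le_const (f := F) (C := M) (a := x) (b := y)
      (fun t _ => hFM t)
    simpa using this
  have e2 : |(∫ x in φ 0..φ 1, F x) - ∫ u in (0 : ℝ)..1, F u| ≤ 10 * δ * M := by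
    have h1 : (∫ x in φ 0..φ 1, F x) - ∫ u in (0 : ℝ)..1, F u =
        (∫ x in φ 0..0, F x) + ∫ x in (1 : ℝ)..φ 1, F x := by
      rw [← intervalIntegral.integral_add_adjacent_intervals (hii (φ 0) 0) (hii 0 (φ 1)),
        ← intervalIntegral.integral_add_adjacent_intervals (hii 0 1) (hii 1 (φ 1))]
      ring
    rw [h1]
    refine (abs_add_le _ _).trans ?_
    have h2 := hbd (φ 0) 0
    have h3 := hbd 1 (φ 1)
    rw [zero_sub, abs_neg] at h2
    have h4 := mul_le_mul_of_nonneg_left hφ0 hM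
    have h5 := mul_le_mul_of_nonneg_left hφ1 hM
    linarith
  rw [hsub] at e1
  have e3 : (∫ u in (0 : ℝ)..1, F ((b + u * d) / (a + u * c))) - ∫ u in (0 : ℝ)..1, F u =
      ((∫ u in (0 : ℝ)..1, F (φ u)) - ∫ x in φ 0..φ 1, F x) +
      ((∫ x in φ 0..φ 1, F x) - ∫ u in (0 : ℝ)..1, F u) := by
    simp only [hφ]
    ring
  rw [e3]
  refine (abs_add_le _ _).trans ?_
  have e4 : 30 * δ * M ≤ ε := by
    have : 30 * δ * M ≤ δ * (40 * (M + 1)) := by nlinarith
    linarith
  linarith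

end Pool.Agent.MOM.Dyn
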