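import Pool.Agent.MOM.Sampled
import Pool.Agent.MOM.Dyn.Defs

/-!
MOM/Dyn (MP_2b7f8f_an): the block function, its index, measurability, the number of block ends.
-/

set_option autoImplicit false

namespace Pool.Agent.MOM.Dyn

open MeasureTheory Filter Topology Finset

/-- the index of the block `[b k, b (k + 1))` containing `x` (equal to `0` for `x < 0`) -/
noncomputable def idx (b : ℕ → ℕ) (x : ℝ) : ℕ :=
  Nat.findGreatest (fun k => (b k : ℝ) ≤ x) ⌊x⌋₊

/-- the block function -/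
noncomputable def blk {Γ : Subgroup G} (t₀ : ℝ) (b : ℕ → ℕ) (c : ℕ → ℂ) (y : ℕ → G ⧸ Γ)
    (f : G ⧸ Γ → ℂ) (x : ℝ) : ℂ :=
  c (idx b x) * f (hh (t₀ * (x - b (idx b x))) • y (idx b x))

section Idx

variable {b : ℕ → ℕ} (hb0 : b 0 = 0) (hb : StrictMono b)

include hb in
theorem le_idx {k : ℕ} {x : ℝ} (h : (b k : ℝ) ≤ x) : k ≤ idx b x := by
  unfold idx
  refine Nat.le_findGreatest ?_ h
  refine Nat.le_floor (le_trans ?_ h)
  exact_mod_cast hb.id_le k

include hb0 in
theorem b_idx_le {x : ℝ} (h : 0 ≤ x) : (b (idx b x) : ℝ) ≤ x := by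
  unfold idx
  refine Nat.findGreatest_spec (P := fun k => (b k : ℝ) ≤ x) (Nat.zero_le _) ?_
  simpa [hb0] using h

include hb in
theorem lt_b_idx_succ (x : ℝ) : x < b (idx b x + 1) := by
  by_contra h
  have := le_idx hb (not_lt.1 h)
  omega

theorem idx_neg {x : ℝ} (h : x ≤ 0) : idx b x = 0 := by
  unfold idx
  rw [Nat.floor_of_nonpos h, Nat.findGreatest_zero]

include hb0 hb in
theorem idx_eq {k : ℕ} {x : ℝ} (h1 : (b k : ℝ) ≤ x) (h2 : x < b (k + 1)) : idx b x = k := by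
  have hx : 0 ≤ x := le_trans (Nat.cast_nonneg _) h1
  refine le_antisymm ?_ (le_idx hb h1)
  have h3 : (b (idx b x) : ℝ) < b (k + 1) := lt_of_le_of_lt (b_idx_le hb0 hx) h2
  have h4 : b (idx b x) < b (k + 1) := by exact_mod_cast h3
  have := hb.lt_iff_lt.1 h4
  omega

include hb0 hb in
theorem idx_mono : Monotone (idx b) := by
  intro x x' h
  by_cases hx : x ≤ 0
  · rw [idx_neg hx]
    exact Nat.zero_le _
  · exact le_idx hb (le_trans (b_idx_le hb0 (not_le.1 hx).le) h)

include hb0 hb in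
theorem idx_eq_of_no_edge {x x' : ℝ} (h : x ≤ x')
    (hne : ∀ k, 1 ≤ k → ¬ (x < b k ∧ (b k : ℝ) ≤ x')) : idx b x = idx b x' := by
  refine le_antisymm (idx_mono hb0 hb h) ?_
  rcases Nat.eq_zero_or_pos (idx b x') with h0 | h0
  · rw [h0]
    exact Nat.zero_le _
  · have hx' : 0 ≤ x' := by
      by_contra hx
      rw [idx_neg (not_le.1 hx).le] at h0
      exact lt_irrefl _ h0
    have h1 := b_idx_le hb0 hx'
    have h2 := hne (idx b x') h0
    have h3 : (b (idx b x') : ℝ) ≤ x := by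
      by_contra h4
      exact h2 ⟨not_le.1 h4, h1⟩
    exact le_idx hb h3

end Idx

section Blk

variable {Γ : Subgroup G} {t₀ : ℝ} {b : ℕ → ℕ} {c : ℕ → ℂ} {y : ℕ → G ⧸ Γ} {f : G ⧸ Γ → ℂ}

theorem norm_blk_le (hc : ∀ k, ‖c k‖ ≤ 1) (hf : ∀ z, ‖f z‖ ≤ 1) (x : ℝ) :
    ‖blk t₀ b c y f x‖ ≤ 1 := by
  unfold blk
  rw [norm_mul]
  exact mul_le_one₀ (hc _) (norm_nonneg _) (hf _)

theorem measurable_blk (hb0 : b 0 = 0) (hb : StrictMono b) (hf : Continuous f) :
    Measurable (blk t₀ b c y f) := by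
  have h1 : Measurable (idx b) := (idx_mono hb0 hb).measurable
  have h2 : Measurable fun p : ℕ × ℝ => c p.1 * f (hh (t₀ * (p.2 - b p.1)) • y p.1) := by
    refine measurable_from_prod_countable_right ?_
    intro k
    have h3 : Continuous fun x : ℝ => c k * f (hh (t₀ * (x - b k)) • y k) := by
      refine continuous_const.mul (hf.comp ?_)
      refine Continuous.smul (continuous_hh.comp ?_) continuous_const
      fun_prop
    exact h3.measurable
  exact h2.comp (h1.prodMk measurable_id)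

end Blk

/-- the number of block ends below `N` is `o(N)` -/
theorem card_ends {b : ℕ → ℕ} (hb : StrictMono b)
    (hg : Tendsto (fun k : ℕ => b (k + 1) - b k) atTop atTop) {η : ℝ} (hη : 0 < η) :
    ∃ C : ℝ, ∀ x : ℝ, 0 ≤ x → ∀ S : Finset ℕ, (∀ k ∈ S, (b k : ℝ) ≤ x) →
      (S.card : ℝ) ≤ η * x + C := by
  obtain ⟨M, hM⟩ := exists_nat_gt (1 / η)
  have hMpos : (0 : ℝ) < M := lt_trans (by positivity) hM
  obtain ⟨K, hK⟩ := Filter.eventually_atTop.1 (hg.eventually_ge_atTop M)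
  have h1 : ∀ j : ℕ, M * j ≤ b (K + j) := by
    intro j
    induction j with
    | zero => simp
    | succ j ih =>
      have h2 := hK (K + j) (by omega)
      have h3 : b (K + j) < b (K + j + 1) := hb (by omega)
      rw [mul_add, mul_one]
      have h4 : K + (j + 1) = K + j + 1 := by ring
      rw [h4]
      omega
  refine ⟨K + 1, fun x hx S hS => ?_⟩
  have hsub : S ⊆ range K ∪ (range (⌊η * x⌋₊ + 1)).image (fun j => K + j) := by
    intro k hk
    rw [mem_union, mem_range, mem_image]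
    by_cases hkK : k < K
    · exact Or.inl hkK
    · right
      refine ⟨k - K, ?_, by omega⟩
      rw [mem_range]
      have h2 := h1 (k - K)
      rw [show K + (k - K) = k by omega] at h2
      have h3 : ((M * (k - K) : ℕ) : ℝ) ≤ x := le_trans (by exact_mod_cast h2) (hS k hk)
      have h4 : ((k - K : ℕ) : ℝ) ≤ η * x := by
        rw [Nat.cast_mul] at h3
        have h5 : 1 ≤ η * M := by
          have := (div_lt_iff₀ hη).1 hM
          linarith
        have h6 : (0 : ℝ) ≤ ((k - K : ℕ) : ℝ) := Nat.cast_nonneg _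
        nlinarith
      have h5 := Nat.le_floor h4
      omega
  have h2 := (card_le_card hsub).trans (card_union_le _ _)
  have h3 : ((range (⌊η * x⌋₊ + 1)).image (fun j => K + j)).card ≤ ⌊η * x⌋₊ + 1 :=
    card_image_le.trans (by simp)
  rw [card_range] at h2
  have h4 : (S.card : ℝ) ≤ K + (⌊η * x⌋₊ + 1) := by exact_mod_cast h2.trans (by omega)
  have h5 := Nat.floor_le (mul_nonneg hη.le hx)
  linarith

/-- uniform continuity along the orbits -/
theorem orbit_unif {Γ : Subgroup G} (hcpt : CompactSpace (G ⧸ Γ)) {f : G ⧸ Γ → ℂ}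
    (hf : Continuous f) {ε : ℝ} (hε : 0 < ε) :
    ∃ δ : ℝ, 0 < δ ∧ ∀ s : ℝ, |s| ≤ δ → ∀ z : G ⧸ Γ, ‖f (hh s • z) - f z‖ ≤ ε := by
  have hcont : Continuous fun p : ℝ × (G ⧸ Γ) => f (hh p.1 • p.2) - f p.2 := by
    refine Continuous.sub (hf.comp ?_) (hf.comp continuous_snd)
    exact Continuous.smul (continuous_hh.comp continuous_fst) continuous_snd
  have h1 : ∀ᶠ s in 𝓝 (0 : ℝ), ∀ z ∈ (Set.univ : Set (G ⧸ Γ)), ‖f (hh s • z) - f z‖ < ε := by
    refine IsCompact.eventually_forall_of_forall_eventually isCompact_univ ?_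
    intro z _
    have h2 : Tendsto (fun p : ℝ × (G ⧸ Γ) => ‖f (hh p.1 • p.2) - f p.2‖) (𝓝 ((0 : ℝ), z))
        (𝓝 ‖f (hh (0 : ℝ) • z) - f z‖) := (hcont.norm.tendsto _)
    rw [hh_zero, one_smul, sub_self, norm_zero] at h2
    exact h2.eventually_lt_const hε
  rw [Metric.eventually_nhds_iff] at h1
  obtain ⟨δ, hδ, h2⟩ := h1
  refine ⟨δ / 2, by positivity, fun s hs z => ?_⟩
  refine (h2 (y := s) ?_ z (Set.mem_univ z)).le
  rw [Real.dist_eq, sub_zero]
  linarith

end Pool.Agent.MOM.Dyn
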