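import Pool.Agent.MOM.Dyn.Fin1

/-!
MOM/Dyn (MP_2b7f8f_an): property (F2) of the block function, uniformly in the dilation.
-/

set_option autoImplicit false

namespace Pool.Agent.MOM.Dyn

open MeasureTheory Filter Topology Finset

section

variable {Γ : Subgroup G} {t₀ : ℝ} {b : ℕ → ℕ} {c : ℕ → ℂ} {y : ℕ → G ⧸ Γ} {f : G ⧸ Γ → ℂ}

/-- inside a block the block function moves along one orbit -/
theorem blk_sub_le (hc : ∀ k, ‖c k‖ ≤ 1) {ε δ : ℝ} (hδ : ∀ s : ℝ, |s| ≤ δ → ∀ z : G ⧸ Γ,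
    ‖f (hh s • z) - f z‖ ≤ ε) {x x' : ℝ} (hi : idx b x = idx b x') (hx : |t₀ * (x - x')| ≤ δ) :
    ‖blk t₀ b c y f x - blk t₀ b c y f x'‖ ≤ ε := by
  unfold blk
  rw [hi, ← mul_sub, norm_mul]
  have h1 : hh (t₀ * (x - b (idx b x'))) • y (idx b x') =
      hh (t₀ * (x - x')) • (hh (t₀ * (x' - b (idx b x'))) • y (idx b x')) := by
    rw [smul_smul, ← hh_add]
    congr 2
    ring
  rw [h1]
  have h2 := hδ _ hx (hh (t₀ * (x' - b (idx b x'))) • y (idx b x'))
  calc ‖c (idx b x')‖ * _ ≤ 1 * ε := mul_le_mul (hc _) h2 (norm_nonneg _) zero_le_one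
    _ = ε := one_mul _

open scoped Classical in
theorem blk_cont (hcpt : CompactSpace (G ⧸ Γ)) (ht : t₀ ≠ 0) (hb0 : b 0 = 0) (hb : StrictMono b)
    (hg : Tendsto (fun k : ℕ => b (k + 1) - b k) atTop atTop) (hc : ∀ k, ‖c k‖ ≤ 1)
    (hf : Continuous f) (ε : ℝ) (hε : 0 < ε) :
    ∃ d : ℝ, 0 < d ∧ ∀ r : ℝ, 1 / 3 ≤ r → r ≤ 3 → ∃ N0 : ℕ, ∀ N : ℕ,
      N0 ≤ N → (((range N).filter fun n : ℕ =>
        ∃ x : ℝ, |x - n| ≤ d ∧ ε < ‖blk t₀ b c y f (r * x) - blk t₀ b c y f (r * n)‖).card : ℝ)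
        ≤ ε * N := by
  obtain ⟨δ, hδ, hδ'⟩ := orbit_unif hcpt hf hε
  have hta : 0 < |t₀| := abs_pos.2 ht
  obtain ⟨C, hC⟩ := card_ends hb hg (η := ε / 6) (by positivity)
  refine ⟨min (1 / 19) (δ / (3 * |t₀|)), lt_min (by norm_num) (by positivity), ?_⟩
  intro r hr1 hr2
  have hr0 : 0 < r := by linarith
  obtain ⟨N0, hN0⟩ := exists_nat_gt ((ε / 6 + |C|) / (ε / 2))
  refine ⟨N0, fun N hN => ?_⟩
  set d := min (1 / 19 : ℝ) (δ / (3 * |t₀|)) with hd
  have hd0 : 0 < d := lt_min (by norm_num) (by positivity)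
  have hd1 : d ≤ 1 / 19 := min_le_left _ _
  have hd2 : d * (3 * |t₀|) ≤ δ := by
    have h1 : d ≤ δ / (3 * |t₀|) := min_le_right _ _
    exact (le_div_iff₀ (by positivity)).1 h1
  set S := (range N).filter fun n : ℕ =>
    ∃ x : ℝ, |x - n| ≤ d ∧ ε < ‖blk t₀ b c y f (r * x) - blk t₀ b c y f (r * n)‖ with hS
  -- every bad `n` is close to a block end
  have hclose : ∀ n ∈ S, ∃ k : ℕ, |(b k : ℝ) - r * n| ≤ 3 * d := by
    intro n hn
    rw [hS, mem_filter] at hn
    obtain ⟨_, x, hx, hbig⟩ := hn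
    by_contra hno
    push Not at hno
    have hrx : |r * x - r * n| ≤ 3 * d := by
      rw [← mul_sub, abs_mul, abs_of_pos hr0]
      nlinarith [abs_nonneg (x - n)]
    have hi : idx b (r * x) = idx b (r * n) := by
      rcases le_total (r * x) (r * n) with h | h
      · refine idx_eq_of_no_edge hb0 hb h ?_
        rintro k _ ⟨h1, h2⟩
        have h3 := hno k
        rw [abs_of_nonpos (by linarith : (b k : ℝ) - r * n ≤ 0)] at h3
        rw [abs_of_nonpos (by linarith : r * x - r * n ≤ 0)] at hrx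
        linarith
      · symm
        refine idx_eq_of_no_edge hb0 hb h ?_
        rintro k _ ⟨h1, h2⟩
        have h3 := hno k
        rw [abs_of_nonneg (by linarith : 0 ≤ (b k : ℝ) - r * n)] at h3
        rw [abs_of_nonneg (by linarith : 0 ≤ r * x - r * n)] at hrx
        linarith
    have h4 := blk_sub_le (t₀ := t₀) (c := c) (y := y) (f := f) hc hδ' hi (by
      rw [abs_mul]
      calc |t₀| * |r * x - r * n| ≤ |t₀| * (3 * d) :=
            mul_le_mul_of_nonneg_left hrx hta.le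
        _ = d * (3 * |t₀|) := by ring
        _ ≤ δ := hd2)
    linarith
  choose! κ hκ using hclose
  have hinj : Set.InjOn κ S := by
    intro n hn n' hn' h
    have h1 := hκ n hn
    have h2 := hκ n' hn'
    rw [h] at h1
    by_contra hne
    have h3 : |r * n - r * n'| ≤ 6 * d := by
      have h4 : r * n - r * n' = ((b (κ n') : ℝ) - r * n') - ((b (κ n') : ℝ) - r * n) := by ring
      rw [h4]
      refine (abs_sub _ _).trans ?_
      linarith
    rw [← mul_sub, abs_mul, abs_of_pos hr0] at h3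
    have h5 : (1 : ℝ) ≤ |(n : ℝ) - n'| := by
      have h6 : ((n : ℤ) - n') ≠ 0 := by
        intro h7
        apply hne
        omega
      have h7 := Int.one_le_abs h6
      have h8 : (|((n : ℤ) - n' : ℤ)| : ℝ) = |(n : ℝ) - n'| := by push_cast; rfl
      rw [← h8]
      exact_mod_cast h7
    nlinarith
  have hcard : S.card = (S.image κ).card := (card_image_of_injOn hinj).symm
  have hle : ∀ k ∈ S.image κ, (b k : ℝ) ≤ 3 * N + 1 := by
    intro k hk
    rw [mem_image] at hk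
    obtain ⟨n, hn, rfl⟩ := hk
    have h1 := hκ n hn
    rw [hS, mem_filter, mem_range] at hn
    have h2 : (n : ℝ) ≤ N := by exact_mod_cast hn.1.le
    have h3 : r * n ≤ 3 * N := mul_le_mul hr2 h2 (Nat.cast_nonneg _) (by norm_num)
    have h4 := le_abs_self ((b (κ n) : ℝ) - r * n)
    linarith
  have h1 := hC (3 * N + 1) (by positivity) (S.image κ) hle
  rw [← hcard] at h1
  have h2 : (ε / 6 + |C|) / (ε / 2) ≤ N := by
    have h3 : (N0 : ℝ) ≤ N := by exact_mod_cast hN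
    linarith
  rw [div_le_iff₀ (by positivity)] at h2
  have h3 := le_abs_self C
  linarith

end

end Pool.Agent.MOM.Dyn
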