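import Pool.Agent.MOM.Sampled

/-!
MOM/Dyn (MP_2b7f8f_an): sums over the integers against integrals: from natural to logarithmic
weights, by partial summation.
-/

set_option autoImplicit false

namespace Pool.Agent.MOM.Dyn

open MeasureTheory Filter Topology Finset

/-- the defect of the sample at `m` -/
noncomputable def dfc (P : ℝ → ℂ) (m : ℕ) : ℂ := P m - ∫ x in (m : ℝ)..(m : ℝ) + 1, P x

theorem intInt {g : ℝ → ℂ} (hg : Measurable g) {a b C : ℝ}
    (hb : ∀ x ∈ Set.uIoc a b, ‖g x‖ ≤ C) : IntervalIntegrable g volume a b := by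
  refine IntervalIntegrable.mono_fun' (g := fun _ => C) intervalIntegrable_const
    hg.aestronglyMeasurable ?_
  rw [EventuallyLE, ae_restrict_iff' measurableSet_uIoc]
  exact Eventually.of_forall hb

theorem abel_id (e : ℕ → ℂ) (A : ℕ) (B : ℕ) (h : A ≤ B) :
    ∑ m ∈ Finset.Ioc A B, e m / (m : ℂ) =
      (∑ j ∈ range (B + 1), e j) / ((B + 1 : ℕ) : ℂ) -
      (∑ j ∈ range (A + 1), e j) / ((A + 1 : ℕ) : ℂ) +
      ∑ m ∈ Finset.Ioc A B, (∑ j ∈ range (m + 1), e j) *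
        (1 / (m : ℂ) - 1 / ((m + 1 : ℕ) : ℂ)) := by
  induction B, h using Nat.le_induction with
  | base => simp
  | succ B hB ih =>
    rw [Finset.sum_Ioc_succ_top (by omega), Finset.sum_Ioc_succ_top (by omega), ih,
      Finset.sum_range_succ _ (B + 1)]
    have h1 : ((B + 1 : ℕ) : ℂ) ≠ 0 := by exact_mod_cast Nat.succ_ne_zero B
    have h2 : ((B + 1 + 1 : ℕ) : ℂ) ≠ 0 := by exact_mod_cast Nat.succ_ne_zero (B + 1)
    field_simp
    ring

theorem sum_inv_diff (A B : ℕ) (h : A ≤ B) :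
    ∑ m ∈ Finset.Ioc A B, (1 / (m : ℝ) - 1 / ((m + 1 : ℕ) : ℝ)) =
      1 / ((A + 1 : ℕ) : ℝ) - 1 / ((B + 1 : ℕ) : ℝ) := by
  induction B, h using Nat.le_induction with
  | base => simp
  | succ B hB ih =>
    rw [Finset.sum_Ioc_succ_top (by omega), ih]
    ring

theorem inv_diff_nonneg (m : ℕ) (hm : 1 ≤ m) : 0 ≤ 1 / (m : ℝ) - 1 / ((m + 1 : ℕ) : ℝ) := by
  have h0 : (0 : ℝ) < m := by exact_mod_cast hm
  rw [sub_nonneg]
  exact one_div_le_one_div_of_le h0 (by push_cast; linarith)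

theorem abel_le (e : ℕ → ℂ) {A B : ℕ} (h : A ≤ B) {S : ℝ}
    (hS : ∀ N, N ≤ B + 1 → ‖∑ j ∈ range N, e j‖ ≤ S) :
    ‖∑ m ∈ Finset.Ioc A B, e m / (m : ℂ)‖ ≤ 2 * S / ((A + 1 : ℕ) : ℝ) := by
  rw [abel_id e A B h]
  have hS0 : 0 ≤ S := (norm_nonneg _).trans (hS 0 (by omega))
  have hA : (0 : ℝ) < ((A + 1 : ℕ) : ℝ) := by exact_mod_cast Nat.succ_pos A
  have hB : (0 : ℝ) < ((B + 1 : ℕ) : ℝ) := by exact_mod_cast Nat.succ_pos B
  have h1 : ‖(∑ j ∈ range (B + 1), e j) / ((B + 1 : ℕ) : ℂ)‖ ≤ S / ((B + 1 : ℕ) : ℝ) := by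
    rw [norm_div, Complex.norm_natCast]
    exact div_le_div_of_nonneg_right (hS _ le_rfl) hB.le
  have h2 : ‖(∑ j ∈ range (A + 1), e j) / ((A + 1 : ℕ) : ℂ)‖ ≤ S / ((A + 1 : ℕ) : ℝ) := by
    rw [norm_div, Complex.norm_natCast]
    exact div_le_div_of_nonneg_right (hS _ (by omega)) hA.le
  have h3 : ‖∑ m ∈ Finset.Ioc A B, (∑ j ∈ range (m + 1), e j) *
      (1 / (m : ℂ) - 1 / ((m + 1 : ℕ) : ℂ))‖ ≤
      S * (1 / ((A + 1 : ℕ) : ℝ) - 1 / ((B + 1 : ℕ) : ℝ)) := by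
    rw [← sum_inv_diff A B h, Finset.mul_sum]
    refine norm_sum_le_of_le _ fun m hm => ?_
    rw [Finset.mem_Ioc] at hm
    rw [norm_mul]
    have h4 : (1 / (m : ℂ) - 1 / ((m + 1 : ℕ) : ℂ)) =
        ((1 / (m : ℝ) - 1 / ((m + 1 : ℕ) : ℝ) : ℝ) : ℂ) := by push_cast; rfl
    rw [h4, Complex.norm_real, Real.norm_of_nonneg (inv_diff_nonneg m (by omega))]
    exact mul_le_mul_of_nonneg_right (hS _ (by omega)) (inv_diff_nonneg m (by omega))
  refine (norm_add_le _ _).trans ?_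
  refine (add_le_add (norm_sub_le _ _) le_rfl).trans ?_
  refine (add_le_add (add_le_add h1 h2) h3).trans (le_of_eq ?_)
  field_simp
  ring

variable {P : ℝ → ℂ} (hP : Measurable P) (hP1 : ∀ x, ‖P x‖ ≤ 1)

include hP1 in
theorem norm_div_le {x d : ℝ} (hd : 0 < d) (hx : d ≤ x) : ‖P x / (x : ℂ)‖ ≤ 1 / d := by
  rw [norm_div, Complex.norm_real, Real.norm_of_nonneg (by linarith)]
  exact div_le_div₀ zero_le_one (hP1 x) hd hx

include hP in
theorem meas_div : Measurable fun x : ℝ => P x / (x : ℂ) := hP.div Complex.measurable_ofReal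

include hP hP1 in
theorem intInt_div {a b d : ℝ} (hd : 0 < d) (ha : d ≤ a) (hb : d ≤ b) :
    IntervalIntegrable (fun x : ℝ => P x / (x : ℂ)) volume a b := by
  refine intInt (meas_div hP) (C := 1 / d) fun x hx => norm_div_le hP1 hd ?_
  rcases le_total a b with h | h
  · rw [Set.uIoc_of_le h] at hx
    exact ha.trans hx.1.le
  · rw [Set.uIoc_of_ge h] at hx
    exact hb.trans hx.1.le

include hP hP1 in
/-- one unit interval -/
theorem unit_le (m : ℕ) (hm : 1 ≤ m) :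
    ‖P m / (m : ℂ) - (∫ x in (m : ℝ)..(m : ℝ) + 1, P x / (x : ℂ)) - dfc P m / (m : ℂ)‖ ≤
      1 / (m : ℝ) - 1 / ((m + 1 : ℕ) : ℝ) := by
  have hm0 : (0 : ℝ) < m := by exact_mod_cast hm
  have hmc : (m : ℂ) ≠ 0 := by exact_mod_cast (by omega : m ≠ 0)
  have h1 : P m / (m : ℂ) - (∫ x in (m : ℝ)..(m : ℝ) + 1, P x / (x : ℂ)) - dfc P m / (m : ℂ) =
      ∫ x in (m : ℝ)..(m : ℝ) + 1, (P x / (m : ℂ) - P x / (x : ℂ)) := by
    rw [intervalIntegral.integral_sub]
    · rw [intervalIntegral.integral_div]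
      unfold dfc
      field_simp
      ring
    · exact (intInt hP (C := 1) fun x _ => hP1 x).div_const _
    · exact intInt_div hP hP1 hm0 le_rfl (by linarith)
  rw [h1]
  have h2 := intervalIntegral.norm_integral_le_of_norm_le_const (a := (m : ℝ)) (b := (m : ℝ) + 1)
    (C := 1 / (m : ℝ) - 1 / ((m + 1 : ℕ) : ℝ))
    (f := fun x : ℝ => P x / (m : ℂ) - P x / (x : ℂ)) (by
      intro x hx
      rw [Set.uIoc_of_le (by linarith)] at hx
      have hx0 : 0 < x := hm0.trans hx.1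
      have h3 : P x / (m : ℂ) - P x / (x : ℂ) = P x * ((1 / (m : ℝ) - 1 / x : ℝ) : ℂ) := by
        push_cast
        ring
      rw [h3, norm_mul, Complex.norm_real]
      have h4 : 0 ≤ 1 / (m : ℝ) - 1 / x := by
        rw [sub_nonneg]
        exact one_div_le_one_div_of_le hm0 hx.1.le
      rw [Real.norm_of_nonneg h4]
      have h5 : 1 / ((m + 1 : ℕ) : ℝ) ≤ 1 / x := by
        refine one_div_le_one_div_of_le hx0 ?_
        push_cast
        exact hx.2
      calc ‖P x‖ * (1 / (m : ℝ) - 1 / x) ≤ 1 * (1 / (m : ℝ) - 1 / x) :=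
            mul_le_mul_of_nonneg_right (hP1 x) h4
        _ ≤ _ := by linarith)
  rw [add_sub_cancel_left, abs_one, mul_one] at h2
  exact h2

include hP hP1 in
theorem sum_unit (A B : ℕ) (h : A ≤ B) :
    ∑ m ∈ Finset.Ioc A B, ∫ x in (m : ℝ)..(m : ℝ) + 1, P x / (x : ℂ) =
      ∫ x in ((A : ℝ) + 1)..((B : ℝ) + 1), P x / (x : ℂ) := by
  induction B, h using Nat.le_induction with
  | base => simp
  | succ B hB ih =>
    rw [Finset.sum_Ioc_succ_top (by omega), ih]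
    push_cast
    refine intervalIntegral.integral_add_adjacent_intervals
      (intInt_div hP hP1 zero_lt_one ?_ ?_) (intInt_div hP hP1 zero_lt_one ?_ ?_)
    · linarith [Nat.cast_nonneg (α := ℝ) A]
    · linarith [Nat.cast_nonneg (α := ℝ) B]
    · linarith [Nat.cast_nonneg (α := ℝ) B]
    · linarith [Nat.cast_nonneg (α := ℝ) B]

include hP hP1 in
theorem main_le {a b X S : ℝ} (ha : 0 < a) (hab : a < b) (hX : 0 < X)
    (hS : ∀ N, N ≤ ⌊b * X⌋₊ + 1 → ‖∑ j ∈ range N, dfc P j‖ ≤ S) :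
    ‖(∑ m ∈ win (a * X) (b * X), P m / (m : ℂ)) -
      ∫ x in (a * X)..(b * X), P x / (x : ℂ)‖ ≤ (2 * S + 3) / (a * X) := by
  have haX : 0 < a * X := mul_pos ha hX
  have hbX : a * X < b * X := mul_lt_mul_of_pos_right hab hX
  have hbX0 : 0 < b * X := haX.trans hbX
  set A := ⌊a * X⌋₊ with hA
  set B := ⌊b * X⌋₊ with hB
  have hAB : A ≤ B := Nat.floor_mono hbX.le
  have hA1 : a * X < (A : ℝ) + 1 := Nat.lt_floor_add_one _
  have hA2 : (A : ℝ) ≤ a * X := Nat.floor_le haX.le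
  have hB1 : b * X < (B : ℝ) + 1 := Nat.lt_floor_add_one _
  have hB2 : (B : ℝ) ≤ b * X := Nat.floor_le hbX0.le
  have hS0 : 0 ≤ S := (norm_nonneg _).trans (hS 0 (by omega))
  have hwin : win (a * X) (b * X) = Finset.Ioc A B := rfl
  rw [hwin]
  have hint : ∫ x in (a * X)..(b * X), P x / (x : ℂ) =
      (∫ x in (a * X)..((A : ℝ) + 1), P x / (x : ℂ)) +
      (∫ x in ((A : ℝ) + 1)..((B : ℝ) + 1), P x / (x : ℂ)) -
      ∫ x in (b * X)..((B : ℝ) + 1), P x / (x : ℂ) := by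
    rw [intervalIntegral.integral_add_adjacent_intervals
      (intInt_div hP hP1 haX le_rfl (by linarith)) (intInt_div hP hP1 haX (by linarith)
        (by linarith))]
    rw [eq_sub_iff_add_eq]
    exact intervalIntegral.integral_add_adjacent_intervals
      (intInt_div hP hP1 haX le_rfl (by linarith)) (intInt_div hP hP1 haX (by linarith)
        (by linarith))
  have hdec : (∑ m ∈ Finset.Ioc A B, P m / (m : ℂ)) -
      ∫ x in (a * X)..(b * X), P x / (x : ℂ) =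
      (∑ m ∈ Finset.Ioc A B, dfc P m / (m : ℂ)) +
      (∑ m ∈ Finset.Ioc A B, (P m / (m : ℂ) - (∫ x in (m : ℝ)..(m : ℝ) + 1, P x / (x : ℂ)) -
        dfc P m / (m : ℂ))) - (∫ x in (a * X)..((A : ℝ) + 1), P x / (x : ℂ)) +
        ∫ x in (b * X)..((B : ℝ) + 1), P x / (x : ℂ) := by
    rw [hint, Finset.sum_sub_distrib, Finset.sum_sub_distrib, sum_unit hP hP1 A B hAB]
    ring
  rw [hdec]
  have hA1' : (0 : ℝ) < ((A + 1 : ℕ) : ℝ) := by exact_mod_cast Nat.succ_pos A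
  have hA1c : a * X ≤ ((A + 1 : ℕ) : ℝ) := by push_cast; exact hA1.le
  have e1 : ‖∑ m ∈ Finset.Ioc A B, dfc P m / (m : ℂ)‖ ≤ 2 * S / (a * X) := by
    refine (abel_le (dfc P) hAB hS).trans ?_
    exact div_le_div_of_nonneg_left (by positivity) haX hA1c
  have e2 : ‖∑ m ∈ Finset.Ioc A B, (P m / (m : ℂ) -
      (∫ x in (m : ℝ)..(m : ℝ) + 1, P x / (x : ℂ)) - dfc P m / (m : ℂ))‖ ≤ 1 / (a * X) := by
    have h1 := norm_sum_le_of_le (Finset.Ioc A B)
      (f := fun m : ℕ => P m / (m : ℂ) - (∫ x in (m : ℝ)..(m : ℝ) + 1, P x / (x : ℂ)) -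
        dfc P m / (m : ℂ)) (n := fun m : ℕ => 1 / (m : ℝ) - 1 / ((m + 1 : ℕ) : ℝ))
      (fun m hm => unit_le hP hP1 m (by rw [Finset.mem_Ioc] at hm; omega))
    refine h1.trans ?_
    rw [sum_inv_diff A B hAB]
    have h2 : (0 : ℝ) ≤ 1 / ((B + 1 : ℕ) : ℝ) := by positivity
    have h3 : 1 / ((A + 1 : ℕ) : ℝ) ≤ 1 / (a * X) := one_div_le_one_div_of_le haX hA1c
    linarith
  have e3 : ‖∫ x in (a * X)..((A : ℝ) + 1), P x / (x : ℂ)‖ ≤ 1 / (a * X) := by
    have h1 := intervalIntegral.norm_integral_le_of_norm_le_const (a := a * X)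
      (b := (A : ℝ) + 1) (C := 1 / (a * X)) (f := fun x : ℝ => P x / (x : ℂ)) (by
        intro x hx
        rw [Set.uIoc_of_le hA1.le] at hx
        exact norm_div_le hP1 haX hx.1.le)
    refine h1.trans ?_
    rw [abs_of_nonneg (by linarith)]
    calc 1 / (a * X) * ((A : ℝ) + 1 - a * X) ≤ 1 / (a * X) * 1 :=
          mul_le_mul_of_nonneg_left (by linarith) (by positivity)
      _ = _ := mul_one _
  have e4 : ‖∫ x in (b * X)..((B : ℝ) + 1), P x / (x : ℂ)‖ ≤ 1 / (a * X) := by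
    have h1 := intervalIntegral.norm_integral_le_of_norm_le_const (a := b * X)
      (b := (B : ℝ) + 1) (C := 1 / (a * X)) (f := fun x : ℝ => P x / (x : ℂ)) (by
        intro x hx
        rw [Set.uIoc_of_le hB1.le] at hx
        exact norm_div_le hP1 haX (by linarith [hx.1]))
    refine h1.trans ?_
    rw [abs_of_nonneg (by linarith)]
    calc 1 / (a * X) * ((B : ℝ) + 1 - b * X) ≤ 1 / (a * X) * 1 :=
          mul_le_mul_of_nonneg_left (by linarith) (by positivity)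
      _ = _ := mul_one _
  refine (norm_add_le _ _).trans ?_
  refine (add_le_add ((norm_sub_le _ _).trans (add_le_add (norm_add_le _ _) le_rfl)) le_rfl).trans
    ?_
  refine (add_le_add (add_le_add (add_le_add e1 e2) e3) e4).trans (le_of_eq ?_)
  ring

include hP hP1 in
/-- from natural weights to logarithmic weights -/
theorem log_of_nat (hE : ∀ η : ℝ, 0 < η → ∃ C : ℝ, ∀ N : ℕ,
      ‖∑ m ∈ range N, dfc P m‖ ≤ η * N + C) {a b : ℝ} (ha : 0 < a) (hab : a < b) :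
    Tendsto (fun X : ℝ => (∑ m ∈ win (a * X) (b * X), P m / (m : ℂ)) -
      ∫ x in (a * X)..(b * X), P x / (x : ℂ)) atTop (𝓝 0) := by
  rw [Metric.tendsto_atTop]
  intro ε hε
  have hb : 0 < b := ha.trans hab
  obtain ⟨C, hC⟩ := hE (ε * a / (4 * b)) (by positivity)
  set η := ε * a / (4 * b) with hη
  have hη0 : 0 < η := by positivity
  refine ⟨max 1 ((2 * (η + |C|) + 3 + 1) / (ε * a / 2)), fun X hX => ?_⟩
  have hX1 : 1 ≤ X := (le_max_left _ _).trans hX
  have hX0 : 0 < X := by linarith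
  have hX2 : (2 * (η + |C|) + 3 + 1) ≤ X * (ε * a / 2) :=
    (div_le_iff₀ (by positivity)).1 ((le_max_right _ _).trans hX)
  rw [dist_zero_right]
  have hbX0 : 0 < b * X := mul_pos hb hX0
  have h1 := main_le hP hP1 (S := η * (b * X + 1) + |C|) ha hab hX0 (by
    intro N hN
    refine (hC N).trans ?_
    have h2 : (N : ℝ) ≤ b * X + 1 := by
      have h3 : (N : ℝ) ≤ (⌊b * X⌋₊ : ℝ) + 1 := by exact_mod_cast hN
      linarith [Nat.floor_le hbX0.le]
    have h4 := le_abs_self C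
    have h5 : η * N ≤ η * (b * X + 1) := mul_le_mul_of_nonneg_left h2 hη0.le
    linarith)
  refine lt_of_le_of_lt h1 ?_
  rw [div_lt_iff₀ (mul_pos ha hX0)]
  have h2 : η * b = ε * a / 4 := by
    rw [hη]
    field_simp
  have h3 : 2 * (η * (b * X + 1) + |C|) + 3 = 2 * (η * b) * X + (2 * (η + |C|) + 3) := by ring
  rw [h3, h2]
  nlinarith

end Pool.Agent.MOM.Dyn
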