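import Pool.Agent.MOM.Dyn.SPf

/-!
MOM/Dyn: the final statement of the dynamical part, (S) of /team-store/MOMO.md.
-/

set_option autoImplicit false

namespace Pool.Agent.MOM.Dyn

open MeasureTheory Filter Topology Set
open scoped ComplexConjugate

/-- **(S)** Sums over the integers and integrals of `f (h_{t₀ r x} z) conj (f (h_{t₀ r' x} z'))`
over intervals of length `L` agree up to `ε L`, uniformly in `z, z'`. -/
theorem sampling {Γ : Subgroup G} (hΓ : DiscreteTopology Γ)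
    (hneg : ∀ z : G, (z : Matrix (Fin 2) (Fin 2) ℝ) = -1 → z ∈ Γ) (hcpt : CompactSpace (G ⧸ Γ))
    {t₀ r r' : ℝ} (ht : t₀ ≠ 0) (hr : 0 < r) (hr' : 0 < r') {f : G ⧸ Γ → ℂ} (hf : Continuous f)
    {ε : ℝ} (hε : 0 < ε) :
    ∃ L0 : ℕ, ∀ L : ℕ, L0 ≤ L → ∀ z z' : G ⧸ Γ,
      ‖(∑ m ∈ Finset.range L, f (hh (t₀ * r * m) • z) * conj (f (hh (t₀ * r' * m) • z'))) -
        ∫ x in (0 : ℝ)..L, f (hh (t₀ * r * x) • z) * conj (f (hh (t₀ * r' * x) • z'))‖
        ≤ ε * L :=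
  samp_speed hneg ht hr hr' hf hε

end Pool.Agent.MOM.Dyn
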