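import Pool.Agent.MOM.Dyn.Fin2
import Pool.Agent.MOM.Dyn.Fin3
import Pool.Agent.MOM.Dyn.S

/-!
MOM/Dyn (MP_2b7f8f_an): the block function is sampled.
-/

set_option autoImplicit false

namespace Pool.Agent.MOM.Dyn

open MeasureTheory Filter Topology Finset
open scoped ComplexConjugate

section Windows

variable {P : ℝ → ℂ} (hP : Measurable P) (hP1 : ∀ x, ‖P x‖ ≤ 1)

include hP hP1 in
theorem sum_dfc (s L : ℕ) : ∑ j ∈ range L, dfc P (s + j) =
    (∑ j ∈ range L, P ((s : ℝ) + j)) - ∫ x in (s : ℝ)..(s : ℝ) + L, P x := by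
  induction L with
  | zero => simp
  | succ L ih =>
    rw [Finset.sum_range_succ, Finset.sum_range_succ, ih]
    unfold dfc
    have h1 := intervalIntegral.integral_add_adjacent_intervals (μ := volume) (f := P)
      (a := (s : ℝ)) (b := (s : ℝ) + L) (c := (s : ℝ) + L + 1)
      (intInt hP (C := 1) fun x _ => hP1 x) (intInt hP (C := 1) fun x _ => hP1 x)
    push_cast
    rw [show (s : ℝ) + ((L : ℝ) + 1) = (s : ℝ) + L + 1 by ring, ← h1]
    ring

include hP1 in
theorem norm_dfc_le (m : ℕ) : ‖dfc P m‖ ≤ 2 := by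
  unfold dfc
  refine (norm_sub_le _ _).trans ?_
  have h1 := intervalIntegral.norm_integral_le_of_norm_le_const (a := (m : ℝ))
    (b := (m : ℝ) + 1) (C := 1) (f := P) (fun x _ => hP1 x)
  rw [add_sub_cancel_left, abs_one, mul_one] at h1
  linarith [hP1 m]

include hP1 in
/-- cutting into windows of length `L` -/
theorem sum_windows {L : ℕ} (hL : 0 < L) {ε : ℝ} (hε : 0 ≤ ε) (bad : ℕ → Prop)
    [DecidablePred bad] (hgood : ∀ i, ¬ bad i → ‖∑ j ∈ range L, dfc P (L * i + j)‖ ≤ ε * L)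
    (N : ℕ) :
    ‖∑ m ∈ range N, dfc P m‖ ≤ ε * N + 2 * L * ((range (N / L)).filter bad).card + 2 * L := by
  have hLr : (0 : ℝ) < L := by exact_mod_cast hL
  have h1 : ∀ Q : ℕ, ‖∑ m ∈ range (L * Q), dfc P m‖ ≤
      ε * L * Q + 2 * L * ((range Q).filter bad).card := by
    intro Q
    induction Q with
    | zero => simp
    | succ Q ih =>
      rw [mul_add, mul_one, Finset.sum_range_add]
      refine (norm_add_le _ _).trans ?_
      by_cases hb : bad Q
      · have h2 : ‖∑ j ∈ range L, dfc P (L * Q + j)‖ ≤ 2 * L := by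
          refine (norm_sum_le_of_le _ fun j _ => norm_dfc_le hP1 (L * Q + j)).trans ?_
          rw [Finset.sum_const, card_range, nsmul_eq_mul]
          linarith
        rw [Finset.range_add_one, Finset.filter_insert, if_pos hb, card_insert_of_notMem
          (by simp)]
        push_cast
        have h3 : 0 ≤ ε * L := by positivity
        nlinarith
      · have h2 := hgood Q hb
        rw [Finset.range_add_one, Finset.filter_insert, if_neg hb]
        push_cast
        nlinarith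
  have h2 : N = L * (N / L) + N % L := (Nat.div_add_mod N L).symm
  have h3 : ‖∑ m ∈ range N, dfc P m‖ ≤ ‖∑ m ∈ range (L * (N / L)), dfc P m‖ + 2 * L := by
    conv_lhs => rw [h2]
    rw [Finset.sum_range_add]
    refine (norm_add_le _ _).trans (add_le_add le_rfl ?_)
    refine (norm_sum_le_of_le _ fun j _ => norm_dfc_le hP1 (L * (N / L) + j)).trans ?_
    rw [Finset.sum_const, card_range, nsmul_eq_mul]
    have h4 : ((N % L : ℕ) : ℝ) ≤ L := by exact_mod_cast (Nat.mod_lt N hL).le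
    linarith
  refine h3.trans ?_
  have h5 := h1 (N / L)
  have h6 : (L : ℝ) * ((N / L : ℕ) : ℝ) ≤ N := by
    exact_mod_cast (by omega : L * (N / L) ≤ N)
  have h7 : ε * L * ((N / L : ℕ) : ℝ) ≤ ε * N := by
    rw [mul_assoc]
    exact mul_le_mul_of_nonneg_left h6 hε
  linarith

end Windows

/-- the windows which contain the point `b k / r` for some `k ≥ 1` -/
def edge (b : ℕ → ℕ) (r : ℝ) (L i : ℕ) : Prop :=
  ∃ k, 1 ≤ k ∧ r * (L * i : ℕ) < b k ∧ (b k : ℝ) ≤ r * ((L * i : ℕ) + L)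

open scoped Classical in
theorem card_edge {b : ℕ → ℕ} (hb : StrictMono b)
    (hg : Tendsto (fun k : ℕ => b (k + 1) - b k) atTop atTop) {r : ℝ} (hr : 0 < r) {L : ℕ}
    {η : ℝ} (hη : 0 < η) :
    ∃ C : ℝ, ∀ N : ℕ, (((range (N / L)).filter (edge b r L)).card : ℝ) ≤ η * N + C := by
  obtain ⟨C, hC⟩ := card_ends hb hg (η := η / r) (by positivity)
  refine ⟨C, fun N => ?_⟩
  have hex : ∀ i ∈ (range (N / L)).filter (edge b r L), ∃ k : ℕ,
      r * (L * i : ℕ) < b k ∧ (b k : ℝ) ≤ r * ((L * i : ℕ) + L) := by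
    intro i hi
    rw [mem_filter] at hi
    obtain ⟨k, _, h1, h2⟩ := hi.2
    exact ⟨k, h1, h2⟩
  choose! κ hκ1 hκ2 using hex
  set S := (range (N / L)).filter (edge b r L) with hS
  have hlt : ∀ i ∈ S, ∀ i' ∈ S, κ i = κ i' → ¬ i < i' := by
    intro i hi i' hi' h hlt
    have h1 := hκ2 i hi
    have h2 := hκ1 i' hi'
    rw [h] at h1
    have h3 : r * ((L * i : ℕ) + L) ≤ r * (L * i' : ℕ) := by
      refine mul_le_mul_of_nonneg_left ?_ hr.le
      have h4 : L * i + L ≤ L * i' := by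
        have : L * (i + 1) ≤ L * i' := Nat.mul_le_mul_left L hlt
        rw [mul_add, mul_one] at this
        exact this
      exact_mod_cast h4
    linarith
  have hinj : Set.InjOn κ S := by
    intro i hi i' hi' h
    have h1 := hlt i hi i' hi' h
    have h2 := hlt i' hi' i hi h.symm
    omega
  have hcard : S.card = (S.image κ).card := (card_image_of_injOn hinj).symm
  have h1 := hC (r * N) (by positivity) (S.image κ) (by
    intro k hk
    rw [mem_image] at hk
    obtain ⟨i, hi, rfl⟩ := hk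
    refine (hκ2 i hi).trans (mul_le_mul_of_nonneg_left ?_ hr.le)
    rw [hS, mem_filter, mem_range] at hi
    have h2 : L * i + L ≤ N := by
      have h3 : L * (i + 1) ≤ L * (N / L) := Nat.mul_le_mul_left L hi.1
      have h4 : L * (N / L) ≤ N := Nat.mul_div_le N L
      rw [mul_add, mul_one] at h3
      omega
    exact_mod_cast h2)
  rw [hcard]
  refine h1.trans (le_of_eq ?_)
  field_simp

section Main

variable {Γ : Subgroup G} {t₀ : ℝ} {b : ℕ → ℕ} {c : ℕ → ℂ} {y : ℕ → G ⧸ Γ} {f : G ⧸ Γ → ℂ}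

/-- in a window without block ends -/
theorem blk_window (hb0 : b 0 = 0) (hb : StrictMono b) {r : ℝ} (hr : 0 < r) {L i : ℕ}
    (hi : ¬ edge b r L i) {x : ℝ} (hx0 : 0 ≤ x) (hx1 : x ≤ L) :
    blk t₀ b c y f (r * ((L * i : ℕ) + x)) = c (idx b (r * (L * i : ℕ))) *
      f (hh (t₀ * r * x) • (hh (t₀ * (r * (L * i : ℕ) - b (idx b (r * (L * i : ℕ))))) •
        y (idx b (r * (L * i : ℕ))))) := by
  have h1 : idx b (r * (L * i : ℕ)) = idx b (r * ((L * i : ℕ) + x)) := by
    refine idx_eq_of_no_edge hb0 hb (mul_le_mul_of_nonneg_left (by linarith) hr.le) ?_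
    rintro k hk ⟨h1, h2⟩
    refine hi ⟨k, hk, h1, h2.trans (mul_le_mul_of_nonneg_left (by linarith) hr.le)⟩
  unfold blk
  rw [← h1, smul_smul, ← hh_add]
  congr 4
  ring

theorem norm_conj_mul_le {u v : ℂ} (hu : ‖u‖ ≤ 1) (hv : ‖v‖ ≤ 1) : ‖u * conj v‖ ≤ 1 := by
  rw [norm_mul, Complex.norm_conj]
  exact mul_le_one₀ hu (norm_nonneg _) hv

open scoped Classical in
theorem blk_nat (hΓ : DiscreteTopology Γ)
    (hneg : ∀ z : G, (z : Matrix (Fin 2) (Fin 2) ℝ) = -1 → z ∈ Γ) (hcpt : CompactSpace (G ⧸ Γ))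
    (ht : t₀ ≠ 0) (hb0 : b 0 = 0) (hb : StrictMono b)
    (hg : Tendsto (fun k : ℕ => b (k + 1) - b k) atTop atTop) (hc : ∀ k, ‖c k‖ ≤ 1)
    (hf : Continuous f) (hf1 : ∀ z, ‖f z‖ ≤ 1) {r r' : ℝ} (hr : 0 < r) (hr' : 0 < r') {η : ℝ}
    (hη : 0 < η) :
    ∃ C : ℝ, ∀ N : ℕ, ‖∑ m ∈ range N,
      dfc (fun x => blk t₀ b c y f (r * x) * conj (blk t₀ b c y f (r' * x))) m‖ ≤ η * N + C := by
  obtain ⟨L0, hL0⟩ := sampling hΓ hneg hcpt ht hr hr' hf (ε := η / 2) (by positivity)
  set L := max L0 1 with hLdef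
  have hL : 0 < L := lt_of_lt_of_le one_pos (le_max_right _ _)
  have hLr : (0 : ℝ) < L := by exact_mod_cast hL
  obtain ⟨C₁, hC₁⟩ := card_edge hb hg hr (L := L) (η := η / (8 * L)) (by positivity)
  obtain ⟨C₂, hC₂⟩ := card_edge hb hg hr' (L := L) (η := η / (8 * L)) (by positivity)
  set P : ℝ → ℂ := fun x => blk t₀ b c y f (r * x) * conj (blk t₀ b c y f (r' * x)) with hPdef
  have hm := measurable_blk (t₀ := t₀) (c := c) (y := y) hb0 hb hf
  have hPm : Measurable P := by
    refine (hm.comp (measurable_const_mul r)).mul ?_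
    exact (Complex.continuous_conj.measurable).comp (hm.comp (measurable_const_mul r'))
  have hP1 : ∀ x, ‖P x‖ ≤ 1 := fun x =>
    norm_conj_mul_le (norm_blk_le hc hf1 _) (norm_blk_le hc hf1 _)
  refine ⟨2 * L * (C₁ + C₂) + 2 * L, fun N => ?_⟩
  have hgood : ∀ i, ¬ (edge b r L i ∨ edge b r' L i) →
      ‖∑ j ∈ range L, dfc P (L * i + j)‖ ≤ η / 2 * L := by
    intro i hi
    rw [not_or] at hi
    rw [sum_dfc hPm hP1]
    set K := idx b (r * (L * i : ℕ)) with hK
    set K' := idx b (r' * (L * i : ℕ)) with hK'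
    set z := hh (t₀ * (r * (L * i : ℕ) - b K)) • y K with hz
    set z' := hh (t₀ * (r' * (L * i : ℕ) - b K')) • y K' with hz'
    have hpt : ∀ x : ℝ, 0 ≤ x → x ≤ L → P (((L * i : ℕ) : ℝ) + x) =
        (c K * conj (c K')) * (f (hh (t₀ * r * x) • z) * conj (f (hh (t₀ * r' * x) • z'))) := by
      intro x h1 h2
      rw [hPdef]
      simp only
      rw [blk_window hb0 hb hr hi.1 h1 h2, blk_window hb0 hb hr' hi.2 h1 h2, map_mul]
      ring
    have hs : ∑ j ∈ range L, P (((L * i : ℕ) : ℝ) + j) = (c K * conj (c K')) *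
        ∑ j ∈ range L, f (hh (t₀ * r * j) • z) * conj (f (hh (t₀ * r' * j) • z')) := by
      rw [Finset.mul_sum]
      refine Finset.sum_congr rfl fun j hj => ?_
      rw [Finset.mem_range] at hj
      exact hpt j (Nat.cast_nonneg _) (by exact_mod_cast hj.le)
    have hI : ∫ x in ((L * i : ℕ) : ℝ)..((L * i : ℕ) : ℝ) + L, P x = (c K * conj (c K')) *
        ∫ x in (0 : ℝ)..L, f (hh (t₀ * r * x) • z) * conj (f (hh (t₀ * r' * x) • z')) := by
      have h1 := intervalIntegral.integral_comp_add_left (a := (0 : ℝ)) (b := (L : ℝ)) P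
        ((L * i : ℕ) : ℝ)
      rw [add_zero] at h1
      rw [← h1, ← intervalIntegral.integral_const_mul]
      refine intervalIntegral.integral_congr fun x hx => ?_
      rw [Set.uIcc_of_le hLr.le] at hx
      exact hpt x hx.1 hx.2
    rw [hs, hI, ← mul_sub, norm_mul]
    have h1 := hL0 L (le_max_left _ _) z z'
    have h2 : ‖c K * conj (c K')‖ ≤ 1 := norm_conj_mul_le (hc _) (hc _)
    calc _ ≤ 1 * (η / 2 * L) := mul_le_mul h2 h1 (norm_nonneg _) zero_le_one
      _ = _ := one_mul _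
  have h1 := sum_windows hP1 hL (ε := η / 2) (by positivity)
    (fun i => edge b r L i ∨ edge b r' L i) hgood N
  have h2 : (((range (N / L)).filter (fun i => edge b r L i ∨ edge b r' L i)).card : ℝ) ≤
      (η / (8 * L) * N + C₁) + (η / (8 * L) * N + C₂) := by
    rw [Finset.filter_or]
    have h3 := card_union_le ((range (N / L)).filter (edge b r L))
      ((range (N / L)).filter (edge b r' L))
    have h4 : ((((range (N / L)).filter (edge b r L)) ∪
      ((range (N / L)).filter (edge b r' L))).card : ℝ) ≤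
      ((range (N / L)).filter (edge b r L)).card + ((range (N / L)).filter (edge b r' L)).card := by
      exact_mod_cast h3
    linarith [hC₁ N, hC₂ N]
  refine h1.trans ?_
  have h3 : 2 * (L : ℝ) * ((range (N / L)).filter
      (fun i => edge b r L i ∨ edge b r' L i)).card ≤
      2 * L * ((η / (8 * L) * N + C₁) + (η / (8 * L) * N + C₂)) :=
    mul_le_mul_of_nonneg_left h2 (by positivity)
  have h4 : 2 * (L : ℝ) * ((η / (8 * L) * N + C₁) + (η / (8 * L) * N + C₂)) =
      η / 2 * N + 2 * L * (C₁ + C₂) := by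
    field_simp
    ring
  linarith

/-- **the block function is sampled** -/
theorem sampled_blk (hΓ : DiscreteTopology Γ)
    (hneg : ∀ z : G, (z : Matrix (Fin 2) (Fin 2) ℝ) = -1 → z ∈ Γ) (hcpt : CompactSpace (G ⧸ Γ))
    (ht : t₀ ≠ 0) (hb0 : b 0 = 0) (hb : StrictMono b)
    (hg : Tendsto (fun k : ℕ => b (k + 1) - b k) atTop atTop) (hc : ∀ k, ‖c k‖ ≤ 1)
    (hf : Continuous f) (hf1 : ∀ z, ‖f z‖ ≤ 1) : Sampled (blk t₀ b c y f) where
  meas := measurable_blk hb0 hb hf
  bdd := norm_blk_le hc hf1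
  cont := fun ε hε => blk_cont hcpt ht hb0 hb hg hc hf ε hε
  samp := by
    intro r r' a b' hr hr' ha hab
    have hm := measurable_blk (t₀ := t₀) (c := c) (y := y) hb0 hb hf
    refine log_of_nat (P := fun x => blk t₀ b c y f (r * x) * conj (blk t₀ b c y f (r' * x)))
      ?_ ?_ ?_ ha hab
    · refine (hm.comp (measurable_const_mul r)).mul ?_
      exact (Complex.continuous_conj.measurable).comp (hm.comp (measurable_const_mul r'))
    · exact fun x => norm_conj_mul_le (norm_blk_le hc hf1 _) (norm_blk_le hc hf1 _)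
    · exact fun η hη => blk_nat hΓ hneg hcpt ht hb0 hb hg hc hf hf1 hr hr' hη

end Main

end Pool.Agent.MOM.Dyn
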