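import Pool.Agent.MOM.ThmN
import Pool.Agent.MOM.Dyn.Fin4

/-!
MOM/Dyn (MP_2b7f8f_an): from logarithmic windows to natural averages, and the final theorem.
-/

set_option autoImplicit false

namespace Pool.Agent.MOM.Dyn

open MeasureTheory Filter Topology Finset
open scoped ComplexConjugate

section Averages

/-- the summatory function -/
noncomputable def TT (F : ℝ → ℂ) (X : ℝ) : ℂ := ∑ n ∈ Finset.Ioc 0 ⌊X⌋₊, mu n * F n

variable {F : ℝ → ℂ} (hF : ∀ x, ‖F x‖ ≤ 1)

include hF in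
theorem norm_term_le (n : ℕ) : ‖mu n * F n‖ ≤ 1 := by
  rw [norm_mul]
  exact mul_le_one₀ (norm_mu_le n) (norm_nonneg _) (hF _)

include hF in
theorem norm_TT_le {X : ℝ} (hX : 0 ≤ X) : ‖TT F X‖ ≤ X := by
  unfold TT
  refine (norm_sum_le_of_le _ fun n _ => norm_term_le hF n).trans ?_
  rw [Finset.sum_const, Nat.card_Ioc, Nat.sub_zero, nsmul_eq_mul, mul_one]
  exact Nat.floor_le hX

theorem TT_split {lam X : ℝ} (hl : 1 ≤ lam) (hX : 0 ≤ X) :
    TT F (lam * X) = TT F X + ∑ n ∈ win X (lam * X), mu n * F n := by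
  unfold TT win
  have h1 : ⌊X⌋₊ ≤ ⌊lam * X⌋₊ := Nat.floor_mono (by nlinarith)
  have h2 := Finset.sum_Ioc_consecutive (fun n : ℕ => mu n * F n) (Nat.zero_le ⌊X⌋₊) h1
  rw [h2]

include hF in
theorem win_le {lam X : ℝ} (hl : 1 < lam) (hX : 0 < X) :
    ‖∑ n ∈ win X (lam * X), mu n * F n‖ ≤
      X * ‖∑ n ∈ win X (lam * X), mu n * F n / (n : ℂ)‖ +
      (lam - 1) * ((lam - 1) * X + 1) := by
  have h1 : ∑ n ∈ win X (lam * X), mu n * F n =
      (X : ℂ) * (∑ n ∈ win X (lam * X), mu n * F n / (n : ℂ)) +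
      ∑ n ∈ win X (lam * X), mu n * F n * ((1 - X / n : ℝ) : ℂ) := by
    rw [Finset.mul_sum, ← Finset.sum_add_distrib]
    refine Finset.sum_congr rfl fun n hn => ?_
    push_cast
    ring
  have h2 : ‖∑ n ∈ win X (lam * X), mu n * F n * ((1 - X / n : ℝ) : ℂ)‖ ≤
      (lam - 1) * ((lam - 1) * X + 1) := by
    have h3 : ∀ n ∈ win X (lam * X), ‖mu n * F n * ((1 - X / n : ℝ) : ℂ)‖ ≤ lam - 1 := by
      intro n hn
      rw [mem_win hX.le] at hn
      have hn0 : (0 : ℝ) < n := hX.trans hn.1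
      rw [norm_mul, Complex.norm_real]
      have h4 : 0 ≤ 1 - X / n := by
        rw [sub_nonneg, div_le_one hn0]
        exact hn.1.le
      rw [Real.norm_of_nonneg h4]
      have h5 : 1 - X / n ≤ lam - 1 := by
        have h6 : 1 / lam ≤ X / n := by
          rw [div_le_div_iff₀ (by linarith) hn0]
          linarith [hn.2]
        have h7 : 2 - lam ≤ 1 / lam := by
          rw [le_div_iff₀ (by linarith)]
          nlinarith [sq_nonneg (lam - 1)]
        linarith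
      calc ‖mu n * F n‖ * (1 - X / n) ≤ 1 * (lam - 1) :=
            mul_le_mul (norm_term_le hF n) h5 h4 zero_le_one
        _ = _ := one_mul _
    refine (norm_sum_le_of_le _ h3).trans ?_
    rw [Finset.sum_const, nsmul_eq_mul, mul_comm]
    refine mul_le_mul_of_nonneg_left ?_ (by linarith)
    unfold win
    rw [Nat.card_Ioc]
    have h4 : ⌊X⌋₊ ≤ ⌊lam * X⌋₊ := Nat.floor_mono (by nlinarith)
    rw [Nat.cast_sub h4]
    have h5 := Nat.floor_le (a := lam * X) (by nlinarith)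
    have h6 := Nat.lt_floor_add_one X
    linarith
  rw [h1]
  refine (norm_add_le _ _).trans (add_le_add ?_ h2)
  rw [norm_mul, Complex.norm_real, Real.norm_of_nonneg hX.le]

include hF in
theorem TT_iter {lam X₀ g : ℝ} (hl : 1 < lam) (hX₀ : 0 < X₀) (hg : 0 ≤ g)
    (h : ∀ X, X₀ ≤ X → ‖TT F (lam * X)‖ ≤ ‖TT F X‖ + g * X) (n : ℕ) :
    ∀ X, X₀ ≤ X → X ≤ lam ^ n * X₀ → ‖TT F X‖ ≤ lam * X₀ + g / (lam - 1) * X := by
  have hl0 : 0 < lam := by linarith
  have hl1 : 0 < lam - 1 := by linarith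
  induction n with
  | zero =>
    intro X h1 h2
    rw [pow_zero, one_mul] at h2
    have h3 := norm_TT_le hF (hX₀.le.trans h1)
    have h4 : 0 ≤ g / (lam - 1) * X := mul_nonneg (div_nonneg hg hl1.le) (hX₀.le.trans h1)
    nlinarith
  | succ n ih =>
    intro X h1 h2
    have hX : 0 < X := lt_of_lt_of_le hX₀ h1
    by_cases h3 : X ≤ lam * X₀
    · have h4 := norm_TT_le hF hX.le
      have h5 : 0 ≤ g / (lam - 1) * X := mul_nonneg (div_nonneg hg hl1.le) hX.le
      linarith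
    · push Not at h3
      have h4 : X₀ ≤ X / lam := by
        rw [le_div_iff₀ hl0]
        linarith
      have h5 : X / lam ≤ lam ^ n * X₀ := by
        rw [div_le_iff₀ hl0]
        rw [pow_succ] at h2
        linarith
      have h6 := ih _ h4 h5
      have h7 := h _ h4
      rw [mul_div_cancel₀ _ hl0.ne'] at h7
      have h8 : g / (lam - 1) * (X / lam) + g * (X / lam) = g / (lam - 1) * X := by
        field_simp
        ring
      linarith

include hF in
/-- from logarithmic windows to natural averages -/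
theorem nat_of_log (hL : ∀ lam : ℝ, 1 < lam → lam ≤ 2 →
      Tendsto (fun X : ℝ => ∑ n ∈ win X (lam * X), mu n * F n / (n : ℂ)) atTop (𝓝 0)) :
    Tendsto (fun N : ℕ => (1 / (N : ℝ)) * ‖∑ n ∈ range N, mu n * F n‖) atTop (𝓝 0) := by
  rw [Metric.tendsto_atTop]
  intro ε hε
  set e := min (ε / 8) 1 with he
  have he0 : 0 < e := lt_min (by positivity) one_pos
  have he1 : e ≤ 1 := min_le_right _ _
  have he2 : e ≤ ε / 8 := min_le_left _ _
  set lam := 1 + e with hlam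
  have hl : 1 < lam := by linarith
  have h1 := hL lam hl (by linarith)
  rw [Metric.tendsto_atTop] at h1
  obtain ⟨X₁, hX₁⟩ := h1 (e ^ 2) (by positivity)
  set X₀ := max X₁ (1 / e) with hX₀
  have hX₀pos : 0 < X₀ := lt_of_lt_of_le (by positivity) (le_max_right _ _)
  have hstep : ∀ X, X₀ ≤ X → ‖TT F (lam * X)‖ ≤ ‖TT F X‖ + 3 * e ^ 2 * X := by
    intro X hX
    have hXpos : 0 < X := lt_of_lt_of_le hX₀pos hX
    rw [TT_split hl.le hXpos.le]
    refine (norm_add_le _ _).trans (add_le_add le_rfl ?_)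
    refine (win_le hF hl hXpos).trans ?_
    have h2 := hX₁ X ((le_max_left _ _).trans hX)
    rw [dist_zero_right] at h2
    have h3 : 1 / e ≤ X := (le_max_right _ _).trans hX
    have h4 : 1 ≤ X * e := (div_le_iff₀ he0).1 h3
    have h5 : lam - 1 = e := by rw [hlam]; ring
    rw [h5]
    nlinarith
  have hiter := TT_iter hF hl hX₀pos (by positivity) hstep
  have hall : ∀ X, X₀ ≤ X → ‖TT F X‖ ≤ lam * X₀ + 3 * e * X := by
    intro X hX
    obtain ⟨n, hn⟩ := pow_unbounded_of_one_lt (X / X₀) hl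
    have h2 := hiter n X hX (by
      rw [div_lt_iff₀ hX₀pos] at hn
      exact hn.le)
    have h5 : lam - 1 = e := by rw [hlam]; ring
    rw [h5] at h2
    have h6 : 3 * e ^ 2 / e = 3 * e := by
      field_simp
    rw [h6] at h2
    exact h2
  obtain ⟨N₀, hN₀⟩ := exists_nat_gt (max (X₀ + 1) ((lam * X₀) / (ε / 8)))
  refine ⟨N₀ + 1, fun N hN => ?_⟩
  obtain ⟨M, rfl⟩ : ∃ M, N = M + 1 := ⟨N - 1, by omega⟩
  have hM : N₀ ≤ M := by omega
  have hMr : (N₀ : ℝ) ≤ M := by exact_mod_cast hM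
  have hM1 : X₀ + 1 ≤ M := ((le_max_left _ _).trans hN₀.le).trans hMr
  have hM2 : (lam * X₀) / (ε / 8) ≤ M := ((le_max_right _ _).trans hN₀.le).trans hMr
  rw [div_le_iff₀ (by positivity)] at hM2
  have h2 := hall M (by linarith)
  have h3 : ∑ n ∈ range (M + 1), mu n * F n = TT F M := by
    unfold TT
    rw [Nat.floor_natCast, Finset.range_eq_Ico, Finset.sum_eq_sum_Ico_succ_bot (by omega)]
    have h4 : mu 0 = 0 := by simp [mu]
    rw [h4, zero_mul, zero_add]
    rfl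
  have hMpos : (0 : ℝ) < ((M + 1 : ℕ) : ℝ) := by exact_mod_cast Nat.succ_pos M
  rw [h3, dist_zero_right, Real.norm_of_nonneg (by positivity), one_div, inv_mul_lt_iff₀ hMpos]
  push_cast
  have h5 : 3 * e * (M : ℝ) ≤ 3 * (ε / 8) * M :=
    mul_le_mul_of_nonneg_right (by linarith) (Nat.cast_nonneg _)
  have h6 : (0 : ℝ) ≤ M := Nat.cast_nonneg _
  nlinarith

end Averages

/-- a unimodular number which turns `z` to the positive real line -/
noncomputable def rot (z : ℂ) : ℂ := if z = 0 then 1 else conj z / (‖z‖ : ℂ)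

theorem norm_rot (z : ℂ) : ‖rot z‖ ≤ 1 := by
  unfold rot
  split_ifs with h
  · simp
  · rw [norm_div, Complex.norm_conj, Complex.norm_real, norm_norm, div_self (norm_ne_zero_iff.2 h)]

theorem rot_mul (z : ℂ) : rot z * z = (‖z‖ : ℂ) := by
  unfold rot
  split_ifs with h
  · simp [h]
  · have h1 : (‖z‖ : ℂ) ≠ 0 := by exact_mod_cast norm_ne_zero_iff.2 h
    rw [div_mul_eq_mul_div, mul_comm (conj z) z, Complex.mul_conj, Complex.normSq_eq_norm_sq,
      div_eq_iff h1]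
    push_cast
    ring

/-- the theorem for functions bounded by one -/
theorem momo_one {Γ : Subgroup G} (hΓ : DiscreteTopology Γ)
    (hneg : ∀ z : G, (z : Matrix (Fin 2) (Fin 2) ℝ) = -1 → z ∈ Γ) (hcpt : CompactSpace (G ⧸ Γ))
    {t₀ : ℝ} (ht : t₀ ≠ 0) {b : ℕ → ℕ} (hb0 : b 0 = 0) (hb : StrictMono b)
    (hg : Tendsto (fun k : ℕ => b (k + 1) - b k) atTop atTop) (y : ℕ → G ⧸ Γ)
    {f : G ⧸ Γ → ℂ} (hf : Continuous f) (hf1 : ∀ z, ‖f z‖ ≤ 1) :
    Tendsto (fun K : ℕ => (1 / (b K : ℝ)) * ∑ k ∈ range K,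
      ‖∑ n ∈ Finset.Ico (b k) (b (k + 1)), f (hh t₀ ^ (n - b k) • y k) * mu n‖) atTop (𝓝 0) := by
  set zz : ℕ → ℂ := fun k => ∑ n ∈ Finset.Ico (b k) (b (k + 1)),
    f (hh t₀ ^ (n - b k) • y k) * mu n with hzz
  set c : ℕ → ℂ := fun k => rot (zz k) with hcdef
  have hc : ∀ k, ‖c k‖ ≤ 1 := fun k => norm_rot _
  have hS := sampled_blk (y := y) hΓ hneg hcpt ht hb0 hb hg hc hf hf1
  have hN := nat_of_log hS.bdd fun lam h1 h2 => thmN hS h1 h2
  have hbT : Tendsto b atTop atTop := hb.tendsto_atTop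
  have hN2 := hN.comp hbT
  refine hN2.congr fun K => ?_
  rw [Function.comp_apply]
  congr 1
  have hblock : ∀ k, ∑ n ∈ Finset.Ico (b k) (b (k + 1)), mu n * blk t₀ b c y f n =
      (‖zz k‖ : ℂ) := by
    intro k
    rw [← rot_mul, hzz]
    simp only
    rw [Finset.mul_sum]
    refine Finset.sum_congr rfl fun n hn => ?_
    rw [Finset.mem_Ico] at hn
    have hi : idx b (n : ℝ) = k := idx_eq hb0 hb (by exact_mod_cast hn.1) (by exact_mod_cast hn.2)
    unfold blk
    rw [hi, hh_pow, Nat.cast_sub hn.1, mul_comm ((n : ℝ) - b k) t₀]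
    ring
  have hsum : ∀ K, ∑ n ∈ range (b K), mu n * blk t₀ b c y f n =
      ((∑ k ∈ range K, ‖zz k‖ : ℝ) : ℂ) := by
    intro K
    induction K with
    | zero => simp [hb0]
    | succ K ih =>
      rw [Finset.sum_range_succ, Complex.ofReal_add, ← ih, ← hblock K, Finset.range_eq_Ico,
        Finset.range_eq_Ico]
      exact (Finset.sum_Ico_consecutive _ (Nat.zero_le _) (hb (Nat.lt_succ_self K)).le).symm
  rw [hsum K, Complex.norm_real, Real.norm_of_nonneg (Finset.sum_nonneg fun _ _ => norm_nonneg _)]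

theorem final (Γ : Subgroup G) (hΓ : DiscreteTopology Γ)
    (hneg : ∀ z : G, (z : Matrix (Fin 2) (Fin 2) ℝ) = -1 → z ∈ Γ) (hcpt : CompactSpace (G ⧸ Γ))
    (t₀ : ℝ) (ht : t₀ ≠ 0) (u : G) (hu : (u : Matrix (Fin 2) (Fin 2) ℝ) = !![1, t₀; 0, 1])
    (b : ℕ → ℕ) (hb0 : b 0 = 0) (hb : StrictMono b)
    (hg : Tendsto (fun k : ℕ => b (k + 1) - b k) atTop atTop) (y : ℕ → G ⧸ Γ)
    (f : G ⧸ Γ → ℂ) (hf : Continuous f) :
    Tendsto (fun K : ℕ => (1 / (b K : ℝ)) * ∑ k ∈ range K,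
      ‖∑ n ∈ Finset.Ico (b k) (b (k + 1)),
        f ((u ^ (n - b k)) • y k) * ((ArithmeticFunction.moebius n : ℤ) : ℂ)‖) atTop (𝓝 0) := by
  have hu' : u = hh t₀ := Subtype.ext hu
  subst hu'
  obtain ⟨C, hC⟩ := (isCompact_range hf).isBounded.exists_norm_le
  set D : ℝ := |C| + 1 with hD
  have hD0 : 0 < D := by positivity
  have hDc : (D : ℂ) ≠ 0 := by exact_mod_cast hD0.ne'
  have hf1 : ∀ z, ‖f z / (D : ℂ)‖ ≤ 1 := by
    intro z
    rw [norm_div, Complex.norm_real, Real.norm_of_nonneg hD0.le, div_le_one hD0]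
    have h1 := hC (f z) (Set.mem_range_self z)
    have h2 := le_abs_self C
    linarith
  have h1 := momo_one hΓ hneg hcpt ht hb0 hb hg y (f := fun z => f z / (D : ℂ))
    (hf.div_const _) hf1
  have h2 := h1.const_mul D
  rw [mul_zero] at h2
  refine h2.congr fun K => ?_
  rw [mul_left_comm, Finset.mul_sum]
  congr 1
  refine Finset.sum_congr rfl fun k _ => ?_
  have h3 : ∑ n ∈ Finset.Ico (b k) (b (k + 1)), f (hh t₀ ^ (n - b k) • y k) / (D : ℂ) * mu n =
      (∑ n ∈ Finset.Ico (b k) (b (k + 1)), f (hh t₀ ^ (n - b k) • y k) * mu n) / (D : ℂ) := by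
    rw [Finset.sum_div]
    refine Finset.sum_congr rfl fun n _ => ?_
    ring
  rw [h3, norm_div, Complex.norm_real, Real.norm_of_nonneg hD0.le, mul_div_cancel₀ _ hD0.ne']
  rfl

end Pool.Agent.MOM.Dyn
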