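import Pool.Agent.MOM.Dyn.Top

/-!
MOM/Dyn/Free: (D1) small elements of `G` act freely, (D2) the horocycle flow has no periodic points.

PROOF of `free_small`. `Γ` discrete: there is an open `W ∋ 1` in `G` with `W ∩ Γ = {1}`. For
`x₀ ∈ G` the map `(g, x) ↦ x⁻¹ * g * x` is continuous and sends `(1, x₀)` to `1`, so
`x⁻¹ * g * x ∈ W` eventually for `(g, x) → (1, x₀)`. If moreover `g • (x : G ⧸ Γ) = x` then
`x⁻¹ * g * x ∈ Γ` (`QuotientGroup.eq`), so it is `1` and `g = 1`. Hence for every `z = ↑x₀`: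
`∀ᶠ (g, y) in 𝓝 (1, z)`, `g • y = y → g = 1` (the map `G × G → G × (G ⧸ Γ)` is open, or
`QuotientGroup.nhds_eq` and `Filter.prod_map`), and
`IsCompact.eventually_forall_of_forall_eventually` with `K = univ`.

PROOF of `no_periodic`. Let `V` be the neighbourhood of `free_small`. For `s : ℝ`,
`h_{e^{2s} t} • (a_s • z) = a_s • h_t • z = a_s • z` (`aa_mul_hh`). As `s → -∞`,
`hh (e^{2s} t) → hh 0 = 1` (`continuous_hh`), so it lies in `V` for some `s`, hence
`hh (e^{2s} t) = 1 = hh 0`, `e^{2s} t = 0`, `t = 0` (`hh_inj`).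
-/

set_option autoImplicit false

namespace Pool.Agent.MOM.Dyn

open MeasureTheory Filter Topology Set

variable {Γ : Subgroup G}

theorem free_small (Γ : Subgroup G) [DiscreteTopology Γ] [CompactSpace (G ⧸ Γ)] :
    ∃ V ∈ 𝓝 (1 : G), ∀ g ∈ V, ∀ z : G ⧸ Γ, g • z = z → g = 1 := by
  obtain ⟨W, hW, hW1⟩ : ∃ W ∈ 𝓝 (1 : G), ∀ g ∈ W, g ∈ Γ → g = 1 := by
    have h0 : IsOpen ({1} : Set Γ) := isOpen_discrete _
    rw [isOpen_induced_iff] at h0
    obtain ⟨U, hU, hU1⟩ := h0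
    refine ⟨U, hU.mem_nhds ?_, fun g hg hgΓ => ?_⟩
    · have h1 : (1 : Γ) ∈ (Subtype.val ⁻¹' U : Set Γ) := by rw [hU1]; exact rfl
      exact h1
    · have h1 : (⟨g, hgΓ⟩ : Γ) ∈ (Subtype.val ⁻¹' U : Set Γ) := hg
      rw [hU1] at h1
      exact congrArg Subtype.val h1
  have key : ∀ z ∈ (Set.univ : Set (G ⧸ Γ)), ∀ᶠ p : G × (G ⧸ Γ) in 𝓝 ((1 : G), z),
      p.1 • p.2 = p.2 → p.1 = 1 := by
    intro z _
    obtain ⟨x₀, rfl⟩ := QuotientGroup.mk_surjective z
    have hF : Continuous fun q : G × G => q.2⁻¹ * q.1 * q.2 := by fun_prop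
    have h1 : {q : G × G | q.2⁻¹ * q.1 * q.2 ∈ W} ∈ 𝓝 ((1 : G), x₀) := by
      apply hF.continuousAt.preimage_mem_nhds
      simpa using hW
    have h2 : IsOpenMap (Prod.map id (QuotientGroup.mk : G → G ⧸ Γ)) :=
      (IsOpenMap.id : IsOpenMap (id : G → G)).prodMap QuotientGroup.isOpenMap_coe
    have h3 := h2.image_mem_nhds h1
    refine Filter.mem_of_superset h3 ?_
    rintro _ ⟨⟨g, x⟩, hgx, rfl⟩ hfix
    have h4 : ((g * x : G) : G ⧸ Γ) = (x : G ⧸ Γ) := hfix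
    have h5 : x⁻¹ * (g * x) ∈ Γ := QuotientGroup.eq.1 h4.symm
    have h6 := hW1 _ hgx (by rw [mul_assoc]; exact h5)
    have h7 : x⁻¹ * g * x = 1 := h6
    change g = 1
    calc g = x * (x⁻¹ * g * x) * x⁻¹ := by group
      _ = 1 := by rw [h7]; group
  have h8 : ∀ᶠ g in 𝓝 (1 : G), ∀ z ∈ (Set.univ : Set (G ⧸ Γ)), g • z = z → g = 1 :=
    isCompact_univ.eventually_forall_of_forall_eventually
      (P := fun (g : G) (z : G ⧸ Γ) => g • z = z → g = 1) key
  exact ⟨_, h8, fun g hg z hz => hg z (Set.mem_univ z) hz⟩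

theorem no_periodic [DiscreteTopology Γ] [CompactSpace (G ⧸ Γ)] {t : ℝ} {z : G ⧸ Γ}
    (h : hh t • z = z) : t = 0 := by
  obtain ⟨V, hV, hV1⟩ := free_small Γ
  have h1 : Tendsto (fun s : ℝ => hh (Real.exp (2 * s) * t)) atBot (𝓝 1) := by
    have h2 : Tendsto (fun s : ℝ => Real.exp (2 * s) * t) atBot (𝓝 0) := by
      have h3 : Tendsto (fun s : ℝ => Real.exp (2 * s)) atBot (𝓝 0) :=
        Real.tendsto_exp_atBot.comp
          (Tendsto.const_mul_atBot (by norm_num) tendsto_id)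
      simpa using h3.mul_const t
    have h4 : Tendsto hh (𝓝 0) (𝓝 1) := by
      have h5 := continuous_hh.tendsto 0
      rwa [hh_zero] at h5
    exact h4.comp h2
  obtain ⟨s, hs⟩ := (h1.eventually hV).exists
  have h6 : hh (Real.exp (2 * s) * t) • (aa s • z) = aa s • z := by
    rw [← mul_smul, ← aa_mul_hh, mul_smul, h]
  have h7 := hV1 _ hs _ h6
  rw [← hh_zero] at h7
  have h8 := hh_inj h7
  rcases mul_eq_zero.1 h8 with h9 | h9
  · exact absurd h9 (Real.exp_pos _).ne'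
  · exact h9

theorem orbit_inj [DiscreteTopology Γ] [CompactSpace (G ⧸ Γ)] {s t : ℝ} {z : G ⧸ Γ}
    (h : hh s • z = hh t • z) : s = t := by
  have h1 : hh (s - t) • z = z := by
    rw [sub_eq_add_neg, add_comm, hh_add, mul_smul, h, ← mul_smul, ← hh_add, neg_add_cancel,
      hh_zero, one_smul]
  have h2 := no_periodic h1
  linarith

end Pool.Agent.MOM.Dyn
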