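import Pool.Agent.MOM.Dyn.TopC
import Pool.Agent.MOM.Dyn.Free
import Pool.Agent.MOM.Dyn.MeanDef

/-!
MOM/Dyn/FivePlaque: an invariant measure of `h_c` has transversal returns (part of (D5)).

PROOF of `five_plaque`. `nhds_mul` and `nhds_small` give `V ∈ 𝓝 1` with `u * w⁻¹ ∈ U` and
`|(u * w⁻¹) 0 1| < |c| / 3` for `u, w ∈ V`. `finite_cover V` gives a finite set `F`; since
`K2 ⊆ ⋃ y ∈ F, K2 ∩ {x | ∃ g ∈ V, x = g • y}` and `0 < ν K2`, one of these sets, `E`, has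
`ν E ≠ 0` (`measure_biUnion_finset_le`, subadditivity of the outer measure). Take `x ∈ E` and
`Pl = (fun s => hh s • x) '' Icc (-(|c|/3)) (|c|/3)`, a compact (hence closed, measurable) set. For
`x' = u • y`, `x = w • y` in `E`: `x' = (u * w⁻¹) • x ∈ K2`, so `u * w⁻¹ ∈ HH`, it is `hh s`
with `s = (u * w⁻¹) 0 1`, `|s| < |c|/3`; so `E ⊆ Pl` and `ν Pl ≠ 0`. Poincare recurrence
(`MeasurePreserving.exists_mem_iterate_mem`): there are `m ≠ 0` and `x₁ ∈ Pl` with `T^[m] x₁ ∈ Pl`,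
`T = hh c • ·`, i.e. (`iter_hh`) `hh (c * m) • hh s • x = hh s' • x`, `|s|, |s'| ≤ |c|/3`. By
`orbit_inj` `c * m + s = s'`, so `|c| ≤ |c| m ≤ 2 |c| / 3`, contradiction (`c ≠ 0`).
-/

set_option autoImplicit false

namespace Pool.Agent.MOM.Dyn

open MeasureTheory Filter Topology Set

variable {Γ : Subgroup G} [DiscreteTopology Γ] [CompactSpace (G ⧸ Γ)] [MeasurableSpace (G ⧸ Γ)]
  [BorelSpace (G ⧸ Γ)]

theorem five_plaque {c : ℝ} (hc : c ≠ 0) {ν : Measure (G ⧸ Γ)} [IsProbabilityMeasure ν]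
    (hT : MeasurePreserving (fun x : G ⧸ Γ => hh c • x) ν ν) {K2 : Set (G ⧸ Γ)}
    (hpos : 0 < ν K2) {U : Set G} (hU : U ∈ 𝓝 (1 : G))
    (h : ∀ x ∈ K2, ∀ g ∈ U, g • x ∈ K2 → g ∈ HH) : False := by
  have hc3 : 0 < |c| / 3 := by
    have := abs_pos.2 hc
    positivity
  obtain ⟨V, hV, hV1⟩ := nhds_mul (inter_mem hU (nhds_small hc3))
  obtain ⟨F, hF⟩ := finite_cover (Γ := Γ) hV
  have hT2 : T2Space (G ⧸ Γ) := inferInstance
  -- one of the pieces has positive measure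
  obtain ⟨y, hyF, hy⟩ : ∃ y ∈ F, ν (K2 ∩ {x | ∃ g ∈ V, x = g • y}) ≠ 0 := by
    by_contra hcon
    push Not at hcon
    have h1 : K2 ⊆ ⋃ y ∈ F, (K2 ∩ {x | ∃ g ∈ V, x = g • y}) := by
      intro x hx
      obtain ⟨y, hy, g, hg, hxg⟩ := hF x
      exact mem_iUnion₂.2 ⟨y, hy, hx, g, hg, hxg⟩
    have h2 : ν K2 ≤ ∑ y ∈ F, ν (K2 ∩ {x | ∃ g ∈ V, x = g • y}) :=
      (measure_mono h1).trans (measure_biUnion_finset_le F _)
    rw [Finset.sum_eq_zero hcon] at h2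
    exact absurd h2 (not_le.2 hpos)
  obtain ⟨x, hx⟩ : (K2 ∩ {x | ∃ g ∈ V, x = g • y}).Nonempty := by
    rw [nonempty_iff_ne_empty]
    intro he
    rw [he, measure_empty] at hy
    exact hy rfl
  obtain ⟨hxK, w, hw, hxw⟩ := hx
  set Pl : Set (G ⧸ Γ) := (fun s : ℝ => hh s • x) '' Icc (-(|c| / 3)) (|c| / 3) with hPl
  have hPc : IsCompact Pl := by
    refine isCompact_Icc.image ?_
    have hc1 : Continuous fun s : ℝ => (s, x) := continuous_id.prodMk continuous_const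
    have hc2 := (continuous_hh_smul Γ).comp hc1
    exact hc2
  have hPm : MeasurableSet Pl := hPc.isClosed.measurableSet
  have hsub : K2 ∩ {x | ∃ g ∈ V, x = g • y} ⊆ Pl := by
    rintro x' ⟨hx'K, u, hu, hx'u⟩
    have h1 : x' = (u * w⁻¹) • x := by
      rw [hx'u, hxw, mul_smul, inv_smul_smul]
    have h2 := hV1 u hu w hw
    obtain ⟨s, hs⟩ := h x hxK (u * w⁻¹) h2.1 (by rw [← h1]; exact hx'K)
    have h3 : |(u * w⁻¹) 0 1| < |c| / 3 := h2.2.2.1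
    rw [← hs, hh_01] at h3
    refine ⟨s, ⟨?_, ?_⟩, ?_⟩
    · exact (abs_lt.1 h3).1.le
    · exact (abs_lt.1 h3).2.le
    · change hh s • x = x'
      rw [hs, h1]
  have hPn : ν Pl ≠ 0 := fun h0 => hy (measure_mono_null hsub h0)
  obtain ⟨x₁, hx₁, m, hm, hmx⟩ := hT.exists_mem_iterate_mem hPm.nullMeasurableSet hPn
  obtain ⟨s, hs, rfl⟩ := hx₁
  obtain ⟨s', hs', hs''⟩ := hmx
  rw [iter_hh] at hs''
  have h4 : hh s' • x = hh (c * m + s) • x := by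
    rw [hh_add, mul_smul]
    exact hs''
  have h5 := orbit_inj h4
  have h6 : |c * m| ≤ |c| / 3 + |c| / 3 := by
    have h7 : c * m = s' - s := by linarith
    rw [h7, abs_le]
    constructor
    · linarith [hs.2, hs'.1]
    · linarith [hs.1, hs'.2]
  have h8 : (1 : ℝ) ≤ m := by
    exact_mod_cast Nat.one_le_iff_ne_zero.2 hm
  rw [abs_mul, abs_of_nonneg (by linarith : (0 : ℝ) ≤ m)] at h6
  nlinarith [abs_pos.2 hc]

end Pool.Agent.MOM.Dyn
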