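import Mathlib

/-!
MOM/Dyn/InvAll: the stabiliser of a measure under a flow is a closed subgroup.

PROOF of `inv_all`. `S = {t | ν.map (φ t) = ν}` is (the carrier of) an `AddSubgroup ℝ`: `0`:
`φ 0 = id`; sums: `φ (s + t) = φ s ∘ φ t`, `Measure.map_map` (all `φ t` are continuous, hence
measurable); `-s`: `ν = (ν.map (φ s)).map (φ (-s)) = ν.map (φ (-s))`. By `hsmall` (replace `s` by
`|s|`) and `AddSubgroup.dense_of_not_isolated_zero` it is dense. For a bounded continuous
`f : Z → ℝ` the function `t ↦ ∫ f (φ t z) dν` is continuous (dominated convergence,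
`continuous_of_dominated`, the constant bound `‖f‖`), and equals `∫ f dν` on `S`, hence everywhere
(`Continuous.ext_on`). `ext_of_forall_integral_eq_of_IsFiniteMeasure` and `integral_map`.
-/

set_option autoImplicit false

namespace Pool.Agent.MOM.Dyn

open MeasureTheory Filter Topology Set

theorem inv_all {Z : Type*} [TopologicalSpace Z] [CompactSpace Z] [T2Space Z]
    [SecondCountableTopology Z] [MeasurableSpace Z] [BorelSpace Z] {φ : ℝ → Z → Z}
    (hφ : Continuous fun p : ℝ × Z => φ p.1 p.2) (h0 : ∀ z, φ 0 z = z)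
    (hadd : ∀ s t z, φ (s + t) z = φ s (φ t z)) {ν : Measure Z} [IsProbabilityMeasure ν]
    (hsmall : ∀ ε : ℝ, 0 < ε → ∃ s : ℝ, s ≠ 0 ∧ |s| ≤ ε ∧ ν.map (φ s) = ν) (t : ℝ) :
    ν.map (φ t) = ν := by
  have hc : ∀ t, Continuous (φ t) := fun t => hφ.comp (continuous_const.prodMk continuous_id)
  have hm : ∀ t, Measurable (φ t) := fun t => (hc t).measurable
  have hid : ν.map (φ 0) = ν := by
    have h1 : φ 0 = id := funext h0
    rw [h1, Measure.map_id]
  have hcomp : ∀ s t, ν.map (φ (s + t)) = (ν.map (φ t)).map (φ s) := by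
    intro s t
    rw [Measure.map_map (hm s) (hm t)]
    congr 1
    exact funext (hadd s t)
  have hneg : ∀ s, ν.map (φ s) = ν → ν.map (φ (-s)) = ν := by
    intro s hs
    have h1 := hcomp (-s) s
    rw [neg_add_cancel, hid, hs] at h1
    exact h1.symm
  let S : AddSubgroup ℝ :=
    { carrier := {t | ν.map (φ t) = ν}
      zero_mem' := hid
      add_mem' := by
        intro a b ha hb
        show ν.map (φ (a + b)) = ν
        have ha' : ν.map (φ a) = ν := ha
        have hb' : ν.map (φ b) = ν := hb
        rw [hcomp, hb', ha']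
      neg_mem' := by
        intro a ha
        exact hneg a ha }
  have hdense : Dense (S : Set ℝ) := by
    refine AddSubgroup.dense_of_not_isolated_zero S fun ε hε => ?_
    obtain ⟨s, hs0, hs1, hs2⟩ := hsmall (ε / 2) (half_pos hε)
    rcases lt_or_gt_of_ne hs0 with h | h
    · refine ⟨-s, hneg s hs2, neg_pos.2 h, ?_⟩
      have h1 := neg_le_abs s
      linarith
    · refine ⟨s, hs2, h, ?_⟩
      have h1 := le_abs_self s
      linarith
  have : IsProbabilityMeasure (ν.map (φ t)) :=
    Measure.isProbabilityMeasure_map (hm t).aemeasurable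
  have hmet : TopologicalSpace.MetrizableSpace Z :=
    TopologicalSpace.metrizableSpace_of_t3_secondCountable Z
  refine ext_of_forall_integral_eq_of_IsFiniteMeasure fun f => ?_
  have hf : ∀ t, ∫ z, f z ∂(ν.map (φ t)) = ∫ z, f (φ t z) ∂ν := fun t =>
    integral_map (hm t).aemeasurable f.continuous.aestronglyMeasurable
  rw [hf]
  have hcont : Continuous fun t => ∫ z, f (φ t z) ∂ν := by
    refine continuous_of_dominated (bound := fun _ => ‖f‖) ?_ ?_ (integrable_const _) ?_
    · intro t
      exact (f.continuous.comp (hc t)).aestronglyMeasurable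
    · intro t
      exact Eventually.of_forall fun z => f.norm_coe_le_norm _
    · refine Eventually.of_forall fun z => ?_
      exact f.continuous.comp (hφ.comp (continuous_id.prodMk continuous_const))
  have hS : Set.EqOn (fun t => ∫ z, f (φ t z) ∂ν) (fun _ => ∫ z, f z ∂ν) (S : Set ℝ) := by
    intro s hs
    have hs' : ν.map (φ s) = ν := hs
    show ∫ z, f (φ s z) ∂ν = ∫ z, f z ∂ν
    rw [← hf, hs']
  exact congrFun (hcont.ext_on hdense continuous_const hS) t

end Pool.Agent.MOM.Dyn
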