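import Pool.Agent.MOM.Dyn.FiveRet
import Pool.Agent.MOM.Dyn.FivePlaque
import Pool.Agent.MOM.Dyn.InvAll

/-!
MOM/Dyn/Five: (D5), `h_c`-ergodic measures are invariant under the horocycle flow.

PROOF of `five_inv`. `erg_good` for `T = hh c • ·` (continuous) gives `K1, K2, Nk`. By `five_plaque`
(`K2` has positive measure: `9/10 < ν.real K2`) for every `U ∈ 𝓝 1` there are `x ∈ K2`, `g ∈ U`,
`g • x ∈ K2`, `g ∉ HH`. So `five_return` with `s0 = ε/3` gives `s ≠ 0`, `|s| ≤ ε` with
`ν.map (hh s • ·) = ν`. `inv_all` for `φ t x = hh t • x` (`continuous_hh_smul`, `hh_zero`,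
`hh_add`).

PROOF of `five_mean`. Let `ε > 0`, `T ≥ T0` as in `IsMean`, `T > 0`. `f` is bounded and continuous, so
`(t, x) ↦ f (hh t • x)` is integrable on `[0, T] × (G ⧸ Γ)` and by Fubini
(`intervalIntegral`/`integral_integral_swap`)
`∫ x, (∫ t in 0..T, f (hh t • x)) ∂ν = ∫ t in 0..T, (∫ x, f (hh t • x) ∂ν) = T * ∫ f dν`
(`integral_map`, `hν t`). Hence `|T ∫ f dν - m T| ≤ ε T`, so `|∫ f dν - m| ≤ ε` for every `ε > 0`.
-/

set_option autoImplicit false

namespace Pool.Agent.MOM.Dyn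

open MeasureTheory Filter Topology Set

variable {Γ : Subgroup G} [CompactSpace (G ⧸ Γ)] [MeasurableSpace (G ⧸ Γ)]
  [BorelSpace (G ⧸ Γ)]

theorem five_inv [DiscreteTopology Γ] {c : ℝ} (hc : c ≠ 0) {ν : Measure (G ⧸ Γ)}
    [IsProbabilityMeasure ν] (hν : Ergodic (fun x : G ⧸ Γ => hh c • x) ν) (t : ℝ) :
    ν.map (fun x => hh t • x) = ν := by
  classical
  haveI hcl : IsClosed (Γ : Set G) := Subgroup.isClosed_of_discrete
  haveI : T2Space (G ⧸ Γ) := inferInstance
  have hT : Continuous fun x : G ⧸ Γ => hh c • x := continuous_const_smul _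
  obtain ⟨K1, K2, Nk, hK1, _, _, hbig, _, hgen, hv⟩ := erg_good hT ν hν
  have hpos : 0 < ν K2 := by
    rw [pos_iff_ne_zero]
    intro h0
    rw [Measure.real, h0, ENNReal.toReal_zero] at hbig
    norm_num at hbig
  have hR : ∀ U ∈ 𝓝 (1 : G), ∃ x ∈ K2, ∃ g ∈ U, g ∉ HH ∧ g • x ∈ K2 := by
    intro U hU
    by_contra hcon
    refine five_plaque hc hν.toMeasurePreserving hpos hU (fun x hx g hg hgx => ?_)
    by_contra h
    exact hcon ⟨x, hx, g, hg, h, hgx⟩
  refine inv_all (φ := fun t x => hh t • x) (continuous_hh_smul Γ)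
    (fun z => by rw [hh_zero, one_smul]) (fun s t z => by rw [hh_add, mul_smul])
    (fun ε hε => ?_) t
  obtain ⟨s, hs, hs1, hs2⟩ := five_return hc hK1 hgen hv hR (s0 := ε / 3) (by positivity)
  exact ⟨s, hs, by linarith, hs2⟩

theorem five_mean {ν : Measure (G ⧸ Γ)} [IsProbabilityMeasure ν]
    (hν : ∀ t : ℝ, ν.map (fun x => hh t • x) = ν) {f : G ⧸ Γ → ℝ} (hf : Continuous f) {m : ℝ}
    (hm : IsMean f m) : ∫ x, f x ∂ν = m := by
  obtain ⟨C, hC⟩ := (isCompact_univ (X := G ⧸ Γ)).exists_bound_of_continuousOn hf.continuousOn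
  have key : ∀ ε : ℝ, 0 < ε → |(∫ x, f x ∂ν) - m| ≤ ε := by
    intro ε hε
    obtain ⟨T0, h0, h1⟩ := hm ε hε
    have hT0 : (0 : ℝ) ≤ T0 := h0.le
    have h2 := h1 T0 le_rfl
    have hcont : Continuous fun p : (G ⧸ Γ) × ℝ => f (hh p.2 • p.1) :=
      hf.comp ((continuous_hh.comp continuous_snd).smul continuous_fst)
    have hint : Integrable (Function.uncurry fun (x : G ⧸ Γ) (t : ℝ) => f (hh t • x))
        (ν.prod (volume.restrict (Ioc 0 T0))) := by
      haveI : IsFiniteMeasure (volume.restrict (Ioc (0 : ℝ) T0)) :=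
        ⟨by rw [Measure.restrict_apply_univ, Real.volume_Ioc]; exact ENNReal.ofReal_lt_top⟩
      refine Integrable.of_bound (hcont.aestronglyMeasurable) C ?_
      exact Eventually.of_forall fun p => hC _ (mem_univ _)
    have e1 : ∀ x : G ⧸ Γ, (∫ t in (0 : ℝ)..T0, f (hh t • x)) =
        ∫ t in Ioc (0 : ℝ) T0, f (hh t • x) := fun x => intervalIntegral.integral_of_le hT0
    have e2 : ∀ t : ℝ, ∫ x, f (hh t • x) ∂ν = ∫ x, f x ∂ν := by
      intro t
      have h3 : ∫ x, f x ∂(ν.map (fun x => hh t • x)) = ∫ x, f (hh t • x) ∂ν :=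
        integral_map (continuous_const_smul (hh t)).measurable.aemeasurable
          hf.aestronglyMeasurable
      rw [← h3, hν t]
    have e3 : ∫ x, (∫ t in (0 : ℝ)..T0, f (hh t • x)) ∂ν = T0 * ∫ x, f x ∂ν := by
      simp only [e1]
      rw [integral_integral_swap hint]
      simp only [e2]
      rw [integral_const, smul_eq_mul, measureReal_restrict_apply_univ, Real.volume_real_Ioc,
        sub_zero, max_eq_left hT0]
    have hF : Integrable (fun x : G ⧸ Γ => ∫ t in (0 : ℝ)..T0, f (hh t • x)) ν := by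
      simp only [e1]
      exact hint.integral_prod_left
    have e4 : ∫ x, ((∫ t in (0 : ℝ)..T0, f (hh t • x)) - m * T0) ∂ν =
        T0 * ((∫ x, f x ∂ν) - m) := by
      rw [integral_sub hF (integrable_const _), e3, integral_const, probReal_univ, one_smul]
      ring
    have h4 := norm_integral_le_of_norm_le_const (μ := ν)
      (f := fun x : G ⧸ Γ => (∫ t in (0 : ℝ)..T0, f (hh t • x)) - m * T0) (C := ε * T0)
      (Eventually.of_forall fun x => by rw [Real.norm_eq_abs]; exact h2 x)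
    rw [e4, probReal_univ, mul_one, Real.norm_eq_abs, abs_mul, abs_of_pos h0, mul_comm ε] at h4
    exact le_of_mul_le_mul_left h4 h0
  have h5 : |(∫ x, f x ∂ν) - m| ≤ 0 := le_of_forall_pos_le_add fun ε hε => by
    rw [zero_add]
    exact key ε hε
  have h6 := abs_nonpos_iff.1 h5
  linarith

end Pool.Agent.MOM.Dyn
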