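import Pool.Agent.MOM.Dyn.DriftTime
import Pool.Agent.MOM.Dyn.MeanDef
import Pool.Agent.MOM.Dyn.Erg.Main

/-!
MOM/Dyn/FiveRet: transversal returns of an ergodic measure of `h_c` give invariance under small
`h_s` (drift argument, part of (D5)).

PROOF of `five_close`. Suppose that `hh s • y ∉ K1` for all `y ∈ K1` and `s0/300 ≤ |s| ≤ 3 s0`. The set
`D` of all these `hh s • y` is compact (image of the compact set
`{s | s0/300 ≤ |s| ≤ 3 s0} ×ˢ K1`, `continuous_hh_smul`) and disjoint from the closed set `K1`, so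
`close_one` gives `U ∈ 𝓝 1` with `u • d ∉ K1` for `u ∈ U`, `d ∈ D`. `drift_time hc hs0 hU` gives `V`;
`hR V` gives `x ∈ K2`, `g ∈ V`, `g ∉ HH`, `g • x ∈ K2`, and `N` from `drift_time`. Let
`B = {n < N | T^[n] x ∉ K1} ∪ {n < N | T^[n] (g • x) ∉ K1}`: by `hv` (used for `x` and for `g • x`)
`20 * card ≤ N` for both sets, so `10 * B.card ≤ N`. We get `n < N`, `n ∉ B`, `s`, `u ∈ U` with
`hh (c n) * g = u * hh s * hh (c n)`. `y = T^[n] x = hh (c n) • x ∈ K1` (`iter_hh`), and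
`T^[n] (g • x) = hh (c n) • g • x = u • hh s • y` is in `K1`, contradiction.

PROOF of `five_return`: `five_close` gives `y, hh s • y ∈ K1`, both generic; `erg_inv` with
`S = hh s • ·`, which commutes with `hh c • ·` (`hh_comm`). `s ≠ 0` because `s0/300 ≤ |s|`.
-/

set_option autoImplicit false

namespace Pool.Agent.MOM.Dyn

open MeasureTheory Filter Topology Set

variable {Γ : Subgroup G} [DiscreteTopology Γ] [CompactSpace (G ⧸ Γ)]

open scoped Classical in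
theorem five_close {c : ℝ} (hc : c ≠ 0) {K1 K2 : Set (G ⧸ Γ)} (hK1 : IsCompact K1)
    (hv : ∀ z ∈ K2, ∀ N : ℕ, 20 * ((Finset.range N).filter fun n =>
      (fun x : G ⧸ Γ => hh c • x)^[n] z ∉ K1).card ≤ N)
    (hR : ∀ U ∈ 𝓝 (1 : G), ∃ x ∈ K2, ∃ g ∈ U, g ∉ HH ∧ g • x ∈ K2) {s0 : ℝ} (hs0 : 0 < s0) :
    ∃ y ∈ K1, ∃ s : ℝ, s0 / 300 ≤ |s| ∧ |s| ≤ 3 * s0 ∧ hh s • y ∈ K1 := by
  by_contra hcon
  push Not at hcon
  have hS : IsCompact {s : ℝ | s0 / 300 ≤ |s| ∧ |s| ≤ 3 * s0} := by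
    refine IsCompact.of_isClosed_subset (isCompact_Icc (a := -(3 * s0)) (b := 3 * s0)) ?_ ?_
    · exact (isClosed_le continuous_const continuous_abs).inter
        (isClosed_le continuous_abs continuous_const)
    · intro s hs
      exact abs_le.1 hs.2
  have hD : IsCompact ((fun p : ℝ × (G ⧸ Γ) => hh p.1 • p.2) ''
      ({s : ℝ | s0 / 300 ≤ |s| ∧ |s| ≤ 3 * s0} ×ˢ K1)) :=
    (hS.prod hK1).image (continuous_hh_smul Γ)
  obtain ⟨U, hU, h1⟩ := close_one hD hK1.isClosed (by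
    rintro _ ⟨⟨s, y⟩, ⟨hs, hy⟩, rfl⟩
    exact hcon y hy s hs.1 hs.2)
  obtain ⟨V, hV, h2⟩ := drift_time hc hs0 hU
  obtain ⟨x, hx, g, hg, hgH, hgx⟩ := hR V hV
  obtain ⟨N, hN, h3⟩ := h2 g hg hgH
  have e1 := hv x hx N
  have e2 := hv (g • x) hgx N
  set B1 := (Finset.range N).filter fun n => (fun x : G ⧸ Γ => hh c • x)^[n] x ∉ K1 with hB1
  set B2 := (Finset.range N).filter fun n => (fun x : G ⧸ Γ => hh c • x)^[n] (g • x) ∉ K1
    with hB2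
  obtain ⟨n, hn, hnB, s, hs1, hs2, u, hu, h4⟩ := h3 (B1 ∪ B2) (by
    have := Finset.card_union_le B1 B2
    omega)
  rw [Finset.mem_union, not_or] at hnB
  have h5 : (fun x : G ⧸ Γ => hh c • x)^[n] x ∈ K1 := by
    by_contra h
    exact hnB.1 (Finset.mem_filter.2 ⟨Finset.mem_range.2 hn, h⟩)
  have h6 : (fun x : G ⧸ Γ => hh c • x)^[n] (g • x) ∈ K1 := by
    by_contra h
    exact hnB.2 (Finset.mem_filter.2 ⟨Finset.mem_range.2 hn, h⟩)
  rw [iter_hh] at h5 h6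
  rw [← mul_smul, h4, mul_smul, mul_smul] at h6
  exact h1 u hu _ ⟨(s, hh (c * n) • x), ⟨⟨hs1, hs2⟩, h5⟩, rfl⟩ h6

open scoped Classical in
theorem five_return [MeasurableSpace (G ⧸ Γ)] [BorelSpace (G ⧸ Γ)] {c : ℝ} (hc : c ≠ 0)
    {ν : Measure (G ⧸ Γ)} [IsProbabilityMeasure ν] {K1 K2 : Set (G ⧸ Γ)} {Nk : ℕ → ℕ}
    (hK1 : IsCompact K1) (hg : ∀ z ∈ K1, Gen (fun x : G ⧸ Γ => hh c • x) ν Nk z)
    (hv : ∀ z ∈ K2, ∀ N : ℕ, 20 * ((Finset.range N).filter fun n =>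
      (fun x : G ⧸ Γ => hh c • x)^[n] z ∉ K1).card ≤ N)
    (hR : ∀ U ∈ 𝓝 (1 : G), ∃ x ∈ K2, ∃ g ∈ U, g ∉ HH ∧ g • x ∈ K2) {s0 : ℝ} (hs0 : 0 < s0) :
    ∃ s : ℝ, s ≠ 0 ∧ |s| ≤ 3 * s0 ∧ ν.map (fun x => hh s • x) = ν := by
  obtain ⟨y, hy, s, h1, h2, h3⟩ := five_close hc hK1 hv hR hs0
  refine ⟨s, ?_, h2, ?_⟩
  · rintro rfl
    rw [abs_zero] at h1
    linarith
  · refine erg_inv (T := fun x : G ⧸ Γ => hh c • x) (S := fun x : G ⧸ Γ => hh s • x)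
      (continuous_const_smul (hh s)) ?_ (hg y hy) (hg _ h3)
    intro z
    show hh s • hh c • z = hh c • hh s • z
    rw [← mul_smul, ← mul_smul, hh_comm]

end Pool.Agent.MOM.Dyn
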