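import Pool.Agent.MOM.Dyn.FlowD

/-!
MOM/Dyn/Flow: (D4) every continuous function has a uniform mean value for the horocycle flow.

PROOF of `ftau_lim`. `exists_bound`: `|f| ≤ M`. Let `A = {S | ∃ τ ≥ 0, ∀ x, ftau f τ x ≤ S}`:
`M ∈ A` and `-M` is a lower bound (`abs_ftau_le`; `G ⧸ Γ` is nonempty). `c = sInf A`.
Let `ε > 0`; `improve hneg hf ε` gives `η₀`, `s1`; `η = min η₀ ε`. There is `S ∈ A`,
`S < c + η/4`, with its `τ₁ ≥ 0`. For `σ` with `e^{2σ} ≥ 4 M / η` and all `x`: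
`ftau f (τ₁ + σ) x ≤ S + M / e^{2σ} ≤ c + η/2` by `ftau_add` (the integral of
`v ↦ ftau f τ₁ (hh v • aa σ • x) ≤ S` over `[0, e^{2σ}]` is `≤ S e^{2σ}`). So for all
`τ ≥ τ₂ = τ₁ + σ₀` (`σ₀ ≥ 0`): `ftau f τ x ≤ c + η/2 ≤ c + ε` for all `x`. If some `x0` had
`ftau f τ x0 < c - ε`, then `ftau f τ x0 ≤ (c + η/2) - ε`, so by `improve` with `S = c + η/2`
`ftau f (τ + s1) x ≤ c + η/2 - η₀ ≤ c - η/2` for all `x`, so `c - η/2 ∈ A`, contradiction to
`c = sInf A` (`csInf_le`).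
-/

set_option autoImplicit false

namespace Pool.Agent.MOM.Dyn

open MeasureTheory Filter Topology Set

variable {Γ : Subgroup G}

theorem ftau_lim [DiscreteTopology Γ] [CompactSpace (G ⧸ Γ)]
    (hneg : ∀ z : G, (z : Matrix (Fin 2) (Fin 2) ℝ) = -1 → z ∈ Γ) {f : G ⧸ Γ → ℝ}
    (hf : Continuous f) :
    ∃ c : ℝ, ∀ ε : ℝ, 0 < ε → ∃ τ0 : ℝ, ∀ τ : ℝ, τ0 ≤ τ → ∀ x, |ftau f τ x - c| ≤ ε := by
  obtain ⟨M, hM0, hM⟩ := exists_bound hf
  set A : Set ℝ := {S | ∃ τ : ℝ, 0 ≤ τ ∧ ∀ x : G ⧸ Γ, ftau f τ x ≤ S} with hA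
  have hAn : A.Nonempty :=
    ⟨M, 0, le_rfl, fun x => le_trans (le_abs_self _) (abs_ftau_le hM 0 x)⟩
  have hAb : BddBelow A := by
    refine ⟨-M, ?_⟩
    rintro S ⟨τ, _, hS⟩
    have h1 := hS ((1 : G) : G ⧸ Γ)
    have h2 := (abs_le.1 (abs_ftau_le hM τ ((1 : G) : G ⧸ Γ))).1
    linarith
  refine ⟨sInf A, fun ε hε => ?_⟩
  obtain ⟨η0, hη0, s1, hs1, himp⟩ := improve hneg hf hε
  set η : ℝ := min η0 ε with hη
  have hηpos : 0 < η := lt_min hη0 hε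
  have hη1 : η ≤ η0 := min_le_left _ _
  have hη2 : η ≤ ε := min_le_right _ _
  obtain ⟨S, ⟨τ1, hτ1, hSx⟩, hSc⟩ := exists_lt_of_csInf_lt hAn
    (show sInf A < sInf A + η / 4 by linarith)
  set σ0 : ℝ := 4 * M / η with hσ0
  have hσ0n : 0 ≤ σ0 := by positivity
  have hup : ∀ τ : ℝ, τ1 + σ0 ≤ τ → ∀ x : G ⧸ Γ, ftau f τ x ≤ sInf A + η / 2 := by
    intro τ hτ x
    obtain ⟨σ, rfl⟩ : ∃ σ, τ = τ1 + σ := ⟨τ - τ1, by ring⟩
    have hσ : σ0 ≤ σ := by linarith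
    set E : ℝ := Real.exp (2 * σ) with hE
    have hEpos : 0 < E := Real.exp_pos _
    have hE1 : 2 * σ + 1 ≤ E := Real.add_one_le_exp _
    have hE2 : 4 * M / η ≤ E := by
      have h0 : σ0 = 4 * M / η := hσ0
      linarith
    have hE3 : M ≤ η / 4 * E := by
      rw [div_le_iff₀ hηpos] at hE2
      linarith
    have h1 := (abs_le.1 (ftau_add hf hM τ1 σ x)).2
    have hcont : Continuous fun v : ℝ => ftau f τ1 (hh v • aa σ • x) :=
      (continuous_ftau hf τ1).comp (continuous_hh.smul continuous_const)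
    have h2 : (∫ v in (0 : ℝ)..E, ftau f τ1 (hh v • aa σ • x)) ≤
        ∫ v in (0 : ℝ)..E, S :=
      intervalIntegral.integral_mono_on hEpos.le (hcont.intervalIntegrable _ _)
        (continuous_const.intervalIntegrable _ _) (fun v _ => hSx _)
    rw [intervalIntegral.integral_const, smul_eq_mul, sub_zero] at h2
    have h3 : E * ftau f (τ1 + σ) x ≤ E * (S + η / 4) := by
      have h4 : E * (S + η / 4) = E * S + η / 4 * E := by ring
      rw [h4]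
      linarith
    have h5 := le_of_mul_le_mul_left h3 hEpos
    linarith
  refine ⟨τ1 + σ0, fun τ hτ x => ?_⟩
  have hux := hup τ hτ x
  rw [abs_le]
  refine ⟨?_, by linarith⟩
  by_contra hcon
  push Not at hcon
  have h0 : 0 ≤ τ := by linarith
  have h6 := himp τ (sInf A + η / 2) x h0 (hup τ hτ) (by linarith) s1 le_rfl
  have h7 : sInf A - η / 2 ∈ A :=
    ⟨τ + s1, by linarith, fun y => le_trans (h6 y) (by linarith)⟩
  have h8 := csInf_le hAb h7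
  linarith

theorem exists_mean [DiscreteTopology Γ] [CompactSpace (G ⧸ Γ)]
    (hneg : ∀ z : G, (z : Matrix (Fin 2) (Fin 2) ℝ) = -1 → z ∈ Γ) {f : G ⧸ Γ → ℝ}
    (hf : Continuous f) : ∃ c, IsMean f c := by
  obtain ⟨c, hc⟩ := ftau_lim hneg hf
  refine ⟨c, fun ε hε => ?_⟩
  obtain ⟨τ0, h0⟩ := hc ε hε
  refine ⟨Real.exp (2 * τ0), Real.exp_pos _, fun T hT x => ?_⟩
  have hTpos : 0 < T := lt_of_lt_of_le (Real.exp_pos _) hT
  have h1 : Real.exp (2 * (Real.log T / 2)) = T := by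
    rw [mul_div_cancel₀ _ (two_ne_zero), Real.exp_log hTpos]
  have h2 : τ0 ≤ Real.log T / 2 := by
    have h3 := Real.log_le_log (Real.exp_pos _) hT
    rw [Real.log_exp] at h3
    linarith
  have h4 := int_hh_eq f (Real.log T / 2) x
  rw [h1] at h4
  rw [h4]
  have h5 := h0 _ h2 (aa (-(Real.log T / 2)) • x)
  have h6 : T * ftau f (Real.log T / 2) (aa (-(Real.log T / 2)) • x) - c * T =
      T * (ftau f (Real.log T / 2) (aa (-(Real.log T / 2)) • x) - c) := by ring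
  rw [h6, abs_mul, abs_of_pos hTpos]
  nlinarith

end Pool.Agent.MOM.Dyn
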