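import Pool.Agent.MOM.Dyn.MinA

/-!
MOM/Dyn/MinD: (D3) all orbits of the horocycle flow are dense, uniformly.

PROOF of `dense_orbit`. `Y0 = closure (range fun t => hh t • z)` is closed, nonempty, invariant.
`exists_min` gives `Y ⊆ Y0`, `IsMin Y`; `min_A` and `pinv_univ` give `Y = univ`.

PROOF of `unif_dense`. `nhds_mul` gives `V` with `u * w⁻¹ ∈ U` for `u, w ∈ V`; `finite_cover V` gives
a finite set `F`. For `x₁ ∈ F` let `O` be the interior of `{y | ∃ u ∈ V, y = u • x₁}`, an open set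
containing `x₁`. By `dense_orbit` the open sets `{y | hh v • y ∈ O}`, `v : ℝ`, cover `G ⧸ Γ`;
by compactness finitely many `v` suffice, `|v| ≤ R(x₁)`. `R₁` = maximum over `F`. For `x = w • x₁`
and `y`: apply this to `hh R₁ • y`: there is `|v| ≤ R₁` with `hh v • hh R₁ • y = u • x₁ =
(u * w⁻¹) • x`. So `v + R₁ ∈ [0, 2 R₁]` and `R = 2 R₁ + 1`.
-/

set_option autoImplicit false

namespace Pool.Agent.MOM.Dyn

open MeasureTheory Filter Topology Set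

variable {Γ : Subgroup G}

theorem dense_orbit [DiscreteTopology Γ] [CompactSpace (G ⧸ Γ)]
    (hneg : ∀ z : G, (z : Matrix (Fin 2) (Fin 2) ℝ) = -1 → z ∈ Γ) (z : G ⧸ Γ) :
    Dense (range fun t : ℝ => hh t • z) := by
  have hi : ∀ t, ∀ y ∈ closure (range fun t : ℝ => hh t • z),
      hh t • y ∈ closure (range fun t : ℝ => hh t • z) := by
    intro t y hy
    have hc : Continuous fun y : G ⧸ Γ => hh t • y := continuous_const_smul (hh t)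
    have h1 : hh t • y ∈ closure ((fun y : G ⧸ Γ => hh t • y) '' (range fun t : ℝ => hh t • z)) :=
      mem_closure_image hc.continuousAt hy
    refine closure_mono ?_ h1
    rintro _ ⟨_, ⟨s, rfl⟩, rfl⟩
    exact ⟨t + s, by simp only [hh_add, mul_smul]⟩
  have hne : (closure (range fun t : ℝ => hh t • z)).Nonempty :=
    ⟨z, subset_closure ⟨(0 : ℝ), by simp only [hh_zero, one_smul]⟩⟩
  obtain ⟨Y, hYsub, hY⟩ := exists_min isClosed_closure hne hi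
  have hu : Y = univ :=
    pinv_univ hneg hY.closed hY.nonempty hY.inv (fun s y hy => min_A hY s hy)
  rw [dense_iff_closure_eq]
  exact eq_univ_of_univ_subset (hu ▸ hYsub)

private theorem minD_one [DiscreteTopology Γ] [CompactSpace (G ⧸ Γ)]
    (hneg : ∀ z : G, (z : Matrix (Fin 2) (Fin 2) ℝ) = -1 → z ∈ Γ) {V : Set G}
    (hV : V ∈ 𝓝 (1 : G)) (x₁ : G ⧸ Γ) :
    ∃ R : ℝ, 0 ≤ R ∧ ∀ y : G ⧸ Γ, ∃ v : ℝ, |v| ≤ R ∧ ∃ u ∈ V, hh v • y = u • x₁ := by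
  have hO : IsOpen (interior {y : G ⧸ Γ | ∃ g ∈ V, y = g • x₁}) := isOpen_interior
  have hx : x₁ ∈ interior {y : G ⧸ Γ | ∃ g ∈ V, y = g • x₁} :=
    mem_interior_iff_mem_nhds.2 (orbit_mem_nhds hV x₁)
  have hW : ∀ v : ℝ, IsOpen {y : G ⧸ Γ |
      hh v • y ∈ interior {y : G ⧸ Γ | ∃ g ∈ V, y = g • x₁}} := fun v =>
    hO.preimage (continuous_const_smul (hh v))
  have hcov : (univ : Set (G ⧸ Γ)) ⊆ ⋃ v : ℝ, {y : G ⧸ Γ |
      hh v • y ∈ interior {y : G ⧸ Γ | ∃ g ∈ V, y = g • x₁}} := by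
    intro y _
    obtain ⟨_, h1, ⟨v, rfl⟩⟩ := (dense_orbit hneg y).inter_open_nonempty _ hO ⟨x₁, hx⟩
    exact mem_iUnion.2 ⟨v, h1⟩
  obtain ⟨t, ht⟩ := isCompact_univ.elim_finite_subcover _ hW hcov
  refine ⟨∑ v ∈ t, |v|, Finset.sum_nonneg fun v _ => abs_nonneg v, fun y => ?_⟩
  obtain ⟨v, hv⟩ := mem_iUnion.1 (ht (mem_univ y))
  obtain ⟨hvt, hy⟩ := mem_iUnion.1 hv
  refine ⟨v, Finset.single_le_sum (f := fun v : ℝ => |v|) (fun v _ => abs_nonneg v) hvt, ?_⟩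
  obtain ⟨u, hu, h2⟩ := interior_subset hy
  exact ⟨u, hu, h2⟩

theorem unif_dense [DiscreteTopology Γ] [CompactSpace (G ⧸ Γ)]
    (hneg : ∀ z : G, (z : Matrix (Fin 2) (Fin 2) ℝ) = -1 → z ∈ Γ) {U : Set G}
    (hU : U ∈ 𝓝 (1 : G)) :
    ∃ R : ℝ, 0 < R ∧ ∀ x y : G ⧸ Γ, ∃ v : ℝ, 0 ≤ v ∧ v ≤ R ∧ ∃ g ∈ U, hh v • y = g • x := by
  obtain ⟨V, hV, hVU⟩ := nhds_mul hU
  obtain ⟨F, hF⟩ := finite_cover (Γ := Γ) hV
  choose R hR0 hR using minD_one (Γ := Γ) hneg hV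
  have hsum : 0 ≤ ∑ x ∈ F, R x := Finset.sum_nonneg fun x _ => hR0 x
  refine ⟨2 * (∑ x ∈ F, R x) + 1, by linarith, fun x y => ?_⟩
  obtain ⟨x₁, hx₁, w, hw, hxw⟩ := hF x
  obtain ⟨v, hv, u, hu, h1⟩ := hR x₁ (hh (∑ x ∈ F, R x) • y)
  have h2 : R x₁ ≤ ∑ x ∈ F, R x := Finset.single_le_sum (f := R) (fun x _ => hR0 x) hx₁
  have h3 := abs_le.1 hv
  refine ⟨v + ∑ x ∈ F, R x, by linarith, by linarith, u * w⁻¹, hVU u hu w hw, ?_⟩
  rw [hh_add, mul_smul, h1, hxw, mul_smul, inv_smul_smul]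

end Pool.Agent.MOM.Dyn
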