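import Pool.Agent.MOM.Dyn.TopC
import Pool.Agent.MOM.Dyn.MinD
import Pool.Agent.MOM.Dyn.MeanDef
import Pool.Agent.MOM.Dyn.Flow

/-!
MOM/Dyn/FlowMean: (D4) the horocycle flow is uniquely ergodic (`exists_mean`, proved in the file
Flow). Architect of the proof: helper33.
-/
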