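import Pool.Agent.MOM.Dyn.Five
import Pool.Agent.MOM.Dyn.FlowMean

/-!
MOM/Dyn/FiveU: the map `h_c` is uniquely ergodic.

PROOF of `five_unif`. Take `borel` as measurable structure (`letI`, `BorelSpace` is `⟨rfl⟩`).
Apply `erg_unif` to `T = hh c • ·` and `ψ = ⟨fun x => f x - m, _⟩`: for an ergodic probability
measure `ν`, `∫ ψ dν = ∫ f dν - m = 0` by `five_inv` and `five_mean`.
`∑ (f (T^[n] x) - m) = ∑ f .. - N m`, `iter_hh`.

PROOF of `five_avg`. For all `n : ℕ`: `∫ f (hh (c n) • x) ∂ν = ∫ f dν` (`ν` is invariant under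
`hh (c n) • · = T^[n]`, induction or `MeasurePreserving.iterate`). So
`N * ∫ f dν = ∫ (∑ n < N, f (hh (c n) • x)) ∂ν`, within `ε N` of `m N` for `N ≥ N0`; divide by
`N`.

PROOF of `five_any`. For `f` continuous take `m` from `exists_mean`; `f ∘ (hh t • ·)` has the same
mean (`IsMean.comp_hh`), so `∫ f (hh t • x) dν = m = ∫ f dν` by `five_avg`;
`ext_of_forall_integral_eq_of_IsFiniteMeasure`.
-/

set_option autoImplicit false

namespace Pool.Agent.MOM.Dyn

open MeasureTheory Filter Topology Set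

variable {Γ : Subgroup G} [DiscreteTopology Γ] [CompactSpace (G ⧸ Γ)]

omit [DiscreteTopology Γ] in
private theorem cont_integrable [MeasurableSpace (G ⧸ Γ)] [BorelSpace (G ⧸ Γ)]
    {ν : Measure (G ⧸ Γ)} [IsProbabilityMeasure ν] {f : G ⧸ Γ → ℝ} (hf : Continuous f) :
    Integrable f ν := by
  obtain ⟨C, hC⟩ := isCompact_univ.exists_bound_of_continuousOn hf.continuousOn
  exact Integrable.of_bound hf.aestronglyMeasurable C
    (Filter.Eventually.of_forall fun x => hC x (mem_univ x))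

theorem five_unif {c : ℝ} (hc : c ≠ 0) {f : G ⧸ Γ → ℝ} (hf : Continuous f) {m : ℝ}
    (hm : IsMean f m) {ε : ℝ} (hε : 0 < ε) :
    ∃ N0 : ℕ, ∀ N : ℕ, N0 ≤ N → ∀ x : G ⧸ Γ,
      |(∑ n ∈ Finset.range N, f (hh (c * n) • x)) - m * N| ≤ ε * N := by
  letI : MeasurableSpace (G ⧸ Γ) := borel _
  haveI : BorelSpace (G ⧸ Γ) := ⟨rfl⟩
  have hT : Continuous fun x : G ⧸ Γ => hh c • x := continuous_const_smul (hh c)
  let ψ : C(G ⧸ Γ, ℝ) := ⟨fun x => f x - m, hf.sub continuous_const⟩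
  have h : ∀ ν : Measure (G ⧸ Γ), IsProbabilityMeasure ν →
      Ergodic (fun x : G ⧸ Γ => hh c • x) ν → ∫ z, ψ z ∂ν = 0 := by
    intro ν h1 h2
    have h3 := five_mean (five_inv hc h2) hf hm
    show ∫ z, (f z - m) ∂ν = 0
    rw [integral_sub (cont_integrable hf) (integrable_const _), h3, integral_const]
    simp
  obtain ⟨N0, hN0⟩ := erg_unif hT ψ h hε
  refine ⟨N0, fun N hN x => ?_⟩
  have h4 := hN0 N hN x
  have h5 : ∑ n ∈ Finset.range N, ψ ((fun x : G ⧸ Γ => hh c • x)^[n] x) =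
      (∑ n ∈ Finset.range N, f (hh (c * n) • x)) - m * N := by
    have h6 : ∀ n ∈ Finset.range N, ψ ((fun x : G ⧸ Γ => hh c • x)^[n] x) =
        f (hh (c * n) • x) - m := by
      intro n _
      rw [iter_hh]
      rfl
    rw [Finset.sum_congr rfl h6, Finset.sum_sub_distrib, Finset.sum_const, Finset.card_range,
      nsmul_eq_mul, mul_comm m]
  rw [h5] at h4
  exact h4

variable [MeasurableSpace (G ⧸ Γ)] [BorelSpace (G ⧸ Γ)]

theorem five_avg {c : ℝ} (hc : c ≠ 0) {ν : Measure (G ⧸ Γ)} [IsProbabilityMeasure ν]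
    (hν : ν.map (fun x => hh c • x) = ν) {f : G ⧸ Γ → ℝ} (hf : Continuous f) {m : ℝ}
    (hm : IsMean f m) : ∫ x, f x ∂ν = m := by
  have hT : Continuous fun x : G ⧸ Γ => hh c • x := continuous_const_smul (hh c)
  have hmp : MeasurePreserving (fun x : G ⧸ Γ => hh c • x) ν ν := ⟨hT.measurable, hν⟩
  have hn : ∀ n : ℕ, ∫ x, f (hh (c * n) • x) ∂ν = ∫ x, f x ∂ν := by
    intro n
    have h1 := hmp.iterate n
    have h2 : ∫ x, f ((fun x : G ⧸ Γ => hh c • x)^[n] x) ∂ν = ∫ x, f x ∂ν := by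
      rw [← integral_map h1.measurable.aemeasurable hf.aestronglyMeasurable, h1.map_eq]
    rw [← h2]
    refine integral_congr_ae (Filter.Eventually.of_forall fun x => ?_)
    simp only [iter_hh]
  have hi : ∀ n : ℕ, Integrable (fun x => f (hh (c * n) • x)) ν := fun n =>
    cont_integrable (hf.comp (continuous_const_smul _))
  have key : ∀ ε : ℝ, 0 < ε → |(∫ x, f x ∂ν) - m| ≤ ε := by
    intro ε hε
    obtain ⟨N0, hN0⟩ := five_unif hc hf hm hε
    have h1 := hN0 (N0 + 1) (Nat.le_succ N0)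
    have h2 : ‖∫ x, ((∑ n ∈ Finset.range (N0 + 1), f (hh (c * n) • x)) - m * (N0 + 1 : ℕ)) ∂ν‖
        ≤ ε * (N0 + 1 : ℕ) := by
      have h3 := norm_integral_le_of_norm_le_const (μ := ν) (C := ε * (N0 + 1 : ℕ))
        (f := fun x => (∑ n ∈ Finset.range (N0 + 1), f (hh (c * n) • x)) - m * (N0 + 1 : ℕ))
        (Filter.Eventually.of_forall fun x => h1 x)
      simpa using h3
    rw [integral_sub (integrable_finsetSum _ fun n _ => hi n) (integrable_const _),
      integral_finsetSum _ fun n _ => hi n, integral_const] at h2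
    simp only [hn, Finset.sum_const, Finset.card_range, nsmul_eq_mul, probReal_univ, smul_eq_mul,
      one_mul] at h2
    rw [Real.norm_eq_abs] at h2
    have h4 : (0 : ℝ) < (N0 + 1 : ℕ) := by positivity
    have h5 : ((N0 + 1 : ℕ) : ℝ) * (∫ x, f x ∂ν) - m * (N0 + 1 : ℕ) =
        ((∫ x, f x ∂ν) - m) * (N0 + 1 : ℕ) := by ring
    rw [h5, abs_mul, abs_of_pos h4] at h2
    exact le_of_mul_le_mul_right h2 h4
  have h0 : |(∫ x, f x ∂ν) - m| ≤ 0 := le_of_forall_pos_le_add fun ε hε => by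
    rw [zero_add]
    exact key ε hε
  have h1 := abs_nonpos_iff.1 h0
  linarith

theorem five_any (hneg : ∀ z : G, (z : Matrix (Fin 2) (Fin 2) ℝ) = -1 → z ∈ Γ) {c : ℝ}
    (hc : c ≠ 0) {ν : Measure (G ⧸ Γ)} [IsProbabilityMeasure ν]
    (hν : ν.map (fun x => hh c • x) = ν) (t : ℝ) : ν.map (fun x => hh t • x) = ν := by
  have hT : Continuous fun x : G ⧸ Γ => hh t • x := continuous_const_smul (hh t)
  refine ext_of_forall_integral_eq_of_IsFiniteMeasure fun f => ?_
  rw [integral_map hT.measurable.aemeasurable f.continuous.aestronglyMeasurable]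
  obtain ⟨m, hm⟩ := exists_mean hneg f.continuous
  exact (five_avg hc hν (f.continuous.comp hT) (hm.comp_hh t)).trans
    (five_avg hc hν f.continuous hm).symm

end Pool.Agent.MOM.Dyn
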