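import Mathlib

/-!
MOM/Dyn/FlowA: an integral and the integral of its averages.

PROOF of `shift_int`. Exchange the integrals (`intervalIntegral_integral_interchange` or
`MeasureTheory.integral_integral_swap`, `F (u + v)` is continuous and bounded on the rectangle):
`∫_0^L ∫_0^1 F (u + v) du dv = ∫_0^1 ∫_u^{L+u} F`, and `∫_0^L F = ∫_0^1 ∫_0^L F`. For `u ∈ [0, 1]`
`|∫_0^L F - ∫_u^{L+u} F| = |∫_0^u F - ∫_L^{L+u} F| ≤ 2 u M`. The integral of `2 u M` over `[0, 1]`
is `M`.
-/

set_option autoImplicit false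

namespace Pool.Agent.MOM.Dyn

open MeasureTheory Filter Topology Set

theorem shift_int {F : ℝ → ℝ} (hF : Continuous F) {M L : ℝ} (hM : ∀ t, |F t| ≤ M)
    (hL : 0 ≤ L) :
    |(∫ v in (0 : ℝ)..L, F v) - ∫ v in (0 : ℝ)..L, ∫ u in (0 : ℝ)..1, F (u + v)| ≤ M := by
  have hint : ∀ a b : ℝ, IntervalIntegrable F volume a b := fun a b => hF.intervalIntegrable a b
  -- interchange of the integrals
  have h1 : ∫ v in (0 : ℝ)..L, ∫ u in (0 : ℝ)..1, F (u + v) =
      ∫ u in (0 : ℝ)..1, ∫ v in (0 : ℝ)..L, F (u + v) := by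
    have hc : Continuous (Function.uncurry fun v u : ℝ => F (u + v)) :=
      hF.comp (continuous_snd.add continuous_fst)
    refine MeasureTheory.intervalIntegral_intervalIntegral_swap ?_
    have h2 : IntegrableOn (Function.uncurry fun v u : ℝ => F (u + v))
        (Icc (min 0 L) (max 0 L) ×ˢ Icc (min (0 : ℝ) 1) (max 0 1)) volume :=
      hc.continuousOn.integrableOn_compact (isCompact_Icc.prod isCompact_Icc)
    exact h2.mono_set (prod_mono Ioc_subset_Icc_self Ioc_subset_Icc_self)
  have h3 : ∀ u : ℝ, ∫ v in (0 : ℝ)..L, F (u + v) = ∫ v in u..(u + L), F v := by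
    intro u
    rw [intervalIntegral.integral_comp_add_left (fun v => F v) u, add_zero]
  have h4 : ∫ v in (0 : ℝ)..L, F v = ∫ _u in (0 : ℝ)..1, ∫ v in (0 : ℝ)..L, F v := by
    rw [intervalIntegral.integral_const, sub_zero, one_smul]
  have hM0 : 0 ≤ M := (abs_nonneg _).trans (hM 0)
  have h5 : ∀ u ∈ Icc (0 : ℝ) 1,
      |(∫ v in (0 : ℝ)..L, F v) - ∫ v in u..(u + L), F v| ≤ 2 * M * u := by
    intro u hu
    have h6 : (∫ v in (0 : ℝ)..L, F v) - ∫ v in u..(u + L), F v =
        (∫ v in (0 : ℝ)..u, F v) - ∫ v in L..(u + L), F v :=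
      intervalIntegral.integral_interval_sub_interval_comm (hint _ _) (hint _ _) (hint _ _)
    rw [h6]
    have h7 : ‖∫ v in (0 : ℝ)..u, F v‖ ≤ M * |u - 0| :=
      intervalIntegral.norm_integral_le_of_norm_le_const fun x _ => hM x
    have h8 : ‖∫ v in L..(u + L), F v‖ ≤ M * |u + L - L| :=
      intervalIntegral.norm_integral_le_of_norm_le_const fun x _ => hM x
    rw [Real.norm_eq_abs] at h7 h8
    rw [sub_zero, abs_of_nonneg hu.1] at h7
    rw [add_sub_cancel_right, abs_of_nonneg hu.1] at h8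
    refine (abs_sub _ _).trans ?_
    linarith
  have hcu : Continuous fun u : ℝ => ∫ v in u..(u + L), F v := by
    have h9 : ∀ u : ℝ, ∫ v in u..(u + L), F v =
        (∫ v in (0 : ℝ)..(u + L), F v) - ∫ v in (0 : ℝ)..u, F v := by
      intro u
      rw [intervalIntegral.integral_interval_sub_left (hint _ _) (hint _ _)]
    simp only [h9]
    have h10 : Continuous fun u : ℝ => ∫ v in (0 : ℝ)..u, F v :=
      intervalIntegral.continuous_primitive hint 0
    exact (h10.comp (continuous_id.add continuous_const)).sub h10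
  have h11 : (∫ v in (0 : ℝ)..L, F v) - ∫ v in (0 : ℝ)..L, ∫ u in (0 : ℝ)..1, F (u + v) =
      ∫ u in (0 : ℝ)..1, ((∫ v in (0 : ℝ)..L, F v) - ∫ v in u..(u + L), F v) := by
    rw [intervalIntegral.integral_sub intervalIntegrable_const
      (hcu.intervalIntegrable _ _), ← h4, h1]
    simp only [h3]
  rw [h11]
  refine (intervalIntegral.abs_integral_le_integral_abs zero_le_one).trans ?_
  have h12 : ∫ u in (0 : ℝ)..1, |(∫ v in (0 : ℝ)..L, F v) - ∫ v in u..(u + L), F v| ≤
      ∫ u in (0 : ℝ)..1, 2 * M * u := by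
    refine intervalIntegral.integral_mono_on zero_le_one ?_ ?_ h5
    · exact (continuous_const.sub hcu).abs.intervalIntegrable _ _
    · exact (continuous_const.mul continuous_id).intervalIntegrable _ _
  refine h12.trans ?_
  rw [intervalIntegral.integral_const_mul, integral_id]
  linarith

end Pool.Agent.MOM.Dyn
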