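import Pool.Agent.MOM.Dyn.FlowA
import Pool.Agent.MOM.Dyn.EquiC

/-!
MOM/Dyn/FlowB: `ftau f (τ + s)` is almost an average of `ftau f τ`.

PROOF of `ftau_add`. Let `L = e^{2s} > 0`, `F v = f (aa τ • hh v • aa s • x)`, continuous
(`continuous_piece`), `|F| ≤ M`. `aa (τ + s) • hh u • x = aa τ • hh (L u) • aa s • x`
(`aa_add`, `aa_mul_hh`), so `L * ftau f (τ + s) x = L ∫_0^1 F (L u) du = ∫_0^L F`
(`intervalIntegral.mul_integral_comp_mul_left` or similar). And
`ftau f τ (hh v • aa s • x) = ∫_0^1 F (u + v) du` (`hh_add`). Now `shift_int`.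
PROOF of `int_hh_eq`. `aa τ • hh u • aa (-τ) • x = hh (e^{2τ} u) • x` and the same substitution.
-/

set_option autoImplicit false

namespace Pool.Agent.MOM.Dyn

open MeasureTheory Filter Topology Set

variable {Γ : Subgroup G}

theorem ftau_add {f : G ⧸ Γ → ℝ} (hf : Continuous f) {M : ℝ} (hM : ∀ x, |f x| ≤ M)
    (τ s : ℝ) (x : G ⧸ Γ) :
    |Real.exp (2 * s) * ftau f (τ + s) x -
      ∫ v in (0 : ℝ)..Real.exp (2 * s), ftau f τ (hh v • aa s • x)| ≤ M := by
  set F : ℝ → ℝ := fun v => f (aa τ • hh v • aa s • x) with hF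
  have hFc : Continuous F := continuous_piece hf τ (aa s • x)
  have hFM : ∀ t, |F t| ≤ M := fun t => hM _
  have h1 : Real.exp (2 * s) * ftau f (τ + s) x = ∫ v in (0 : ℝ)..Real.exp (2 * s), F v := by
    have e1 : ∀ u : ℝ, f (aa (τ + s) • hh u • x) = F (Real.exp (2 * s) * u) := by
      intro u
      have e2 : aa (τ + s) • hh u • x = aa τ • hh (Real.exp (2 * s) * u) • aa s • x := by
        rw [aa_add, mul_smul, ← mul_smul (aa s) (hh u) x, aa_mul_hh, mul_smul]
      rw [e2]
    unfold ftau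
    simp only [e1]
    rw [intervalIntegral.mul_integral_comp_mul_left, mul_zero, mul_one]
  have h2 : ∀ v : ℝ, ftau f τ (hh v • aa s • x) = ∫ u in (0 : ℝ)..1, F (u + v) := by
    intro v
    unfold ftau
    refine intervalIntegral.integral_congr fun u _ => ?_
    show f (aa τ • hh u • hh v • aa s • x) = f (aa τ • hh (u + v) • aa s • x)
    rw [hh_add, mul_smul]
  rw [h1]
  simp only [h2]
  exact shift_int hFc hFM (Real.exp_pos _).le

theorem int_hh_eq (f : G ⧸ Γ → ℝ) (τ : ℝ) (x : G ⧸ Γ) :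
    ∫ t in (0 : ℝ)..Real.exp (2 * τ), f (hh t • x) =
      Real.exp (2 * τ) * ftau f τ (aa (-τ) • x) := by
  have e1 : ∀ u : ℝ, f (aa τ • hh u • aa (-τ) • x) =
      (fun t : ℝ => f (hh t • x)) (Real.exp (2 * τ) * u) := by
    intro u
    have e2 : aa τ • hh u • aa (-τ) • x = hh (Real.exp (2 * τ) * u) • x := by
      rw [← mul_smul (aa τ), aa_mul_hh, mul_smul, ← mul_smul (aa τ), ← aa_add, add_neg_cancel,
        aa_zero, one_smul]
    rw [e2]
  have e3 := intervalIntegral.mul_integral_comp_mul_left (a := 0) (b := 1)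
    (f := fun t : ℝ => f (hh t • x)) (Real.exp (2 * τ))
  rw [mul_zero, mul_one] at e3
  rw [← e3]
  unfold ftau
  congr 1
  exact intervalIntegral.integral_congr fun u _ => (e1 u).symm

end Pool.Agent.MOM.Dyn
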