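import Mathlib

/-!
MOM/Dyn/FlowC: windows.

PROOF of `window_le`. `m = ⌊L / (w + 1)⌋₊`: `m ≥ 1`,
`m (w + 1) ≤ L < (m + 1) (w + 1) ≤ 2 m (w + 1)`.
For every `j < m` the integral of `F` over `[j (w+1), (j+1) (w+1)]` is `≤ S (w + 1) - ρ e`: take
`b` for `a = j (w+1)`; `F ≤ S - e` on `[b, b + ρ]`, `F ≤ S` elsewhere, `b + ρ ≤ a + w + 1`. Sum over
`j < m` (`intervalIntegral.sum_integral_adjacent_intervals`); on `[m (w+1), L]` `F ≤ S`.
Hence `∫_0^L F ≤ S L - m ρ e ≤ S L - ρ e L / (2 (w + 1))`.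
-/

set_option autoImplicit false

namespace Pool.Agent.MOM.Dyn

open MeasureTheory Filter Topology Set

private theorem flowC_const {F : ℝ → ℝ} (hF : Continuous F) {C x y : ℝ} (hxy : x ≤ y)
    (h : ∀ t, x ≤ t → t ≤ y → F t ≤ C) : ∫ t in x..y, F t ≤ C * (y - x) := by
  have h1 : ∫ t in x..y, F t ≤ ∫ _t in x..y, C :=
    intervalIntegral.integral_mono_on hxy (hF.intervalIntegrable x y)
      intervalIntegrable_const (fun t ht => h t ht.1 ht.2)
  rw [intervalIntegral.integral_const, smul_eq_mul] at h1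
  linarith

private theorem flowC_block {F : ℝ → ℝ} (hF : Continuous F) {S ρ e w : ℝ} (hρ : 0 < ρ)
    (hρ1 : ρ ≤ 1) (hS : ∀ t, F t ≤ S)
    (hwin : ∀ a : ℝ, 0 ≤ a → ∃ b, a ≤ b ∧ b ≤ a + w ∧ ∀ t, b ≤ t → t ≤ b + ρ → F t ≤ S - e)
    {a : ℝ} (ha : 0 ≤ a) :
    ∫ t in a..(a + (w + 1)), F t ≤ S * (w + 1) - ρ * e := by
  obtain ⟨b, hab, hbw, hb⟩ := hwin a ha
  have i1 := flowC_const hF hab (fun t _ _ => hS t)
  have i2 := flowC_const hF (show b ≤ b + ρ by linarith) hb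
  have i3 := flowC_const hF (show b + ρ ≤ a + (w + 1) by linarith) (fun t _ _ => hS t)
  have j1 := intervalIntegral.integral_add_adjacent_intervals
    (hF.intervalIntegrable (μ := volume) a b) (hF.intervalIntegrable (μ := volume) b (b + ρ))
  have j2 := intervalIntegral.integral_add_adjacent_intervals
    (hF.intervalIntegrable (μ := volume) a (b + ρ))
    (hF.intervalIntegrable (μ := volume) (b + ρ) (a + (w + 1)))
  have k1 : S * (b - a) + (S - e) * (b + ρ - b) + S * (a + (w + 1) - (b + ρ)) =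
      S * (w + 1) - ρ * e := by ring
  linarith

theorem window_le {F : ℝ → ℝ} (hF : Continuous F) {S ρ e w : ℝ} (hw : 0 < w) (hρ : 0 < ρ)
    (hρ1 : ρ ≤ 1) (he : 0 < e) (hS : ∀ t, F t ≤ S)
    (hwin : ∀ a : ℝ, 0 ≤ a → ∃ b, a ≤ b ∧ b ≤ a + w ∧ ∀ t, b ≤ t → t ≤ b + ρ → F t ≤ S - e)
    {L : ℝ} (hL : w + 1 ≤ L) :
    ∫ t in (0 : ℝ)..L, F t ≤ S * L - ρ * e * L / (2 * (w + 1)) := by
  have hw1 : 0 < w + 1 := by linarith
  have hind : ∀ m : ℕ, ∫ t in (0 : ℝ)..((m : ℝ) * (w + 1)), F t ≤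
      S * ((m : ℝ) * (w + 1)) - m * (ρ * e) := by
    intro m
    induction m with
    | zero => simp
    | succ m ih =>
      have hb := flowC_block hF hρ hρ1 hS hwin (a := (m : ℝ) * (w + 1)) (by positivity)
      have j := intervalIntegral.integral_add_adjacent_intervals
        (hF.intervalIntegrable (μ := volume) 0 ((m : ℝ) * (w + 1)))
        (hF.intervalIntegrable (μ := volume) ((m : ℝ) * (w + 1)) ((m : ℝ) * (w + 1) + (w + 1)))
      have e1 : ((m + 1 : ℕ) : ℝ) * (w + 1) = (m : ℝ) * (w + 1) + (w + 1) := by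
        push_cast; ring
      rw [e1, ← j]
      push_cast
      linarith
  set m : ℕ := ⌊L / (w + 1)⌋₊ with hm
  have hq1 : 1 ≤ L / (w + 1) := by rw [le_div_iff₀ hw1]; linarith
  have hm1 : 1 ≤ m := Nat.le_floor (by simpa using hq1)
  have hmL : (m : ℝ) * (w + 1) ≤ L := by
    have := Nat.floor_le (show 0 ≤ L / (w + 1) by linarith)
    rwa [← hm, le_div_iff₀ hw1] at this
  have hLm : L < ((m : ℝ) + 1) * (w + 1) := by
    have := Nat.lt_floor_add_one (L / (w + 1))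
    rwa [← hm, div_lt_iff₀ hw1] at this
  have i1 := hind m
  have i2 := flowC_const hF hmL (fun t _ _ => hS t)
  have j := intervalIntegral.integral_add_adjacent_intervals
    (hF.intervalIntegrable (μ := volume) 0 ((m : ℝ) * (w + 1)))
    (hF.intervalIntegrable (μ := volume) ((m : ℝ) * (w + 1)) L)
  have hm1' : (1 : ℝ) ≤ m := by exact_mod_cast hm1
  have hfin : ρ * e * L / (2 * (w + 1)) ≤ m * (ρ * e) := by
    rw [div_le_iff₀ (by positivity)]
    have hpos : 0 < ρ * e := by positivity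
    have h2 : L ≤ m * (2 * (w + 1)) := by nlinarith
    calc ρ * e * L ≤ ρ * e * (m * (2 * (w + 1))) := by
          exact mul_le_mul_of_nonneg_left h2 hpos.le
      _ = m * (ρ * e) * (2 * (w + 1)) := by ring
  have k : S * (L - (m : ℝ) * (w + 1)) = S * L - S * ((m : ℝ) * (w + 1)) := by ring
  linarith

end Pool.Agent.MOM.Dyn
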