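import Pool.Agent.MOM.Dyn.Equi
import Pool.Agent.MOM.Dyn.FlowB
import Pool.Agent.MOM.Dyn.FlowC
import Pool.Agent.MOM.Dyn.MinD

/-!
MOM/Dyn/FlowD: the improvement lemma.

PROOF of `improve`. `exists_bound`: `|f| ≤ M`. `equi hf (ε/4)` gives `U`; `unif_dense hneg U` gives
`R > 0`; `continuous_hh`, `hh 0 = 1`: there is `ρ ∈ (0, 1]` with `hh v ∈ U` for `0 ≤ v ≤ ρ`. Put
`κ = ρ (ε/2) / (2 (R + 1))`, `η = κ / 2`, and `s1 ≥ 0` with `e^{2 s1} ≥ R + 1` and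
`e^{2 s1} ≥ M / η` (e.g. `s1 = log (R + 1 + M / η)`). Let `σ ≥ s1`, `L = e^{2σ}`, `x`,
`y = aa σ • x`, `F v = ftau f τ (hh v • y)`, continuous (`continuous_ftau`), `F ≤ S`. For every
`a` there is `v ∈ [0, R]`, `g ∈ U` with `hh v • hh a • y = g • x0` (`unif_dense`), `b = v + a`, and
for `b ≤ t ≤ b + ρ`, `hh t • y = hh (t - b) • g • x0`, so
`F t ≤ ftau f τ (g • x0) + ε/4 ≤ ftau f τ x0 + ε/2 ≤ S - ε/2`. `window_le` (with `w = R`,
`e = ε/2`): `∫_0^L F ≤ S L - κ L`. `ftau_add`: `L * ftau f (τ + σ) x ≤ S L - κ L + M`, so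
`ftau f (τ + σ) x ≤ S - κ + M / L ≤ S - η`.
-/

set_option autoImplicit false

namespace Pool.Agent.MOM.Dyn

open MeasureTheory Filter Topology Set

variable {Γ : Subgroup G}

theorem improve [DiscreteTopology Γ] [CompactSpace (G ⧸ Γ)]
    (hneg : ∀ z : G, (z : Matrix (Fin 2) (Fin 2) ℝ) = -1 → z ∈ Γ) {f : G ⧸ Γ → ℝ}
    (hf : Continuous f) {ε : ℝ} (hε : 0 < ε) :
    ∃ η : ℝ, 0 < η ∧ ∃ s1 : ℝ, 0 ≤ s1 ∧ ∀ (τ S : ℝ) (x0 : G ⧸ Γ), 0 ≤ τ →
      (∀ x, ftau f τ x ≤ S) → ftau f τ x0 ≤ S - ε →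
        ∀ σ : ℝ, s1 ≤ σ → ∀ x : G ⧸ Γ, ftau f (τ + σ) x ≤ S - η := by
  obtain ⟨M, hM0, hM⟩ := exists_bound hf
  obtain ⟨U, hU, hUe⟩ := equi hf (ε := ε / 4) (by positivity)
  obtain ⟨R, hR0, hR⟩ := unif_dense hneg hU
  have hρ : ∃ ρ : ℝ, 0 < ρ ∧ ρ ≤ 1 ∧ ∀ v : ℝ, 0 ≤ v → v ≤ ρ → hh v ∈ U := by
    have h2 : Tendsto hh (𝓝 0) (𝓝 1) := by
      have := continuous_hh.tendsto 0
      rwa [hh_zero] at this
    obtain ⟨r, hr, hrU⟩ := Metric.eventually_nhds_iff.mp (h2.eventually hU)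
    refine ⟨min (r / 2) 1, by positivity, min_le_right _ _, fun v hv0 hv => hrU ?_⟩
    rw [Real.dist_eq, sub_zero, abs_of_nonneg hv0]
    have := hv.trans (min_le_left _ _)
    linarith
  obtain ⟨ρ, hρ0, hρ1, hρU⟩ := hρ
  have hη : 0 < ρ * (ε / 2) / (2 * (R + 1)) / 2 := by positivity
  set η : ℝ := ρ * (ε / 2) / (2 * (R + 1)) / 2 with hηdef
  have hMη : 0 < M / η := by positivity
  refine ⟨η, hη, Real.log (R + 1 + M / η), Real.log_nonneg (by linarith), ?_⟩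
  intro τ S x0 hτ hS hx0 σ hσ x
  have hσ0 : 0 ≤ σ := (Real.log_nonneg (by linarith : (1 : ℝ) ≤ R + 1 + M / η)).trans hσ
  have hL1 : R + 1 + M / η ≤ Real.exp (2 * σ) := by
    calc R + 1 + M / η = Real.exp (Real.log (R + 1 + M / η)) :=
          (Real.exp_log (by linarith)).symm
      _ ≤ Real.exp (2 * σ) := Real.exp_le_exp.mpr (by linarith)
  have hF : Continuous fun v : ℝ => ftau f τ (hh v • aa σ • x) :=
    (continuous_ftau hf τ).comp (continuous_hh.smul continuous_const)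
  have hwin : ∀ a : ℝ, 0 ≤ a → ∃ b, a ≤ b ∧ b ≤ a + R ∧ ∀ t, b ≤ t → t ≤ b + ρ →
      ftau f τ (hh t • aa σ • x) ≤ S - ε / 2 := by
    intro a _
    obtain ⟨v, hv0, hvR, g, hg, hgx⟩ := hR x0 (hh a • aa σ • x)
    refine ⟨a + v, by linarith, by linarith, fun t ht1 ht2 => ?_⟩
    have h1 : hh t • aa σ • x = hh (t - (a + v)) • g • x0 := by
      rw [← hgx, ← mul_smul (hh v), ← hh_add, ← mul_smul (hh (t - (a + v))), ← hh_add]
      congr 2
      ring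
    have h2 := hUe (hh (t - (a + v))) (hρU _ (by linarith) (by linarith)) (g • x0) τ hτ
    have h3 := hUe g hg x0 τ hτ
    rw [h1]
    have h4 := (abs_le.mp h2).2
    have h5 := (abs_le.mp h3).2
    linarith
  have hint := window_le hF hR0 hρ0 hρ1 (half_pos hε) (fun t => hS _) hwin
    (L := Real.exp (2 * σ)) (by linarith)
  have hadd := (abs_le.mp (ftau_add hf hM τ σ x)).2
  have hL0 : 0 < Real.exp (2 * σ) := Real.exp_pos _
  have hML : M ≤ η * Real.exp (2 * σ) := by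
    have h1 : M / η ≤ Real.exp (2 * σ) := by linarith
    rwa [div_le_iff₀' hη] at h1
  have hκ : ρ * (ε / 2) * Real.exp (2 * σ) / (2 * (R + 1)) = 2 * η * Real.exp (2 * σ) := by
    rw [hηdef]
    field_simp
  rw [hκ] at hint
  have hfin : Real.exp (2 * σ) * ftau f (τ + σ) x ≤ Real.exp (2 * σ) * (S - η) := by
    linarith
  exact le_of_mul_le_mul_left hfin hL0

end Pool.Agent.MOM.Dyn
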