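import Pool.Agent.MOM.Dyn.PInv
import Pool.Agent.MOM.Dyn.Free

/-!
MOM/Dyn/Min: minimal sets of the horocycle flow.

PROOF of `exists_min`. `zorn_superset_nonempty` for the family of all closed nonempty `hh`-invariant
sets: a lower bound of a chain `c` is `⋂₀ c` (nonempty by compactness: `IsCompact` + directed
family of closed nonempty sets, `IsCompact.nonempty_sInter_of_directed_nonempty_isCompact_isClosed`).

PROOF of `min_recur`. For `n : ℕ` put `E n = closure {hh t • y | t ≥ n}`, decreasing, closed,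
nonempty, `Ω = ⋂ n, E n` is nonempty (compactness), closed, contained in `Y` (`Y` closed and
invariant). `Ω` is `hh`-invariant: `hh s • E n ⊆ E m` whenever `m ≤ n + s` (the map `hh s • ·` is
continuous: `image_closure_subset_closure_image`), and for every `m` there is such an `n`. By
minimality `Ω = Y ∋ y`, so `y ∈ E 1`, and `{y' | ∃ g ∈ U, y' = g • y} ∈ 𝓝 y` (`orbit_mem_nhds`)
meets `{hh t • y | t ≥ 1}`.

PROOF of `min_step`. `Y' = {u ∈ Y | aa σ • u ∈ Y}` is closed, nonempty and `hh`-invariant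
(`aa σ • hh t • u = hh (e^{2σ} t) • aa σ • u`, `aa_mul_hh`), so `Y' = Y`.
-/

set_option autoImplicit false

namespace Pool.Agent.MOM.Dyn

open MeasureTheory Filter Topology Set

variable {Γ : Subgroup G}

/-- minimal closed invariant sets of the horocycle flow -/
structure IsMin (Y : Set (G ⧸ Γ)) : Prop where
  closed : IsClosed Y
  nonempty : Y.Nonempty
  inv : ∀ t, ∀ y ∈ Y, hh t • y ∈ Y
  min : ∀ Y' ⊆ Y, IsClosed Y' → Y'.Nonempty → (∀ t, ∀ y ∈ Y', hh t • y ∈ Y') → Y' = Y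

theorem exists_min [CompactSpace (G ⧸ Γ)] {Y0 : Set (G ⧸ Γ)} (hc : IsClosed Y0)
    (hn : Y0.Nonempty) (hi : ∀ t, ∀ y ∈ Y0, hh t • y ∈ Y0) : ∃ Y ⊆ Y0, IsMin Y := by
  set S : Set (Set (G ⧸ Γ)) :=
    {Y | IsClosed Y ∧ Y.Nonempty ∧ ∀ t, ∀ y ∈ Y, hh t • y ∈ Y} with hS
  obtain ⟨Y, hY0, hYS, hYm⟩ := zorn_superset_nonempty S (by
    intro c hcS hchain hcn
    refine ⟨⋂₀ c, ⟨isClosed_sInter fun s hs => (hcS hs).1, ?_, ?_⟩,
      fun s hs => sInter_subset_of_mem hs⟩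
    · have : Nonempty c := hcn.to_subtype
      apply IsCompact.nonempty_sInter_of_directed_nonempty_isCompact_isClosed
      · intro a ha b hb
        rcases hchain.total ha hb with h | h
        · exact ⟨a, ha, Subset.rfl, h⟩
        · exact ⟨b, hb, h, Subset.rfl⟩
      · exact fun U hU => (hcS hU).2.1
      · exact fun U hU => (hcS hU).1.isCompact
      · exact fun U hU => (hcS hU).1
    · intro t y hy s hs
      exact (hcS hs).2.2 t y (hy s hs)) Y0 ⟨hc, hn, hi⟩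
  refine ⟨Y, hY0, hYS.1, hYS.2.1, hYS.2.2, ?_⟩
  intro Y' hsub hc' hn' hi'
  exact Subset.antisymm hsub (hYm ⟨hc', hn', hi'⟩ hsub)

theorem min_recur [CompactSpace (G ⧸ Γ)] {Y : Set (G ⧸ Γ)} (hY : IsMin Y) {y : G ⧸ Γ}
    (hy : y ∈ Y) {U : Set G} (hU : U ∈ 𝓝 (1 : G)) :
    ∃ t : ℝ, 1 ≤ t ∧ ∃ g ∈ U, hh t • y = g • y := by
  set E : ℕ → Set (G ⧸ Γ) := fun n => closure {z | ∃ t : ℝ, (n : ℝ) ≤ t ∧ z = hh t • y} with hE
  have hmono : ∀ m n : ℕ, m ≤ n → E n ⊆ E m := by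
    intro m n hmn
    apply closure_mono
    rintro z ⟨t, ht, rfl⟩
    exact ⟨t, le_trans (by exact_mod_cast hmn) ht, rfl⟩
  have hEn : ∀ n, (E n).Nonempty := fun n => ⟨hh n • y, subset_closure ⟨n, le_rfl, rfl⟩⟩
  have hΩn : (⋂ n, E n).Nonempty :=
    IsCompact.nonempty_iInter_of_sequence_nonempty_isCompact_isClosed E
      (fun i => hmono i (i + 1) (Nat.le_succ i)) hEn isClosed_closure.isCompact
      (fun i => isClosed_closure)
  have hΩc : IsClosed (⋂ n, E n) := isClosed_iInter fun n => isClosed_closure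
  have hΩs : (⋂ n, E n) ⊆ Y := by
    intro z hz
    have h0 : z ∈ E 0 := mem_iInter.1 hz 0
    refine closure_minimal ?_ hY.closed h0
    rintro z ⟨t, -, rfl⟩
    exact hY.inv t y hy
  have hΩi : ∀ t, ∀ z ∈ (⋂ n, E n), hh t • z ∈ (⋂ n, E n) := by
    intro s z hz
    refine mem_iInter.2 fun m => ?_
    obtain ⟨n, hn⟩ := exists_nat_ge ((m : ℝ) - s)
    have hzn : z ∈ E n := mem_iInter.1 hz n
    have hcont : Continuous fun w : G ⧸ Γ => hh s • w := continuous_const_smul _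
    have h1 : hh s • z ∈ closure ((fun w : G ⧸ Γ => hh s • w) ''
        {z | ∃ t : ℝ, (n : ℝ) ≤ t ∧ z = hh t • y}) :=
      image_closure_subset_closure_image hcont ⟨z, hzn, rfl⟩
    refine closure_mono ?_ h1
    rintro _ ⟨_, ⟨t, ht, rfl⟩, rfl⟩
    refine ⟨s + t, by linarith, ?_⟩
    dsimp only
    rw [hh_add, mul_smul]
  have hΩY : (⋂ n, E n) = Y := hY.min _ hΩs hΩc hΩn hΩi
  have hyE : y ∈ E 1 := by
    have : y ∈ ⋂ n, E n := by rw [hΩY]; exact hy
    exact mem_iInter.1 this 1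
  obtain ⟨z, ⟨g, hg, hz⟩, t, ht, hzt⟩ := mem_closure_iff_nhds.1 hyE _ (orbit_mem_nhds hU y)
  exact ⟨t, by simpa using ht, g, hg, by rw [← hzt, hz]⟩

theorem min_step {Y : Set (G ⧸ Γ)} (hY : IsMin Y) {σ : ℝ} {u : G ⧸ Γ} (hu : u ∈ Y)
    (hσ : aa σ • u ∈ Y) : ∀ y ∈ Y, aa σ • y ∈ Y := by
  have hcont : Continuous fun w : G ⧸ Γ => aa σ • w := continuous_const_smul _
  have h := hY.min {w | w ∈ Y ∧ aa σ • w ∈ Y} (fun w hw => hw.1)
    (hY.closed.inter (hY.closed.preimage hcont)) ⟨u, hu, hσ⟩ (by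
      rintro t w ⟨hw1, hw2⟩
      refine ⟨hY.inv t w hw1, ?_⟩
      rw [← mul_smul, aa_mul_hh, mul_smul]
      exact hY.inv _ _ hw2)
  intro y hy
  rw [← h] at hy
  exact hy.2

end Pool.Agent.MOM.Dyn
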