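import Pool.Agent.MOM.Dyn.Min

/-!
MOM/Dyn/MinA: minimal sets are invariant under the diagonal group.

PROOF of `key_mul`: compare the entries (`ext4`, `mul_00` ..): with `s = (e^σ - g00)/g10` the entry
`00` of `hh s * g` is `e^σ`; the last entry follows from `det4 g`.

PROOF of `min_A`. Let `S = {σ | ∀ y ∈ Y, aa σ • y ∈ Y}`. By `min_step`, `σ ∈ S` as soon as
`aa σ • u ∈ Y` for one `u ∈ Y`. `S` is closed (`Y` closed, `continuous_aa`), closed under addition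
(`aa_add`) and under `σ ↦ -σ` (`u ∈ Y`, `v = aa σ • u ∈ Y`, `aa (-σ) • v = u ∈ Y`), `0 ∈ S`.
Case 1: for every `U ∈ 𝓝 1` there are `g ∈ U`, `g 1 0 ≠ 0` and `u ∈ Y` with `g • u ∈ Y`. Then every
`σ` is in `S`: otherwise `aa σ • u' ∉ Y` for all `u' ∈ Y`, and by compactness
(`IsCompact.eventually_forall_of_forall_eventually`, `Y` compact, `(w, u') ↦ aa σ • vv w • u'`
continuous) there is `δ > 0` with `aa σ • vv w • u' ∉ Y` for `|w| < δ`, `u' ∈ Y`. Take `g` with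
`|g 1 0| e^σ < δ` (`nhds_small`) and `key_mul`: `hh s • g • u ∈ Y` equals
`aa σ • vv (g10 e^σ) • (hh s' • u)` with `hh s' • u ∈ Y`: contradiction.
Case 2: there is `U₀ ∈ 𝓝 1` such that `g ∈ U₀`, `u ∈ Y`, `g • u ∈ Y` imply `g 1 0 = 0`. Fix `y ∈ Y`
and `ε > 0`. Apply `min_recur` with
`U = U₀ ∩ {|g00 - 1| < δ, |g01| < 1/4, ..}` (`nhds_small`, `δ ≤ 1/2` so small that
`|log a| < ε` for `|a - 1| < δ`): `hh t • y = g • y`, `t ≥ 1`. Then `g • y ∈ Y`, so `g 1 0 = 0`,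
`g = hh b * aa σ` with `σ = log (g 0 0)`, `b = g 0 1 * g 0 0` (see (1) in the file PInv), so
`aa σ • y = hh (-b) • g • y ∈ Y`, `σ ∈ S`, `|σ| < ε`. `σ ≠ 0`: otherwise `g = hh b` with
`|b| < 1/2` and `hh t • y = hh b • y`, so `t = b` by `orbit_inj`, contradiction. Hence `S` is a
closed subgroup with arbitrarily small nonzero elements: dense
(`AddSubgroup.dense_of_not_isolated_zero`), so everything.
-/

set_option autoImplicit false
set_option linter.unusedSimpArgs false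

namespace Pool.Agent.MOM.Dyn

open MeasureTheory Filter Topology Set

variable {Γ : Subgroup G}

theorem key_mul {g : G} (hg : g 1 0 ≠ 0) (σ : ℝ) :
    hh ((Real.exp σ - g 0 0) / g 1 0) * g = aa σ * vv (g 1 0 * Real.exp σ) *
      hh ((g 0 1 + (Real.exp σ - g 0 0) / g 1 0 * g 1 1) * Real.exp (-σ)) := by
  have hd := det4 g
  have he : Real.exp σ * Real.exp (-σ) = 1 := by rw [← Real.exp_add]; simp
  set E := Real.exp σ with hE
  set F := Real.exp (-σ) with hF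
  have h1 : (E - g 0 0) / g 1 0 * g 1 0 = E - g 0 0 := div_mul_cancel₀ _ hg
  set q := (E - g 0 0) / g 1 0 with hq
  apply ext4
  · simp only [mul_00, mul_01, mul_10, mul_11, hh_00, hh_01, hh_10, hh_11, aa_00, aa_01, aa_10,
      aa_11, vv_00, vv_01, vv_10, vv_11]
    rw [← hE]
    linear_combination h1
  · simp only [mul_00, mul_01, mul_10, mul_11, hh_00, hh_01, hh_10, hh_11, aa_00, aa_01, aa_10,
      aa_11, vv_00, vv_01, vv_10, vv_11]
    rw [← hE]
    linear_combination (-(g 0 1 + q * g 1 1)) * he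
  · simp only [mul_00, mul_01, mul_10, mul_11, hh_00, hh_01, hh_10, hh_11, aa_00, aa_01, aa_10,
      aa_11, vv_00, vv_01, vv_10, vv_11]
    rw [← hF]
    linear_combination (-(g 1 0)) * he
  · simp only [mul_00, mul_01, mul_10, mul_11, hh_00, hh_01, hh_10, hh_11, aa_00, aa_01, aa_10,
      aa_11, vv_00, vv_01, vv_10, vv_11]
    rw [← hF]
    linear_combination (-(g 1 1) * (E * F + 1) + F) * he + F ^ 2 * E * hd -
      F ^ 2 * E * g 1 1 * h1

private theorem case_one [CompactSpace (G ⧸ Γ)] {Y : Set (G ⧸ Γ)} (hY : IsMin Y)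
    (h1 : ∀ U ∈ 𝓝 (1 : G), ∃ g ∈ U, g 1 0 ≠ 0 ∧ ∃ u ∈ Y, g • u ∈ Y) (σ : ℝ) :
    ∃ u ∈ Y, aa σ • u ∈ Y := by
  by_contra hcon
  push Not at hcon
  have hYc : IsCompact Y := hY.closed.isCompact
  have hev : ∀ᶠ w : ℝ in 𝓝 0, ∀ u ∈ Y, aa σ • vv w • u ∉ Y := by
    refine hYc.eventually_forall_of_forall_eventually (P := fun w u => aa σ • vv w • u ∉ Y)
      fun u hu => ?_
    have hc : Continuous fun z : ℝ × (G ⧸ Γ) => aa σ • vv z.1 • z.2 := by
      have h0 : Continuous fun z : ℝ × (G ⧸ Γ) => vv z.1 • z.2 :=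
        (continuous_vv.comp continuous_fst).smul continuous_snd
      have h1 : Continuous fun z : ℝ × (G ⧸ Γ) => aa σ • (vv z.1 • z.2) :=
        (continuous_const (y := aa σ)).smul h0
      exact h1
    have hv : vv 0 = 1 := by apply ext4 <;> simp
    have hm : aa σ • vv (0 : ℝ) • u ∈ Yᶜ := by
      rw [hv, one_smul]
      exact hcon u hu
    have hn : Yᶜ ∈ 𝓝 (aa σ • vv (0 : ℝ) • u) := hY.closed.isOpen_compl.mem_nhds hm
    have ht : Tendsto (fun z : ℝ × (G ⧸ Γ) => aa σ • vv z.1 • z.2) (𝓝 ((0 : ℝ), u))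
        (𝓝 (aa σ • vv (0 : ℝ) • u)) := hc.tendsto ((0 : ℝ), u)
    have h5 : ∀ᶠ z : ℝ × (G ⧸ Γ) in 𝓝 ((0 : ℝ), u), aa σ • vv z.1 • z.2 ∈ Yᶜ := ht hn
    exact h5
  obtain ⟨δ, hδ, hw⟩ := Metric.eventually_nhds_iff.1 hev
  have hpos : 0 < δ * Real.exp (-σ) := mul_pos hδ (Real.exp_pos _)
  obtain ⟨g, hgU, hg, u, hu, hgu⟩ := h1 _ (nhds_small hpos)
  have hlt : dist (g 1 0 * Real.exp σ) 0 < δ := by
    rw [Real.dist_eq, sub_zero, abs_mul, Real.abs_exp]
    have h3 := mul_lt_mul_of_pos_right hgU.2.2.1 (Real.exp_pos σ)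
    rw [mul_assoc, ← Real.exp_add, neg_add_cancel, Real.exp_zero, mul_one] at h3
    exact h3
  have h4 := hY.inv ((Real.exp σ - g 0 0) / g 1 0) _ hgu
  rw [← mul_smul, key_mul hg σ, mul_smul, mul_smul] at h4
  exact hw hlt _ (hY.inv _ _ hu) h4

private theorem case_two [DiscreteTopology Γ] [CompactSpace (G ⧸ Γ)] {Y : Set (G ⧸ Γ)}
    (hY : IsMin Y) {U₀ : Set G} (hU₀ : U₀ ∈ 𝓝 (1 : G))
    (h2 : ∀ g ∈ U₀, ∀ u ∈ Y, g • u ∈ Y → g 1 0 = 0) {y : G ⧸ Γ} (hy : y ∈ Y) {ε : ℝ}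
    (hε : 0 < ε) : ∃ σ : ℝ, σ ≠ 0 ∧ |σ| < ε ∧ aa σ • y ∈ Y := by
  obtain ⟨δ1, hδ1, hlog⟩ := Metric.continuousAt_iff.1 (Real.continuousAt_log one_ne_zero) ε hε
  have hδ : 0 < min δ1 (1 / 4) := lt_min hδ1 (by norm_num)
  obtain ⟨t, ht, g, hg, hty⟩ := min_recur hY hy (inter_mem hU₀ (nhds_small hδ))
  obtain ⟨hgU, hg00, hg01, -, -⟩ := hg
  have hgy : g • y ∈ Y := hty ▸ hY.inv t y hy
  have hg10 := h2 g hgU y hy hgy
  have ha : |g 0 0 - 1| < 1 / 4 := hg00.trans_le (min_le_right _ _)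
  have hb : |g 0 1| < 1 / 4 := hg01.trans_le (min_le_right _ _)
  rw [abs_lt] at ha hb
  have hpos : 0 < g 0 0 := by linarith
  have hd := det4 g
  rw [hg10, mul_zero, sub_zero] at hd
  have hE : Real.exp (Real.log (g 0 0)) = g 0 0 := Real.exp_log hpos
  have hF : Real.exp (-Real.log (g 0 0)) = g 1 1 := by
    rw [Real.exp_neg, hE]
    field_simp
    linarith
  have hgeq : g = hh (g 0 1 * g 0 0) * aa (Real.log (g 0 0)) := by
    apply ext4 <;> simp only [mul_00, mul_01, mul_10, mul_11, hh_00, hh_01, hh_10, hh_11, aa_00,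
      aa_01, aa_10, aa_11, hE, hF]
    · ring
    · linear_combination (-(g 0 1)) * hd
    · rw [hg10]; ring
    · ring
  have hmem : aa (Real.log (g 0 0)) • y ∈ Y := by
    have h5 := hY.inv (-(g 0 1 * g 0 0)) _ hgy
    rw [← mul_smul] at h5
    have h6 : hh (-(g 0 1 * g 0 0)) * g = aa (Real.log (g 0 0)) := by
      conv_lhs => rw [hgeq]
      rw [← mul_assoc, ← hgeq, ← hh_add, neg_add_cancel, hh_zero, one_mul]
    rwa [h6] at h5
  refine ⟨Real.log (g 0 0), fun h0 => ?_, ?_, hmem⟩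
  · rw [h0, aa_zero, mul_one] at hgeq
    rw [hgeq] at hty
    have h7 := orbit_inj hty
    nlinarith
  · have h8 := hlog (x := g 0 0) (by
      rw [Real.dist_eq]
      exact hg00.trans_le (min_le_left _ _))
    rwa [Real.log_one, Real.dist_eq, sub_zero] at h8

theorem min_A [DiscreteTopology Γ] [CompactSpace (G ⧸ Γ)] {Y : Set (G ⧸ Γ)} (hY : IsMin Y)
    (σ : ℝ) {y : G ⧸ Γ} (hy : y ∈ Y) : aa σ • y ∈ Y := by
  by_cases h1 : ∀ U ∈ 𝓝 (1 : G), ∃ g ∈ U, g 1 0 ≠ 0 ∧ ∃ u ∈ Y, g • u ∈ Y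
  · obtain ⟨u, hu, hu'⟩ := case_one hY h1 σ
    exact min_step hY hu hu' y hy
  push Not at h1
  obtain ⟨U₀, hU₀, h2⟩ := h1
  have h2' : ∀ g ∈ U₀, ∀ u ∈ Y, g • u ∈ Y → g 1 0 = 0 := by
    intro g hg u hu hgu
    by_contra h0
    exact h2 g hg h0 u hu hgu
  let S : AddSubgroup ℝ :=
    { carrier := {τ | aa τ • y ∈ Y}
      zero_mem' := by
        show aa 0 • y ∈ Y
        rwa [aa_zero, one_smul]
      add_mem' := by
        intro a b ha hb
        show aa (a + b) • y ∈ Y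
        rw [aa_add, mul_smul]
        exact min_step hY hy ha _ hb
      neg_mem' := by
        intro a ha
        show aa (-a) • y ∈ Y
        refine min_step hY (u := aa a • y) ha ?_ y hy
        rwa [← mul_smul, ← aa_add, neg_add_cancel, aa_zero, one_smul] }
  have hcl : IsClosed (S : Set ℝ) :=
    hY.closed.preimage (continuous_aa.smul continuous_const)
  have hdense : Dense (S : Set ℝ) := by
    refine S.dense_of_not_isolated_zero fun ε hε => ?_
    obtain ⟨τ, hτ0, hτ, hτy⟩ := case_two hY hU₀ h2' hy hε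
    have hτS : τ ∈ S := hτy
    refine ⟨|τ|, ?_, abs_pos.2 hτ0, hτ⟩
    rcases abs_choice τ with h | h
    · rw [h]; exact hτS
    · rw [h]; exact S.neg_mem hτS
  have huniv : (S : Set ℝ) = univ := by
    rw [← hcl.closure_eq]
    exact hdense.closure_eq
  have : σ ∈ (S : Set ℝ) := huniv ▸ mem_univ σ
  exact this

end Pool.Agent.MOM.Dyn
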