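import Pool.Agent.MOM.Dyn.NotPar0

/-!
MOM/Dyn/NotPar: a discrete cocompact subgroup has no common eigenvector.

PROOF of `not_parabolic`. Put `n = p^2 + q^2 > 0` and `Q = mk4 p (-q/n) q (p/n)`, so the first
column
of `Q` is `(p, q)`. `D = Γ.map (MulAut.conj Q⁻¹)`, i.e. `D = {Q⁻¹ * γ * Q}`. Apply `not_upper`:
`W` : `Γ` is discrete, so there is `W₀ ∈ 𝓝 1` with `W₀ ∩ Γ = {1}`; `W = {g | Q * g * Q⁻¹ ∈ W₀}`.
`h10` : `(Q⁻¹ * γ * Q) 1 0 = p (γ 1 0 p + γ 1 1 q) - q (γ 0 0 p + γ 0 1 q) = 0` by `h`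
(`mul_10`, `inv_10`, `inv_11`).
`C` : `C₀` from `exists_compact_lift`, `C = {Q⁻¹ * c * Q | c ∈ C₀}` (image of a compact set under a
continuous map). For `y` take `c ∈ C₀` with `(c : G ⧸ Γ) = (Q * y * Q⁻¹ : G)`, i.e.
`c⁻¹ * (Q * y * Q⁻¹) ∈ Γ` (`QuotientGroup.eq`), so `(Q⁻¹ * c * Q)⁻¹ * y ∈ D`.
-/

set_option autoImplicit false

namespace Pool.Agent.MOM.Dyn

open MeasureTheory Filter Topology Set

theorem not_parabolic (Γ : Subgroup G) [DiscreteTopology Γ] [CompactSpace (G ⧸ Γ)] {p q : ℝ}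
    (hpq : 0 < p ^ 2 + q ^ 2)
    (h : ∀ γ ∈ Γ, (γ 0 0 * p + γ 0 1 * q) * q = (γ 1 0 * p + γ 1 1 * q) * p) : False := by
  obtain ⟨U, hUo, hU1, hUΓ⟩ : ∃ U : Set G, IsOpen U ∧ (1 : G) ∈ U ∧
      ∀ γ ∈ Γ, γ ∈ U → γ = 1 := by
    have h1 : IsOpen ({1} : Set Γ) := isOpen_discrete _
    rw [isOpen_induced_iff] at h1
    obtain ⟨U, hU, hU'⟩ := h1
    refine ⟨U, hU, ?_, ?_⟩
    · have h2 : (1 : Γ) ∈ (Subtype.val ⁻¹' U : Set Γ) := by
        rw [hU']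
        exact Set.mem_singleton _
      exact h2
    · intro γ hγ hγU
      have h2 : (⟨γ, hγ⟩ : Γ) ∈ (Subtype.val ⁻¹' U : Set Γ) := hγU
      rw [hU', Set.mem_singleton_iff] at h2
      exact congrArg Subtype.val h2
  set n : ℝ := p ^ 2 + q ^ 2 with hn
  have hn0 : n ≠ 0 := hpq.ne'
  have hdet : p * (p / n) - -q / n * q = 1 := by
    have e : p * (p / n) - -q / n * q = (p ^ 2 + q ^ 2) / n := by ring
    rw [e, ← hn, div_self hn0]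
  set Q : G := mk4 p (-q / n) q (p / n) hdet with hQ
  have hQ00 : Q 0 0 = p := rfl
  have hQ01 : Q 0 1 = -q / n := rfl
  have hQ10 : Q 1 0 = q := rfl
  have hQ11 : Q 1 1 = p / n := rfl
  have hcont : Continuous fun g : G => Q * g * Q⁻¹ := by fun_prop
  have hcont' : Continuous fun g : G => Q⁻¹ * g * Q := by fun_prop
  set D : Subgroup G := Γ.comap (MulAut.conj Q).toMonoidHom with hD
  have hmem : ∀ g : G, g ∈ D ↔ Q * g * Q⁻¹ ∈ Γ := fun g => Iff.rfl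
  obtain ⟨C, hC, hCΓ⟩ := exists_compact_lift Γ
  refine not_upper D (W := (fun g : G => Q * g * Q⁻¹) ⁻¹' U) ?_ ?_ ?_
    (C := (fun g : G => Q⁻¹ * g * Q) '' C) (hC.image hcont') ?_
  · refine hcont.continuousAt.preimage_mem_nhds ?_
    have e : Q * 1 * Q⁻¹ = 1 := by group
    rw [e]
    exact hUo.mem_nhds hU1
  · intro g hg hgW
    have h1 : Q * g * Q⁻¹ = 1 := hUΓ _ ((hmem g).1 hg) hgW
    have h2 : g = Q⁻¹ * (Q * g * Q⁻¹) * Q := by group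
    rw [h2, h1]
    group
  · intro g hg
    have h1 := h _ ((hmem g).1 hg)
    set γ : G := Q * g * Q⁻¹ with hγ
    have h2 : Q * g = γ * Q := by
      rw [hγ]
      group
    have h3 : (Q * g) 0 0 = (γ * Q) 0 0 := by rw [h2]
    have h4 : (Q * g) 1 0 = (γ * Q) 1 0 := by rw [h2]
    rw [mul_00, mul_00, hQ00, hQ01, hQ10] at h3
    rw [mul_10, mul_10, hQ10, hQ11, hQ00] at h4
    have h5 : g 1 0 * ((p ^ 2 + q ^ 2) / n) = 0 := by
      have h6 : g 1 0 * ((p ^ 2 + q ^ 2) / n) =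
          p * (q * g 0 0 + p / n * g 1 0) - q * (p * g 0 0 + -q / n * g 1 0) := by ring
      rw [h6, h3, h4]
      linarith
    rw [← hn, div_self hn0, mul_one] at h5
    exact h5
  · intro y
    obtain ⟨c, hc, hcy⟩ := hCΓ ((Q * y * Q⁻¹ : G) : G ⧸ Γ)
    rw [QuotientGroup.eq] at hcy
    refine ⟨Q⁻¹ * c * Q, ⟨c, hc, rfl⟩, ?_⟩
    rw [hmem]
    have e : Q * ((Q⁻¹ * c * Q)⁻¹ * y) * Q⁻¹ = c⁻¹ * (Q * y * Q⁻¹) := by group
    rw [e]
    exact hcy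

end Pool.Agent.MOM.Dyn
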