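import Pool.Agent.MOM.Dyn.Top

/-!
MOM/Dyn/NotPar0: a discrete cocompact subgroup is not contained in the upper triangular group.

PROOF of `not_upper`. All elements of `D` are upper triangular, so for `δ ∈ D`: `δ 1 0 = 0` and
`δ 0 0 * δ 1 1 = 1` (`det4`). Let `M ≥ 1` be a bound for `|k i j|`, `k ∈ C` (compactness,
`continuous_entry`). If `y` is upper triangular, `k ∈ C`, `δ = k⁻¹ * y ∈ D`, then `k = y * δ⁻¹` is
upper triangular too, so `k 0 0 * k 1 1 = 1`, `1/M ≤ |k 0 0| ≤ M`.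
Step 1. For every `ε > 0` there is `δ ∈ D` with `|δ 0 0| < ε`: take `y = aa s`, `s → -∞`:
`δ 0 0 = k 1 1 * exp s` (entries of `k⁻¹`: `inv_00` ..), `|δ 0 0| ≤ M * exp s`.
Step 2. If `hh b ∈ D` then `b = 0`: for `δ ∈ D`, `δ * hh b * δ⁻¹ = hh ((δ 0 0)^2 * b) ∈ D`; by
step 1 it is as close to `1` as we want (`continuous_hh`), hence in `W`, hence `= 1`, `b = 0`.
Step 3. The elements of `D` commute: `δ * δ' * δ⁻¹ * δ'⁻¹` is upper triangular with diagonal
`1, 1`, so it is `hh b` (`ext4`), so `1`.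
Step 4. Take `δ0 ∈ D` with `x = δ0 0 0`, `|x| < 1`, `y = δ0 0 1`. For `δ ∈ D`, `u = δ 0 0`,
`v = δ 0 1`: comparing the entries `0 1` of `δ * δ0 = δ0 * δ`: `u y + v x⁻¹ = x v + y u⁻¹`, so
`v = κ (u⁻¹ - u)` with `κ = y / (x⁻¹ - x)`.
Step 5. `y = hh t`: `k = [[α, β], [0, α⁻¹]]`, `δ = k⁻¹ * hh t` has `δ 0 0 = α⁻¹`,
`δ 0 1 = α⁻¹ t - β`. By step 4 `α⁻¹ t - β = κ (α - α⁻¹)`, so
`|t| ≤ M * (M + 2 |κ| M)` for all real `t`, a contradiction.
-/

set_option autoImplicit false

namespace Pool.Agent.MOM.Dyn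

open MeasureTheory Filter Topology Set

private theorem np0_conj {g : G} (h : g 1 0 = 0) (b : ℝ) :
    g * hh b * g⁻¹ = hh ((g 0 0) ^ 2 * b) := by
  have hd := det4 g
  rw [h] at hd
  apply ext4 <;> simp only [mul_00, mul_01, mul_10, mul_11, hh_00, hh_01, hh_10, hh_11,
    inv_00, inv_01, inv_10, inv_11, h]
  · linear_combination hd
  · ring
  · ring
  · linear_combination hd

private theorem np0_bound {C : Set G} (hC : IsCompact C) :
    ∃ M : ℝ, 0 < M ∧ ∀ k ∈ C, ∀ i j, |k i j| ≤ M := by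
  have h1 : ∀ i j : Fin 2, ∃ M : ℝ, ∀ k ∈ C, |k i j| ≤ M := by
    intro i j
    obtain ⟨M, hM⟩ := hC.exists_bound_of_continuousOn (continuous_entry i j).continuousOn
    exact ⟨M, fun k hk => by simpa using hM k hk⟩
  choose M hM using h1
  refine ⟨1 + ∑ i, ∑ j, |M i j|, ?_, ?_⟩
  · have : 0 ≤ ∑ i, ∑ j, |M i j| := Finset.sum_nonneg fun i _ =>
      Finset.sum_nonneg fun j _ => abs_nonneg _
    linarith
  · intro k hk i j
    have h2 : |M i j| ≤ ∑ j, |M i j| :=
      Finset.single_le_sum (f := fun j => |M i j|) (fun j _ => abs_nonneg _) (Finset.mem_univ j)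
    have h3 : ∑ j, |M i j| ≤ ∑ i, ∑ j, |M i j| :=
      Finset.single_le_sum (f := fun i => ∑ j, |M i j|)
        (fun i _ => Finset.sum_nonneg fun j _ => abs_nonneg _) (Finset.mem_univ i)
    have h4 := hM i j k hk
    have h5 := le_abs_self (M i j)
    linarith

theorem not_upper (D : Subgroup G) {W : Set G} (hW : W ∈ 𝓝 (1 : G)) (hD : ∀ g ∈ D, g ∈ W → g = 1)
    (h10 : ∀ g ∈ D, g 1 0 = 0) {C : Set G} (hC : IsCompact C) (hCD : ∀ y : G, ∃ k ∈ C, k⁻¹ * y ∈ D) :
    False := by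
  obtain ⟨M, hM0, hM⟩ := np0_bound hC
  have hdet : ∀ g ∈ D, g 0 0 * g 1 1 = 1 := by
    intro g hg
    have h := det4 g
    rw [h10 g hg] at h
    linarith
  have hne : ∀ g ∈ D, g 0 0 ≠ 0 := by
    intro g hg h0
    have h := hdet g hg
    rw [h0, zero_mul] at h
    exact zero_ne_one h
  have hkey : ∀ y : G, y 1 0 = 0 → ∃ k ∈ C, k 1 0 = 0 ∧ k⁻¹ * y ∈ D := by
    intro y hy
    obtain ⟨k, hk, hkD⟩ := hCD y
    refine ⟨k, hk, ?_, hkD⟩
    have h1 := h10 _ hkD
    rw [mul_10, inv_10, hy, mul_zero, add_zero] at h1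
    have h2 := det4 y
    rw [hy, mul_zero, sub_zero] at h2
    have h3 : y 0 0 ≠ 0 := by
      intro h0
      rw [h0, zero_mul] at h2
      exact zero_ne_one h2
    rcases mul_eq_zero.mp h1 with h | h
    · linarith
    · exact absurd h h3
  -- step 1
  have step1 : ∀ ε : ℝ, 0 < ε → ∃ g ∈ D, |g 0 0| < ε := by
    intro ε hε
    obtain ⟨k, hk, -, hkD⟩ := hkey (aa (Real.log (ε / (2 * M)))) (by simp)
    refine ⟨_, hkD, ?_⟩
    have hpos : 0 < ε / (2 * M) := by positivity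
    rw [mul_00, inv_00, aa_00, aa_10, mul_zero, add_zero, Real.exp_log hpos, abs_mul,
      abs_of_pos hpos]
    calc |k 1 1| * (ε / (2 * M)) ≤ M * (ε / (2 * M)) :=
          mul_le_mul_of_nonneg_right (hM k hk 1 1) hpos.le
      _ = ε / 2 := by field_simp
      _ < ε := by linarith
  -- step 2
  have step2 : ∀ b : ℝ, hh b ∈ D → b = 0 := by
    intro b hb
    have h1 : ∀ᶠ t in 𝓝 (0 : ℝ), hh t ∈ W := by
      have h2 : Tendsto hh (𝓝 0) (𝓝 1) := by
        have := continuous_hh.tendsto 0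
        rwa [hh_zero] at this
      exact h2 hW
    obtain ⟨η, hη, hηW⟩ := Metric.eventually_nhds_iff.mp h1
    have hb1 : 0 < |b| + 1 := by positivity
    obtain ⟨g, hg, hgl⟩ := step1 (min 1 (η / (|b| + 1))) (lt_min one_pos (by positivity))
    have hg1 : |g 0 0| < 1 := lt_of_lt_of_le hgl (min_le_left _ _)
    have hg2 : |g 0 0| < η / (|b| + 1) := lt_of_lt_of_le hgl (min_le_right _ _)
    have hmem : hh ((g 0 0) ^ 2 * b) ∈ D := by
      rw [← np0_conj (h10 g hg) b]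
      exact D.mul_mem (D.mul_mem hg hb) (D.inv_mem hg)
    have hlt : |(g 0 0) ^ 2 * b| < η := by
      rw [abs_mul, abs_pow]
      have h3 : |g 0 0| ^ 2 ≤ |g 0 0| := by
        have := abs_nonneg (g 0 0)
        nlinarith
      have h4 : |g 0 0| * (|b| + 1) < η := by
        rwa [lt_div_iff₀ hb1] at hg2
      have h5 : |g 0 0| ^ 2 * |b| ≤ |g 0 0| * |b| :=
        mul_le_mul_of_nonneg_right h3 (abs_nonneg b)
      have h6 := abs_nonneg (g 0 0)
      nlinarith
    have h7 := hD _ hmem (hηW (by rwa [Real.dist_eq, sub_zero]))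
    rw [← hh_zero] at h7
    have h8 := hh_inj h7
    rcases mul_eq_zero.mp h8 with h | h
    · exact absurd (pow_eq_zero_iff two_ne_zero |>.mp h) (hne g hg)
    · exact h
  -- step 3
  have step3 : ∀ a ∈ D, ∀ b ∈ D, a * b = b * a := by
    intro a ha b hb
    have hab := D.mul_mem ha hb
    have hba := D.mul_mem hb ha
    have hg : (b * a)⁻¹ * (a * b) ∈ D := D.mul_mem (D.inv_mem hba) hab
    have h00 : ((b * a)⁻¹ * (a * b)) 0 0 = 1 := by
      rw [mul_00, inv_00, h10 _ hab, mul_zero, add_zero, mul_11, mul_00, h10 b hb]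
      have e1 := hdet a ha
      have e2 := hdet b hb
      linear_combination (b 0 0 * b 1 1) * e1 + e2
    have h11 : ((b * a)⁻¹ * (a * b)) 1 1 = 1 := by
      have := hdet _ hg
      rwa [h00, one_mul] at this
    have heq : (b * a)⁻¹ * (a * b) = hh (((b * a)⁻¹ * (a * b)) 0 1) := by
      apply ext4
      · rw [h00, hh_00]
      · rw [hh_01]
      · rw [h10 _ hg, hh_10]
      · rw [h11, hh_11]
    have h0 := step2 _ (heq ▸ hg)
    rw [h0, hh_zero] at heq
    rw [inv_mul_eq_one] at heq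
    exact heq.symm
  -- step 4
  obtain ⟨d, hd, hd1⟩ := step1 1 one_pos
  have hx := hdet d hd
  have hxx : d 1 1 - d 0 0 ≠ 0 := by
    intro h
    have h2 : d 0 0 * d 0 0 = 1 := by
      have : d 1 1 = d 0 0 := by linarith
      rwa [this] at hx
    have h3 : |d 0 0| * |d 0 0| = 1 := by rw [← abs_mul, h2, abs_one]
    have h4 := abs_nonneg (d 0 0)
    nlinarith
  have step4 : ∀ g ∈ D, g 0 1 = d 0 1 / (d 1 1 - d 0 0) * (g 1 1 - g 0 0) := by
    intro g hg
    have h := step3 g hg d hd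
    have h01 : (g * d) 0 1 = (d * g) 0 1 := by rw [h]
    rw [mul_01, mul_01] at h01
    rw [div_mul_eq_mul_div, eq_div_iff hxx]
    linarith
  -- step 5
  set κ := d 0 1 / (d 1 1 - d 0 0) with hκ
  have step5 : ∀ t : ℝ, |t| ≤ M * M + |κ| * (M * (M + M)) := by
    intro t
    obtain ⟨k, hk, hk0, hkD⟩ := hkey (hh t) (by simp)
    have h := step4 _ hkD
    rw [mul_01, mul_11, mul_00, inv_00, inv_01, inv_10, inv_11, hh_00, hh_01, hh_10, hh_11,
      hk0] at h
    have hkd := det4 k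
    rw [hk0, mul_zero, sub_zero] at hkd
    have ht : t = k 0 0 * k 0 1 + κ * (k 0 0 * (k 0 0 - k 1 1)) := by
      linear_combination (k 0 0) * h - t * hkd
    have b0 := hM k hk 0 0
    have b1 := hM k hk 0 1
    have b2 := hM k hk 1 1
    have e1 : |k 0 0 * k 0 1| ≤ M * M := by
      rw [abs_mul]
      exact mul_le_mul b0 b1 (abs_nonneg _) hM0.le
    have e2 : |κ * (k 0 0 * (k 0 0 - k 1 1))| ≤ |κ| * (M * (M + M)) := by
      rw [abs_mul, abs_mul]
      refine mul_le_mul_of_nonneg_left ?_ (abs_nonneg _)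
      refine mul_le_mul b0 ?_ (abs_nonneg _) hM0.le
      calc |k 0 0 - k 1 1| ≤ |k 0 0| + |k 1 1| := abs_sub _ _
        _ ≤ M + M := add_le_add b0 b2
    rw [ht]
    exact (abs_add_le _ _).trans (add_le_add e1 e2)
  have hfin := step5 (M * M + |κ| * (M * (M + M)) + 1)
  have hle := le_abs_self (M * M + |κ| * (M * (M + M)) + 1)
  linarith

end Pool.Agent.MOM.Dyn
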