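import Pool.Agent.MOM.Dyn.NotPar

/-!
MOM/Dyn/PInv: (D3)(i), a nonempty closed subset of `G ⧸ Γ` which is invariant under the upper
triangular group is everything.

PROOF of `pinv_univ`. Suppose `x₀ ∉ Y`. `Yᶜ` is open, `w ↦ vv w • x₀` is continuous: there is
`w0 > 0` with `vv w • x₀ ∉ Y` for `|w| < w0`.
(1) If `g 1 0 = 0` and `y ∈ Y` then `g • y ∈ Y`. Proof: `g 0 0 * g 1 1 = 1`. If `g 0 0 > 0` then
`g = hh (g 0 1 * g 0 0) * aa (log (g 0 0))` (`ext4`), use `hH`, `hA`. If `g 0 0 < 0` then `-g` has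
positive diagonal, and `g • y = (-g) • y`: for `y = ↑y₀`, `(-g * y₀)⁻¹ * (g * y₀) = -1 ∈ Γ` by
`hneg` (`-1` is central; the element `-1 : G`, its matrix is `-1`).
(2) For `n : ℕ` put `z n = aa (-n) • x₀`. If `|w| < w0 * exp (2 n)` then `vv w • z n ∉ Y`:
`vv w * aa (-n) = aa (-n) * vv (exp (-2n) w)` (`aa_mul_vv` with `s = -n`:
`aa (-n) * vv w' = vv (exp (2 n) * w') * aa (-n)`), `|exp (-2n) w| < w0`, and `aa (-n) • u ∈ Y`
implies `u = aa n • aa (-n) • u ∈ Y`.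
(3) By `exists_compact_lift` choose `zt n ∈ C` with `↑(zt n) = z n`; by compactness
(`IsCompact.tendsto_subseq`, `G` is first countable) `zt (φ k) → a ∈ C`. Take `y₀ : G` with
`↑y₀ ∈ Y`, `g = y₀ * a⁻¹`. For `γ ∈ Γ` put `g' k = y₀ * γ * (zt (φ k))⁻¹`. Then
`g' k • z (φ k) = ↑(y₀ * γ) = ↑y₀ ∈ Y`. Claim: `w0 * exp (2 φ k) * |(g' k) 1 1| ≤ |(g' k) 1 0|`.
Otherwise `d = (g' k) 1 1 ≠ 0`, `w = (g' k) 1 0 / d` has `|w| < w0 * exp (2 φ k)`, and
`P = g' k * vv (-w)` has `P 1 0 = 0`, `P⁻¹ 1 0 = 0`, so `vv w • z (φ k) = P⁻¹ • (g' k • z (φ k)) ∈ Y` by (1),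
contradicting (2).
(4) Limit `k → ∞`: `g' k → y₀ * γ * a⁻¹` and `exp (2 φ k) → ∞`, so
`(y₀ * γ * a⁻¹) 1 1 = 0` for all `γ ∈ Γ`. Write `(p, q) = (a⁻¹ 0 1, a⁻¹ 1 1)` (a nonzero vector) and
`(r0, r1) = (y₀ 1 0, y₀ 1 1)` (nonzero): `r0 (γ 0 0 p + γ 0 1 q) + r1 (γ 1 0 p + γ 1 1 q) = 0` for all
`γ ∈ Γ`, and for `γ = 1`: `r0 p + r1 q = 0`. So `(r0, r1)` is proportional to `(q, -p)` and
`(γ 0 0 p + γ 0 1 q) q = (γ 1 0 p + γ 1 1 q) p`. `not_parabolic` gives `False`.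
-/

set_option autoImplicit false

namespace Pool.Agent.MOM.Dyn

open MeasureTheory Filter Topology Set

variable {Γ : Subgroup G}

private theorem pinv_pos {Y : Set (G ⧸ Γ)} (hH : ∀ t, ∀ y ∈ Y, hh t • y ∈ Y)
    (hA : ∀ s, ∀ y ∈ Y, aa s • y ∈ Y) {g : G} (hg : g 1 0 = 0) (hpos : 0 < g 0 0)
    {y : G ⧸ Γ} (hy : y ∈ Y) : g • y ∈ Y := by
  have hd : g 0 0 * g 1 1 = 1 := by
    have h := det4 g
    rw [hg] at h
    linarith
  have he : g = hh (g 0 1 * g 0 0) * aa (Real.log (g 0 0)) := by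
    have h11 : g 1 1 = (g 0 0)⁻¹ := by
      exact eq_inv_of_mul_eq_one_right hd
    apply ext4
    · simp only [mul_00, hh_00, hh_01, aa_00, aa_10, Real.exp_log hpos]
      ring
    · simp only [mul_01, hh_00, hh_01, aa_01, aa_11, Real.exp_neg, Real.exp_log hpos]
      field_simp
      ring
    · simp only [mul_10, hh_10, hh_11, aa_00, aa_10, hg]
      ring
    · simp only [mul_11, hh_10, hh_11, aa_01, aa_11, Real.exp_neg, Real.exp_log hpos, h11]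
      ring
  rw [he, mul_smul]
  exact hH _ _ (hA _ _ hy)

private def mone : G := mk4 (-1) 0 0 (-1) (by ring)

private theorem mone_smul (hneg : ∀ z : G, (z : Matrix (Fin 2) (Fin 2) ℝ) = -1 → z ∈ Γ)
    (y : G ⧸ Γ) : mone • y = y := by
  induction y using QuotientGroup.induction_on with
  | H y =>
    have h1 : mone ∈ Γ := by
      apply hneg
      ext i j
      fin_cases i <;> fin_cases j <;> simp [mone, mk4]
    have h2 : mone * y = y * mone := by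
      apply ext4 <;> simp only [mul_00, mul_01, mul_10, mul_11, mone, mk4_00, mk4_01, mk4_10,
        mk4_11] <;> ring
    change ((mone * y : G) : G ⧸ Γ) = (y : G ⧸ Γ)
    rw [h2]
    exact QuotientGroup.mk_mul_of_mem y h1

/-- (1) of the proof -/
theorem pinv_upper (hneg : ∀ z : G, (z : Matrix (Fin 2) (Fin 2) ℝ) = -1 → z ∈ Γ)
    {Y : Set (G ⧸ Γ)} (hH : ∀ t, ∀ y ∈ Y, hh t • y ∈ Y) (hA : ∀ s, ∀ y ∈ Y, aa s • y ∈ Y)
    {g : G} (hg : g 1 0 = 0) {y : G ⧸ Γ} (hy : y ∈ Y) : g • y ∈ Y := by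
  have hd : g 0 0 * g 1 1 = 1 := by
    have h := det4 g
    rw [hg] at h
    linarith
  have hne : g 0 0 ≠ 0 := by
    intro h
    rw [h] at hd
    linarith
  rcases lt_or_gt_of_ne hne with hlt | hgt
  · have h1 : (g * mone) • y ∈ Y := by
      apply pinv_pos hH hA _ _ hy
      · simp only [mul_10, mone, mk4_00, mk4_10, hg]
        ring
      · simp only [mul_00, mone, mk4_00, mk4_10]
        linarith
    rwa [mul_smul, mone_smul hneg] at h1
  · exact pinv_pos hH hA hg hgt hy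

/-- (2) of the proof -/
theorem pinv_out {Y : Set (G ⧸ Γ)} (hA : ∀ s, ∀ y ∈ Y, aa s • y ∈ Y) {x₀ : G ⧸ Γ} {w0 : ℝ}
    (hw : ∀ w, |w| < w0 → vv w • x₀ ∉ Y) (n : ℕ) {w : ℝ} (hwn : |w| < w0 * Real.exp (2 * n)) :
    vv w • aa (-(n : ℝ)) • x₀ ∉ Y := by
  intro hmem
  have he : Real.exp (-(2 * -(n : ℝ))) * (Real.exp (-(2 * n)) * w) = w := by
    rw [← mul_assoc, ← Real.exp_add]
    have : -(2 * -(n : ℝ)) + -(2 * n) = 0 := by ring
    rw [this, Real.exp_zero, one_mul]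
  have h1 : vv w * aa (-(n : ℝ)) = aa (-(n : ℝ)) * vv (Real.exp (-(2 * n)) * w) := by
    rw [aa_mul_vv, he]
  have h2 : |Real.exp (-(2 * (n : ℝ))) * w| < w0 := by
    rw [abs_mul, abs_of_pos (Real.exp_pos _)]
    have h3 : Real.exp (-(2 * (n : ℝ))) * |w| <
        Real.exp (-(2 * (n : ℝ))) * (w0 * Real.exp (2 * n)) :=
      mul_lt_mul_of_pos_left hwn (Real.exp_pos _)
    have h4 : Real.exp (-(2 * (n : ℝ))) * (w0 * Real.exp (2 * n)) = w0 := by
      have h5 : Real.exp (-(2 * (n : ℝ))) * Real.exp (2 * n) = 1 := by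
        rw [← Real.exp_add, neg_add_cancel, Real.exp_zero]
      linear_combination w0 * h5
    linarith
  rw [← mul_smul, h1, mul_smul] at hmem
  have h6 := hA n _ hmem
  rw [← mul_smul, ← aa_add, add_neg_cancel, aa_zero, one_smul] at h6
  exact hw _ h2 h6

theorem pinv_univ [DiscreteTopology Γ] [CompactSpace (G ⧸ Γ)]
    (hneg : ∀ z : G, (z : Matrix (Fin 2) (Fin 2) ℝ) = -1 → z ∈ Γ) {Y : Set (G ⧸ Γ)}
    (hYc : IsClosed Y) (hYn : Y.Nonempty) (hH : ∀ t, ∀ y ∈ Y, hh t • y ∈ Y)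
    (hA : ∀ s, ∀ y ∈ Y, aa s • y ∈ Y) : Y = univ := by
  by_contra hne
  obtain ⟨x₀, hx₀⟩ := (Set.ne_univ_iff_exists_notMem Y).mp hne
  -- the neighbourhood of `0`
  have hcont : Continuous fun w : ℝ => vv w • x₀ := by
    induction x₀ using QuotientGroup.induction_on with
    | H x =>
      have h1 : (fun w : ℝ => vv w • (x : G ⧸ Γ)) = fun w : ℝ => ((vv w * x : G) : G ⧸ Γ) := rfl
      rw [h1]
      exact QuotientGroup.continuous_mk.comp (continuous_vv.mul continuous_const)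
  obtain ⟨w0, hw0, hw⟩ : ∃ w0 : ℝ, 0 < w0 ∧ ∀ w, |w| < w0 → vv w • x₀ ∉ Y := by
    have hopen : IsOpen ((fun w : ℝ => vv w • x₀) ⁻¹' Yᶜ) := hYc.isOpen_compl.preimage hcont
    have h0 : (0 : ℝ) ∈ (fun w : ℝ => vv w • x₀) ⁻¹' Yᶜ := by
      have hv : vv 0 = 1 := by apply ext4 <;> simp
      simpa [hv] using hx₀
    obtain ⟨r, hr, hball⟩ := Metric.isOpen_iff.mp hopen 0 h0
    refine ⟨r, hr, fun w hw => ?_⟩
    have : w ∈ Metric.ball (0 : ℝ) r := by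
      simpa [Metric.mem_ball, Real.dist_eq] using hw
    exact hball this
  obtain ⟨C, hC, hlift⟩ := exists_compact_lift Γ
  choose zt hzC hz using fun n : ℕ => hlift (aa (-(n : ℝ)) • x₀)
  obtain ⟨a, haC, φ, hφ, hlim⟩ := hC.tendsto_subseq hzC
  obtain ⟨y, hy⟩ := hYn
  obtain ⟨y₀, rfl⟩ := QuotientGroup.mk_surjective y
  -- the claim
  have claim : ∀ γ ∈ Γ, ∀ k : ℕ,
      w0 * Real.exp (2 * (φ k : ℕ)) * |(y₀ * γ * (zt (φ k))⁻¹) 1 1| ≤
        |(y₀ * γ * (zt (φ k))⁻¹) 1 0| := by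
    intro γ hγ k
    by_contra hcon
    rw [not_le] at hcon
    set g' : G := y₀ * γ * (zt (φ k))⁻¹ with hg'
    have hd : g' 1 1 ≠ 0 := by
      intro h
      rw [h, abs_zero, mul_zero] at hcon
      exact absurd hcon (not_lt.mpr (abs_nonneg _))
    set w : ℝ := g' 1 0 / g' 1 1 with hwdef
    have hwlt : |w| < w0 * Real.exp (2 * (φ k : ℕ)) := by
      rw [hwdef, abs_div, div_lt_iff₀ (abs_pos.mpr hd)]
      exact hcon
    have hout := pinv_out hA hw (φ k) hwlt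
    have hgy : g' • (aa (-((φ k : ℕ) : ℝ)) • x₀) ∈ Y := by
      rw [← hz (φ k)]
      have h1 : g' • ((zt (φ k) : G) : G ⧸ Γ) = ((y₀ * γ : G) : G ⧸ Γ) := by
        change ((g' * zt (φ k) : G) : G ⧸ Γ) = _
        rw [hg', inv_mul_cancel_right]
      rw [h1, QuotientGroup.mk_mul_of_mem y₀ hγ]
      exact hy
    have hP : (vv w * g'⁻¹) 1 0 = 0 := by
      rw [mul_10, vv_10, vv_11, inv_00, inv_10, hwdef]
      field_simp
      ring
    have h2 := pinv_upper hneg hH hA hP hgy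
    rw [← mul_smul, inv_mul_cancel_right] at h2
    exact hout h2
  -- the limit
  have hzero : ∀ γ ∈ Γ, (y₀ * γ * a⁻¹) 1 1 = 0 := by
    intro γ hγ
    have hc : Tendsto (fun k => y₀ * γ * (zt (φ k))⁻¹) atTop (𝓝 (y₀ * γ * a⁻¹)) :=
      (tendsto_const_nhds (x := y₀ * γ)).mul hlim.inv
    have h11 : Tendsto (fun k => |(y₀ * γ * (zt (φ k))⁻¹) 1 1|) atTop
        (𝓝 |(y₀ * γ * a⁻¹) 1 1|) :=
      (((continuous_entry 1 1).tendsto _).comp hc).abs
    have h10 : Tendsto (fun k => |(y₀ * γ * (zt (φ k))⁻¹) 1 0|) atTop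
        (𝓝 |(y₀ * γ * a⁻¹) 1 0|) :=
      (((continuous_entry 1 0).tendsto _).comp hc).abs
    have hexp : Tendsto (fun k => (w0 * Real.exp (2 * (φ k : ℕ)))⁻¹) atTop (𝓝 0) := by
      apply Tendsto.inv_tendsto_atTop
      apply Tendsto.const_mul_atTop hw0
      apply Real.tendsto_exp_atTop.comp
      apply Tendsto.const_mul_atTop (by norm_num : (0 : ℝ) < 2)
      exact tendsto_natCast_atTop_atTop.comp hφ.tendsto_atTop
    have hup : Tendsto (fun k => (w0 * Real.exp (2 * (φ k : ℕ)))⁻¹ *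
        |(y₀ * γ * (zt (φ k))⁻¹) 1 0|) atTop (𝓝 (0 * |(y₀ * γ * a⁻¹) 1 0|)) := hexp.mul h10
    rw [zero_mul] at hup
    have hle : |(y₀ * γ * a⁻¹) 1 1| ≤ 0 := by
      refine le_of_tendsto_of_tendsto' h11 hup (fun k => ?_)
      have hpos : 0 < w0 * Real.exp (2 * (φ k : ℕ)) := mul_pos hw0 (Real.exp_pos _)
      rw [le_inv_mul_iff₀ hpos]
      exact claim γ hγ k
    exact abs_nonpos_iff.mp hle
  -- the common eigenvector
  have hrow : ∀ γ ∈ Γ, y₀ 1 0 * (γ 0 0 * a⁻¹ 0 1 + γ 0 1 * a⁻¹ 1 1) +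
      y₀ 1 1 * (γ 1 0 * a⁻¹ 0 1 + γ 1 1 * a⁻¹ 1 1) = 0 := by
    intro γ hγ
    have h := hzero γ hγ
    rw [mul_11, mul_10, mul_11] at h
    linear_combination h
  set p : ℝ := a⁻¹ 0 1 with hp
  set q : ℝ := a⁻¹ 1 1 with hq
  have h1 := hrow 1 Γ.one_mem
  have e00 : (1 : G) 0 0 = 1 := rfl
  have e01 : (1 : G) 0 1 = 0 := rfl
  have e10 : (1 : G) 1 0 = 0 := rfl
  have e11 : (1 : G) 1 1 = 1 := rfl
  rw [e00, e01, e10, e11] at h1
  have hdy := det4 y₀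
  have hda := det4 a⁻¹
  rw [← hp, ← hq] at hda
  apply not_parabolic Γ (p := p) (q := q)
  · by_contra hcon
    have hp0 : p = 0 := by nlinarith [sq_nonneg p, sq_nonneg q]
    have hq0 : q = 0 := by nlinarith [sq_nonneg p, sq_nonneg q]
    rw [hp0, hq0] at hda
    linarith
  · intro γ hγ
    have h2 := hrow γ hγ
    set A : ℝ := γ 0 0 * p + γ 0 1 * q with hAdef
    set B : ℝ := γ 1 0 * p + γ 1 1 * q with hBdef
    -- `r0 p + r1 q = 0`, `r0 A + r1 B = 0`, `(r0, r1) ≠ 0`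
    have h3 : y₀ 1 0 * (A * q - B * p) = 0 := by
      linear_combination q * h2 - B * h1
    have h4 : y₀ 1 1 * (A * q - B * p) = 0 := by
      linear_combination (-p) * h2 + A * h1
    have h5 : A * q - B * p = 0 := by
      linear_combination (-(y₀ 0 1)) * h3 + (y₀ 0 0) * h4 - (A * q - B * p) * hdy
    linarith

end Pool.Agent.MOM.Dyn
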