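import Pool.Agent.MOM.Dyn.SReal

/-!
MOM/Dyn/SPf: (S), proof.

PROOF of `hh_speed`: `aa_mul_hh` with `2 σ = log ρ`.
PROOF of `samp_cx` (equal speeds, complex functions): write `f1 = u1 + i v1`, `f2 = u2 + i v2` (real
continuous functions `Complex.re ∘ f1` ..): `f1 z * conj (f2 z') = (u1 u2 + v1 v2) + i (v1 u2 - u1 v2)`.
Apply `samp_real` with `ε/4` to the four pairs `(u1,u2), (v1,v2), (v1,u2), (u1,v2)` and take the
maximum of the four `N0`; the norm of the difference is at most the sum of the four absolute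
values. (`Complex.ofReal` commutes with finite sums and interval integrals:
`intervalIntegral.integral_ofReal`; the integrand is the sum of four continuous terms.)
PROOF of `samp_speed`: `c = t₀ r ≠ 0`, `ρ = r'/r > 0`, `σ = log ρ / 2`. By `hh_speed`
`hh (t₀ r' x) • z' = aa σ • hh (t₀ r x) • (aa (-σ) • z')` (`aa_neg`). Apply `samp_cx` to `f` and
`f ∘ (aa σ • ·)` at the points `z` and `aa (-σ) • z'`.
-/

set_option autoImplicit false

namespace Pool.Agent.MOM.Dyn

open MeasureTheory Filter Topology Set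
open scoped ComplexConjugate

variable {Γ : Subgroup G}

theorem hh_speed {ρ : ℝ} (hρ : 0 < ρ) (t : ℝ) :
    hh (ρ * t) = aa (Real.log ρ / 2) * hh t * aa (-(Real.log ρ / 2)) := by
  have e : Real.exp (2 * (Real.log ρ / 2)) = ρ := by
    rw [mul_div_cancel₀ _ (two_ne_zero), Real.exp_log hρ]
  rw [aa_mul_hh, e, aa_neg, mul_inv_cancel_right]

theorem samp_cx [DiscreteTopology Γ] [CompactSpace (G ⧸ Γ)]
    (hneg : ∀ z : G, (z : Matrix (Fin 2) (Fin 2) ℝ) = -1 → z ∈ Γ) {c : ℝ} (hc : c ≠ 0)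
    {f1 f2 : G ⧸ Γ → ℂ} (h1 : Continuous f1) (h2 : Continuous f2) {ε : ℝ} (hε : 0 < ε) :
    ∃ N0 : ℕ, ∀ N : ℕ, N0 ≤ N → ∀ z1 z2 : G ⧸ Γ,
      ‖(∑ n ∈ Finset.range N, f1 (hh (c * n) • z1) * conj (f2 (hh (c * n) • z2))) -
        ∫ x in (0 : ℝ)..N, f1 (hh (c * x) • z1) * conj (f2 (hh (c * x) • z2))‖ ≤ ε * N := by
  have hu1 : Continuous fun z => (f1 z).re := Complex.continuous_re.comp h1
  have hv1 : Continuous fun z => (f1 z).im := Complex.continuous_im.comp h1
  have hu2 : Continuous fun z => (f2 z).re := Complex.continuous_re.comp h2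
  have hv2 : Continuous fun z => (f2 z).im := Complex.continuous_im.comp h2
  have hε4 : 0 < ε / 4 := by positivity
  obtain ⟨N1, hN1⟩ := samp_real hneg hc hu1 hu2 hε4
  obtain ⟨N2, hN2⟩ := samp_real hneg hc hv1 hv2 hε4
  obtain ⟨N3, hN3⟩ := samp_real hneg hc hv1 hu2 hε4
  obtain ⟨N4, hN4⟩ := samp_real hneg hc hu1 hv2 hε4
  refine ⟨max (max N1 N2) (max N3 N4), fun N hN z1 z2 => ?_⟩
  have a1 := hN1 N (((le_max_left _ _).trans (le_max_left _ _)).trans hN) z1 z2
  have a2 := hN2 N (((le_max_right _ _).trans (le_max_left _ _)).trans hN) z1 z2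
  have a3 := hN3 N (((le_max_left _ _).trans (le_max_right _ _)).trans hN) z1 z2
  have a4 := hN4 N (((le_max_right _ _).trans (le_max_right _ _)).trans hN) z1 z2
  have hcx : Continuous fun x : ℝ => hh (c * x) :=
    continuous_hh.comp (continuous_const.mul continuous_id)
  have hz : ∀ z : G ⧸ Γ, Continuous fun x : ℝ => hh (c * x) • z := fun z =>
    hcx.smul continuous_const
  have hF : Continuous fun x : ℝ => f1 (hh (c * x) • z1) * conj (f2 (hh (c * x) • z2)) :=
    (h1.comp (hz z1)).mul (Complex.continuous_conj.comp (h2.comp (hz z2)))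
  have hFi := hF.intervalIntegrable (μ := volume) 0 (N : ℝ)
  have ii : ∀ {g k : G ⧸ Γ → ℝ}, Continuous g → Continuous k → IntervalIntegrable
      (fun x : ℝ => g (hh (c * x) • z1) * k (hh (c * x) • z2)) volume 0 (N : ℝ) := by
    intro g k hg hk
    exact ((hg.comp (hz z1)).mul (hk.comp (hz z2))).intervalIntegrable _ _
  set D : ℂ := (∑ n ∈ Finset.range N, f1 (hh (c * n) • z1) * conj (f2 (hh (c * n) • z2))) -
        ∫ x in (0 : ℝ)..N, f1 (hh (c * x) • z1) * conj (f2 (hh (c * x) • z2)) with hD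
  have hre : D.re = ((∑ n ∈ Finset.range N, (f1 (hh (c * n) • z1)).re *
      (f2 (hh (c * n) • z2)).re) -
        ∫ x in (0 : ℝ)..N, (f1 (hh (c * x) • z1)).re * (f2 (hh (c * x) • z2)).re) +
      ((∑ n ∈ Finset.range N, (f1 (hh (c * n) • z1)).im * (f2 (hh (c * n) • z2)).im) -
        ∫ x in (0 : ℝ)..N, (f1 (hh (c * x) • z1)).im * (f2 (hh (c * x) • z2)).im) := by
    have e1 := Complex.reCLM.intervalIntegral_comp_comm hFi
    have e2 : (∫ x in (0 : ℝ)..N, f1 (hh (c * x) • z1) * conj (f2 (hh (c * x) • z2))).re =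
        ∫ x in (0 : ℝ)..N, ((f1 (hh (c * x) • z1)).re * (f2 (hh (c * x) • z2)).re +
          (f1 (hh (c * x) • z1)).im * (f2 (hh (c * x) • z2)).im) := by
      rw [← Complex.reCLM_apply, ← e1]
      refine intervalIntegral.integral_congr fun x _ => ?_
      simp only [Complex.reCLM_apply, Complex.mul_re, Complex.conj_re, Complex.conj_im]
      ring
    rw [hD, Complex.sub_re, Complex.re_sum, e2,
      intervalIntegral.integral_add (ii hu1 hu2) (ii hv1 hv2)]
    have e3 : ∑ n ∈ Finset.range N, (f1 (hh (c * n) • z1) * conj (f2 (hh (c * n) • z2))).re =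
        ∑ n ∈ Finset.range N, (f1 (hh (c * n) • z1)).re * (f2 (hh (c * n) • z2)).re +
        ∑ n ∈ Finset.range N, (f1 (hh (c * n) • z1)).im * (f2 (hh (c * n) • z2)).im := by
      rw [← Finset.sum_add_distrib]
      refine Finset.sum_congr rfl fun n _ => ?_
      simp only [Complex.mul_re, Complex.conj_re, Complex.conj_im]
      ring
    rw [e3]
    ring
  have him : D.im = ((∑ n ∈ Finset.range N, (f1 (hh (c * n) • z1)).im *
      (f2 (hh (c * n) • z2)).re) -
        ∫ x in (0 : ℝ)..N, (f1 (hh (c * x) • z1)).im * (f2 (hh (c * x) • z2)).re) -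
      ((∑ n ∈ Finset.range N, (f1 (hh (c * n) • z1)).re * (f2 (hh (c * n) • z2)).im) -
        ∫ x in (0 : ℝ)..N, (f1 (hh (c * x) • z1)).re * (f2 (hh (c * x) • z2)).im) := by
    have e1 := Complex.imCLM.intervalIntegral_comp_comm hFi
    have e2 : (∫ x in (0 : ℝ)..N, f1 (hh (c * x) • z1) * conj (f2 (hh (c * x) • z2))).im =
        ∫ x in (0 : ℝ)..N, ((f1 (hh (c * x) • z1)).im * (f2 (hh (c * x) • z2)).re -
          (f1 (hh (c * x) • z1)).re * (f2 (hh (c * x) • z2)).im) := by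
      rw [← Complex.imCLM_apply, ← e1]
      refine intervalIntegral.integral_congr fun x _ => ?_
      simp only [Complex.imCLM_apply, Complex.mul_im, Complex.conj_re, Complex.conj_im]
      ring
    rw [hD, Complex.sub_im, Complex.im_sum, e2,
      intervalIntegral.integral_sub (ii hv1 hu2) (ii hu1 hv2)]
    have e3 : ∑ n ∈ Finset.range N, (f1 (hh (c * n) • z1) * conj (f2 (hh (c * n) • z2))).im =
        ∑ n ∈ Finset.range N, (f1 (hh (c * n) • z1)).im * (f2 (hh (c * n) • z2)).re -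
        ∑ n ∈ Finset.range N, (f1 (hh (c * n) • z1)).re * (f2 (hh (c * n) • z2)).im := by
      rw [← Finset.sum_sub_distrib]
      refine Finset.sum_congr rfl fun n _ => ?_
      simp only [Complex.mul_im, Complex.conj_re, Complex.conj_im]
      ring
    rw [e3]
    ring
  have b1 := Complex.norm_le_abs_re_add_abs_im D
  have b2 : |D.re| ≤ ε / 4 * N + ε / 4 * N := by
    rw [hre]
    exact (abs_add_le _ _).trans (add_le_add a1 a2)
  have b3 : |D.im| ≤ ε / 4 * N + ε / 4 * N := by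
    rw [him]
    exact (abs_sub _ _).trans (add_le_add a3 a4)
  have e : ε * N = (ε / 4 * N + ε / 4 * N) + (ε / 4 * N + ε / 4 * N) := by ring
  rw [e]
  exact b1.trans (add_le_add b2 b3)

theorem samp_speed [DiscreteTopology Γ] [CompactSpace (G ⧸ Γ)]
    (hneg : ∀ z : G, (z : Matrix (Fin 2) (Fin 2) ℝ) = -1 → z ∈ Γ)
    {t₀ r r' : ℝ} (ht : t₀ ≠ 0) (hr : 0 < r) (hr' : 0 < r') {f : G ⧸ Γ → ℂ} (hf : Continuous f)
    {ε : ℝ} (hε : 0 < ε) :
    ∃ L0 : ℕ, ∀ L : ℕ, L0 ≤ L → ∀ z z' : G ⧸ Γ,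
      ‖(∑ m ∈ Finset.range L, f (hh (t₀ * r * m) • z) * conj (f (hh (t₀ * r' * m) • z'))) -
        ∫ x in (0 : ℝ)..L, f (hh (t₀ * r * x) • z) * conj (f (hh (t₀ * r' * x) • z'))‖
        ≤ ε * L := by
  have hρ : 0 < r' / r := by positivity
  have key : ∀ (x : ℝ) (z' : G ⧸ Γ), hh (t₀ * r' * x) • z' =
      aa (Real.log (r' / r) / 2) • hh (t₀ * r * x) • aa (-(Real.log (r' / r) / 2)) • z' := by
    intro x z'
    have e : t₀ * r' * x = r' / r * (t₀ * r * x) := by
      field_simp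
    rw [e, hh_speed hρ, mul_smul, mul_smul]
  have hg : Continuous fun y : G ⧸ Γ => f (aa (Real.log (r' / r) / 2) • y) :=
    hf.comp (continuous_const_smul _)
  obtain ⟨N0, hN0⟩ := samp_cx hneg (mul_ne_zero ht hr.ne') hf hg hε
  refine ⟨N0, fun L hL z z' => ?_⟩
  have h1 := hN0 L hL z (aa (-(Real.log (r' / r) / 2)) • z')
  simp only [← key] at h1
  exact h1

end Pool.Agent.MOM.Dyn
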