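import Pool.Agent.MOM.Dyn.Six

/-!
MOM/Dyn/SReal: (S) for equal speeds and real functions.

PROOF of `samp_real`. Take `borel` as measurable structure on `G ⧸ Γ` (`letI := borel _`,
`haveI : BorelSpace _ := ⟨rfl⟩`). `Z = (G ⧸ Γ) × (G ⧸ Γ)`, `T z = (hh c • z.1, hh c • z.2)`,
`Φ z = f1 z.1 * f2 z.2`, `ψ z = Φ z - ∫ x in 0..1, f1 (hh (c x) • z.1) * f2 (hh (c x) • z.2)`; `ψ` is
continuous (`intervalIntegral.continuous_parametric_intervalIntegral_of_continuous'`). For an ergodic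
probability measure `ν` of `T`: `∫ ψ dν = 0`, by Fubini (everything continuous and bounded) and
`six_main` for `t = c x`. `erg_unif` gives `N0` with `|∑ n < N, ψ (T^[n] z)| ≤ ε N`. By `iter_hh2`
`ψ (T^[n] z) = f1 (hh (c n) • z.1) * f2 (hh (c n) • z.2) - ∫ x in n..n+1, f1 (hh (c x) • z.1) *
f2 (hh (c x) • z.2)` (shift of the variable, `hh_add`), and the integrals add up
(`intervalIntegral.sum_integral_adjacent_intervals`).
-/

set_option autoImplicit false

namespace Pool.Agent.MOM.Dyn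

open MeasureTheory Filter Topology Set

variable {Γ : Subgroup G}

private theorem sreal_aux {Z : Type*} [TopologicalSpace Z] [CompactSpace Z] [T2Space Z]
    [SecondCountableTopology Z] [MeasurableSpace Z] [BorelSpace Z] {T : Z → Z}
    (hT : Continuous T) {P : Z → ℝ → ℝ} (hP : Continuous (Function.uncurry P))
    (hTP : ∀ (n : ℕ) (x : ℝ) (z : Z), P (T^[n] z) x = P z (x + n))
    (hν : ∀ ν : Measure Z, IsProbabilityMeasure ν → Ergodic T ν →
      ∀ x, ∫ z, P z x ∂ν = ∫ z, P z 0 ∂ν) {B : ℝ} (hB : ∀ z x, ‖P z x‖ ≤ B) {ε : ℝ}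
    (hε : 0 < ε) :
    ∃ N0 : ℕ, ∀ N : ℕ, N0 ≤ N → ∀ z : Z,
      |(∑ n ∈ Finset.range N, P z n) - ∫ x in (0 : ℝ)..N, P z x| ≤ ε * N := by
  have hPx : ∀ z, Continuous fun x => P z x := fun z =>
    hP.comp (continuous_const.prodMk continuous_id)
  have hPz : ∀ x, Continuous fun z => P z x := fun x =>
    hP.comp (continuous_id.prodMk continuous_const)
  have hI : Continuous fun z => ∫ x in (0 : ℝ)..1, P z x :=
    intervalIntegral.continuous_parametric_intervalIntegral_of_continuous' hP 0 1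
  let ψ : C(Z, ℝ) := ⟨fun z => P z 0 - ∫ x in (0 : ℝ)..1, P z x, (hPz 0).sub hI⟩
  have hψ : ∀ ν : Measure Z, IsProbabilityMeasure ν → Ergodic T ν → ∫ z, ψ z ∂ν = 0 := by
    intro ν hν1 he
    have e0 := hν ν hν1 he
    have hint : Integrable (Function.uncurry P) (ν.prod (volume.restrict (Ioc 0 1))) := by
      have : IsFiniteMeasure (volume.restrict (Ioc (0 : ℝ) 1)) :=
        ⟨by rw [Measure.restrict_apply_univ, Real.volume_Ioc]; exact ENNReal.ofReal_lt_top⟩
      refine Integrable.of_bound (hP.aestronglyMeasurable) B ?_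
      exact Eventually.of_forall fun p => hB _ _
    have e1 : ∀ z, (∫ x in (0 : ℝ)..1, P z x) = ∫ x in Ioc (0 : ℝ) 1, P z x := fun z =>
      intervalIntegral.integral_of_le zero_le_one
    have e3 : ∫ z, (∫ x in (0 : ℝ)..1, P z x) ∂ν = ∫ z, P z 0 ∂ν := by
      simp only [e1]
      rw [integral_integral_swap hint]
      simp only [e0]
      rw [integral_const, smul_eq_mul, measureReal_restrict_apply_univ, Real.volume_real_Ioc,
        sub_zero, max_eq_left zero_le_one, one_mul]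
    have hF : Integrable (fun z => ∫ x in (0 : ℝ)..1, P z x) ν := by
      simp only [e1]
      exact hint.integral_prod_left
    have hF0 : Integrable (fun z => P z 0) ν :=
      Integrable.of_bound ((hPz 0).aestronglyMeasurable) B (Eventually.of_forall fun z => hB z 0)
    show ∫ z, (P z 0 - ∫ x in (0 : ℝ)..1, P z x) ∂ν = 0
    rw [integral_sub hF0 hF, e3, sub_self]
  obtain ⟨N0, hN0⟩ := erg_unif hT ψ hψ hε
  refine ⟨N0, fun N hN z => ?_⟩
  have key := hN0 N hN z
  have hterm : ∀ n : ℕ, ψ (T^[n] z) = P z n -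
      ∫ x in (n : ℝ)..((n + 1 : ℕ) : ℝ), P z x := by
    intro n
    show P (T^[n] z) 0 - (∫ x in (0 : ℝ)..1, P (T^[n] z) x) = _
    simp only [hTP]
    rw [intervalIntegral.integral_comp_add_right (fun x => P z x) (n : ℝ), zero_add]
    congr 2
    push_cast
    ring
  rw [Finset.sum_congr rfl fun n _ => hterm n, Finset.sum_sub_distrib] at key
  have hsum : ∑ n ∈ Finset.range N, (∫ x in (n : ℝ)..((n + 1 : ℕ) : ℝ), P z x) =
      ∫ x in ((0 : ℕ) : ℝ)..(N : ℝ), P z x :=
    intervalIntegral.sum_integral_adjacent_intervals (a := fun n : ℕ => (n : ℝ))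
      (fun k _ => (hPx z).intervalIntegrable _ _)
  rw [hsum, Nat.cast_zero] at key
  exact key

theorem samp_real [DiscreteTopology Γ] [CompactSpace (G ⧸ Γ)]
    (hneg : ∀ z : G, (z : Matrix (Fin 2) (Fin 2) ℝ) = -1 → z ∈ Γ) {c : ℝ} (hc : c ≠ 0)
    {f1 f2 : G ⧸ Γ → ℝ} (h1 : Continuous f1) (h2 : Continuous f2) {ε : ℝ} (hε : 0 < ε) :
    ∃ N0 : ℕ, ∀ N : ℕ, N0 ≤ N → ∀ z1 z2 : G ⧸ Γ,
      |(∑ n ∈ Finset.range N, f1 (hh (c * n) • z1) * f2 (hh (c * n) • z2)) -
        ∫ x in (0 : ℝ)..N, f1 (hh (c * x) • z1) * f2 (hh (c * x) • z2)| ≤ ε * N := by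
  classical
  have hcl : IsClosed (Γ : Set G) := Subgroup.isClosed_of_discrete
  have : T2Space (G ⧸ Γ) := inferInstance
  let : MeasurableSpace (G ⧸ Γ) := borel _
  have : BorelSpace (G ⧸ Γ) := ⟨rfl⟩
  have hT : Continuous fun z : (G ⧸ Γ) × (G ⧸ Γ) => (hh c • z.1, hh c • z.2) :=
    (continuous_fst.const_smul (hh c)).prodMk (continuous_snd.const_smul (hh c))
  have hP : Continuous (Function.uncurry fun (z : (G ⧸ Γ) × (G ⧸ Γ)) (x : ℝ) =>
      f1 (hh (c * x) • z.1) * f2 (hh (c * x) • z.2)) := by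
    have hc1 : Continuous fun p : ((G ⧸ Γ) × (G ⧸ Γ)) × ℝ => hh (c * p.2) :=
      continuous_hh.comp (continuous_const.mul continuous_snd)
    exact (h1.comp (hc1.smul (continuous_fst.comp continuous_fst))).mul
      (h2.comp (hc1.smul (continuous_snd.comp continuous_fst)))
  obtain ⟨C1, hC1⟩ := (isCompact_univ (X := G ⧸ Γ)).exists_bound_of_continuousOn h1.continuousOn
  obtain ⟨C2, hC2⟩ := (isCompact_univ (X := G ⧸ Γ)).exists_bound_of_continuousOn h2.continuousOn
  obtain ⟨N0, hN0⟩ := sreal_aux hT hP (fun n x z => by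
    rw [iter_hh2]
    show f1 (hh (c * x) • hh (c * n) • z.1) * f2 (hh (c * x) • hh (c * n) • z.2) =
      f1 (hh (c * (x + n)) • z.1) * f2 (hh (c * (x + n)) • z.2)
    rw [mul_add, hh_add, mul_smul, mul_smul]) (fun ν hν he x => by
      have e1 := six_main hneg hc he h1 h2 (c * x)
      have e2 := six_main hneg hc he h1 h2 (c * 0)
      exact e1.trans e2.symm) (B := |C1| * |C2|) (fun z x => by
        rw [norm_mul]
        exact mul_le_mul ((hC1 _ (mem_univ _)).trans (le_abs_self _))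
          ((hC2 _ (mem_univ _)).trans (le_abs_self _)) (norm_nonneg _) (abs_nonneg _)) hε
  exact ⟨N0, fun N hN z1 z2 => hN0 N hN (z1, z2)⟩

end Pool.Agent.MOM.Dyn
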