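import Mathlib

/-!
MOM/Dyn/SixLine: a subgroup of `ℝ²` which is the graph of a locally bounded additive function with a
zero is the axis.

PROOF of `line_zero`. (a) There is `B` with: for every `|t| ≤ |c|` there is `s`, `|s| ≤ B`,
`(t, s) ∈ R`: take a natural `k ≥ 1` with `|c| / k ≤ τ`; `t = k • (t / k)`, `(t/k, s₁) ∈ R` with
`|s₁| ≤ 1`, `s = k s₁`, `B = k` (`nsmul_mem`). (b) If `(t, s) ∈ R` then `s = 0`: for every natural `m`
choose an integer `k` with `|m t - k c| ≤ |c|` (`k = ⌊m t / c⌋`); `(m t - k c, m s) ∈ R`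
(`zsmul_mem`), by (a) `(m t - k c, s') ∈ R` with `|s'| ≤ B`, so `(0, m s - s') ∈ R`, `m s = s'`,
`m |s| ≤ B` for all `m`. (c) For any `t` choose `k ≥ 1` with `|t / k| ≤ τ`: `(t/k, s) ∈ R` for some `s`,
`s = 0` by (b), `(t, 0) = k • (t/k, 0) ∈ R`.
-/

set_option autoImplicit false

namespace Pool.Agent.MOM.Dyn

theorem line_zero (R : AddSubgroup (ℝ × ℝ)) (h0 : ∀ s : ℝ, ((0 : ℝ), s) ∈ R → s = 0) {c : ℝ}
    (hc : c ≠ 0) (hcR : (c, (0 : ℝ)) ∈ R) {τ : ℝ} (hτ : 0 < τ)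
    (h : ∀ t : ℝ, |t| ≤ τ → ∃ s : ℝ, |s| ≤ 1 ∧ (t, s) ∈ R) (t : ℝ) : (t, (0 : ℝ)) ∈ R := by
  -- division by a large integer
  have hdiv : ∀ C : ℝ, ∃ k : ℕ, 0 < k ∧ ∀ t : ℝ, |t| ≤ C → |t / k| ≤ τ := by
    intro C
    obtain ⟨k, hk⟩ := exists_nat_gt (max (C / τ) 0)
    have hk0 : (0 : ℝ) < k := lt_of_le_of_lt (le_max_right _ _) hk
    refine ⟨k, by exact_mod_cast hk0, fun t ht => ?_⟩
    have h1 : C / τ < k := lt_of_le_of_lt (le_max_left _ _) hk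
    rw [abs_div, abs_of_pos hk0, div_le_iff₀ hk0]
    rw [div_lt_iff₀ hτ] at h1
    linarith
  have hmul : ∀ (k : ℕ) (t s : ℝ), 0 < k → (t / k, s) ∈ R → (t, k * s) ∈ R := by
    intro k t s hk hR
    have h1 := R.nsmul_mem hR k
    have hk0 : (k : ℝ) ≠ 0 := by exact_mod_cast hk.ne'
    have h2 : k • ((t / k, s) : ℝ × ℝ) = (t, k * s) := by
      rw [Prod.smul_mk, nsmul_eq_mul, nsmul_eq_mul, mul_div_cancel₀ _ hk0]
    rw [h2] at h1
    exact h1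
  -- (a)
  have ha : ∃ B : ℝ, ∀ t : ℝ, |t| ≤ |c| → ∃ s : ℝ, |s| ≤ B ∧ (t, s) ∈ R := by
    obtain ⟨k, hk, hkt⟩ := hdiv |c|
    refine ⟨k, fun t ht => ?_⟩
    obtain ⟨s, hs, hR⟩ := h (t / k) (hkt t ht)
    refine ⟨k * s, ?_, hmul k t s hk hR⟩
    rw [abs_mul, Nat.abs_cast]
    have hk0 : (0 : ℝ) ≤ k := Nat.cast_nonneg _
    nlinarith
  obtain ⟨B, hB⟩ := ha
  -- (b)
  have hb : ∀ t s : ℝ, (t, s) ∈ R → s = 0 := by
    intro t s hR
    have h1 : ∀ m : ℕ, m * |s| ≤ B := by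
      intro m
      set k : ℤ := ⌊(m : ℝ) * t / c⌋ with hk
      have h2 : |(m : ℝ) * t - k * c| ≤ |c| := by
        have h3 : (m : ℝ) * t - k * c = Int.fract ((m : ℝ) * t / c) * c := by
          rw [Int.fract, sub_mul, div_mul_cancel₀ _ hc]
        rw [h3, abs_mul, abs_of_nonneg (Int.fract_nonneg _)]
        have h4 := (Int.fract_lt_one ((m : ℝ) * t / c)).le
        nlinarith [abs_nonneg c]
      obtain ⟨s', hs', hR'⟩ := hB _ h2
      have h5 := R.sub_mem (R.sub_mem (R.nsmul_mem hR m) (R.zsmul_mem hcR k)) hR'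
      have h6 : m • ((t, s) : ℝ × ℝ) - k • ((c, 0) : ℝ × ℝ) - ((m : ℝ) * t - k * c, s') =
          (0, m * s - s') := by
        rw [Prod.smul_mk, Prod.smul_mk, nsmul_eq_mul, nsmul_eq_mul, zsmul_eq_mul, smul_zero,
          Prod.mk_sub_mk, Prod.mk_sub_mk, sub_self, sub_zero]
      rw [h6] at h5
      have h7 := h0 _ h5
      have h8 : (m : ℝ) * s = s' := by linarith
      have h9 : (m : ℝ) * |s| = |s'| := by rw [← h8, abs_mul, Nat.abs_cast]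
      linarith
    by_contra hs
    have hs0 : 0 < |s| := abs_pos.2 hs
    obtain ⟨m, hm⟩ := exists_nat_gt (B / |s|)
    rw [div_lt_iff₀ hs0] at hm
    have := h1 m
    linarith
  -- (c)
  obtain ⟨k, hk, hkt⟩ := hdiv |t|
  obtain ⟨s, hs, hR⟩ := h (t / k) (hkt t le_rfl)
  have h1 := hmul k t s hk hR
  rw [hb _ _ hR, mul_zero] at h1
  exact h1

end Pool.Agent.MOM.Dyn
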