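import Pool.Agent.MOM.Dyn.FiveU

/-!
MOM/Dyn/SixProd: an `h_c × h_c`-invariant measure which is also invariant under `1 × h_s`, `s ≠
0`, is
the product (part of (D6)).

PROOF of `six_prod`. `I = ∫ f1 z.1 * f2 z.2 ∂ν`. Invariance under `z ↦ (z.1, hh s • z.2)`
iterated `n`
times: `I = ∫ f1 z.1 * f2 (hh (s n) • z.2) ∂ν` (`integral_map`, induction on `n`, `hh_add`). So
`N I = ∫ f1 z.1 * (∑ n < N, f2 (hh (s n) • z.2)) ∂ν`, and by `five_unif` (step `s ≠ 0`, function
`f2`)
`|N I - N m2 ∫ f1 z.1 ∂ν| ≤ C ε N`, `C` a bound of `|f1|`, for `N ≥ N0`. So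
`|I - m2 ∫ f1 z.1 ∂ν| ≤ C ε` for every `ε > 0`. `∫ f1 z.1 ∂ν = ∫ f1 ∂(ν.map Prod.fst) = m1` by
`five_avg` (`ν.map Prod.fst` is a probability measure invariant under `hh c • ·`:
`Measure.map_map`,
`hν`).
-/

set_option autoImplicit false

namespace Pool.Agent.MOM.Dyn

open MeasureTheory Filter Topology Set

variable {Γ : Subgroup G} [DiscreteTopology Γ] [CompactSpace (G ⧸ Γ)] [MeasurableSpace (G ⧸ Γ)]
  [BorelSpace (G ⧸ Γ)]

theorem fst_inv {c : ℝ} {ν : Measure ((G ⧸ Γ) × (G ⧸ Γ))} [IsProbabilityMeasure ν]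
    (hν : ν.map (fun z => (hh c • z.1, hh c • z.2)) = ν) :
    (ν.map Prod.fst).map (fun x => hh c • x) = ν.map Prod.fst := by
  have hT : Measurable (fun x : G ⧸ Γ => hh c • x) := (continuous_const_smul (hh c)).measurable
  have hT2 : Measurable (fun z : (G ⧸ Γ) × (G ⧸ Γ) => (hh c • z.1, hh c • z.2)) :=
    (hT.comp measurable_fst).prodMk (hT.comp measurable_snd)
  rw [Measure.map_map hT measurable_fst]
  conv_rhs => rw [← hν]
  rw [Measure.map_map measurable_fst hT2]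
  rfl

theorem six_prod {c s : ℝ} (hc : c ≠ 0) (hs : s ≠ 0) {ν : Measure ((G ⧸ Γ) × (G ⧸ Γ))}
    [IsProbabilityMeasure ν] (hν : ν.map (fun z => (hh c • z.1, hh c • z.2)) = ν)
    (hνs : ν.map (fun z => (z.1, hh s • z.2)) = ν) {f1 f2 : G ⧸ Γ → ℝ} (h1 : Continuous f1)
    (h2 : Continuous f2) {m1 m2 : ℝ} (hm1 : IsMean f1 m1) (hm2 : IsMean f2 m2) :
    ∫ z, f1 z.1 * f2 z.2 ∂ν = m1 * m2 := by
  have hT : Measurable (fun x : G ⧸ Γ => hh s • x) := (continuous_const_smul (hh s)).measurable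
  have hmp : MeasurePreserving (fun z : (G ⧸ Γ) × (G ⧸ Γ) => (z.1, hh s • z.2)) ν ν :=
    ⟨measurable_fst.prodMk (hT.comp measurable_snd), hνs⟩
  have hit : ∀ (n : ℕ) (z : (G ⧸ Γ) × (G ⧸ Γ)),
      (fun z : (G ⧸ Γ) × (G ⧸ Γ) => (z.1, hh s • z.2))^[n] z = (z.1, hh (s * n) • z.2) := by
    intro n z
    induction n with
    | zero => rw [Function.iterate_zero, Nat.cast_zero, mul_zero, hh_zero, one_smul]; rfl
    | succ n ih =>
      rw [Function.iterate_succ_apply', ih]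
      simp only
      rw [← mul_smul, ← hh_add]
      congr 3
      push_cast
      ring
  have hmf : ∀ t : ℝ, Measurable fun z : (G ⧸ Γ) × (G ⧸ Γ) => f2 (hh t • z.2) := fun t =>
    (h2.comp (continuous_const_smul (hh t))).measurable.comp measurable_snd
  have hm1' : Measurable fun z : (G ⧸ Γ) × (G ⧸ Γ) => f1 z.1 := h1.measurable.comp measurable_fst
  obtain ⟨C, hC⟩ := isCompact_univ.exists_bound_of_continuousOn h1.continuousOn
  obtain ⟨D, hD⟩ := isCompact_univ.exists_bound_of_continuousOn h2.continuousOn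
  have hi1 : Integrable (fun z : (G ⧸ Γ) × (G ⧸ Γ) => f1 z.1) ν :=
    Integrable.of_bound hm1'.aestronglyMeasurable C
      (Filter.Eventually.of_forall fun z => hC z.1 (mem_univ _))
  have hi : ∀ t : ℝ, Integrable (fun z : (G ⧸ Γ) × (G ⧸ Γ) => f1 z.1 * f2 (hh t • z.2)) ν := by
    intro t
    refine Integrable.of_bound (hm1'.mul (hmf t)).aestronglyMeasurable (C * D)
      (Filter.Eventually.of_forall fun z => ?_)
    rw [norm_mul]
    exact mul_le_mul (hC z.1 (mem_univ _)) (hD _ (mem_univ _)) (norm_nonneg _)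
      ((norm_nonneg _).trans (hC z.1 (mem_univ _)))
  have hn : ∀ n : ℕ, ∫ z, f1 z.1 * f2 (hh (s * n) • z.2) ∂ν = ∫ z, f1 z.1 * f2 z.2 ∂ν := by
    intro n
    have e1 := hmp.iterate n
    have e0 : Measurable fun z : (G ⧸ Γ) × (G ⧸ Γ) => f1 z.1 * f2 z.2 :=
      hm1'.mul (h2.measurable.comp measurable_snd)
    have e2 : ∫ z, (fun z : (G ⧸ Γ) × (G ⧸ Γ) => f1 z.1 * f2 z.2)
        ((fun z : (G ⧸ Γ) × (G ⧸ Γ) => (z.1, hh s • z.2))^[n] z) ∂ν =
        ∫ z, f1 z.1 * f2 z.2 ∂ν := by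
      rw [← integral_map e1.measurable.aemeasurable e0.aestronglyMeasurable, e1.map_eq]
    rw [← e2]
    refine integral_congr_ae (Filter.Eventually.of_forall fun z => ?_)
    simp only [hit]
  have hA : ∫ z, f1 z.1 ∂ν = m1 := by
    have : IsProbabilityMeasure (ν.map Prod.fst) :=
      Measure.isProbabilityMeasure_map measurable_fst.aemeasurable
    have e1 := five_avg hc (fst_inv hν) h1 hm1
    rwa [integral_map measurable_fst.aemeasurable h1.aestronglyMeasurable] at e1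
  have key : ∀ ε : ℝ, 0 < ε → |(∫ z, f1 z.1 * f2 z.2 ∂ν) - m1 * m2| ≤ C * ε := by
    intro ε hε
    obtain ⟨N0, hN0⟩ := five_unif hs h2 hm2 hε
    set N : ℕ := N0 + 1 with hN
    have e1 := hN0 N (Nat.le_succ N0)
    have e2 : ‖∫ z, f1 z.1 * ((∑ n ∈ Finset.range N, f2 (hh (s * n) • z.2)) - m2 * N) ∂ν‖
        ≤ C * (ε * N) := by
      have e3 := norm_integral_le_of_norm_le_const (μ := ν) (C := C * (ε * N))
        (f := fun z : (G ⧸ Γ) × (G ⧸ Γ) =>
          f1 z.1 * ((∑ n ∈ Finset.range N, f2 (hh (s * n) • z.2)) - m2 * N))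
        (Filter.Eventually.of_forall fun z => by
          rw [norm_mul]
          exact mul_le_mul (hC z.1 (mem_univ _)) (e1 z.2) (norm_nonneg _)
            ((norm_nonneg _).trans (hC z.1 (mem_univ _))))
      simpa using e3
    have e4 : ∫ z, f1 z.1 * ((∑ n ∈ Finset.range N, f2 (hh (s * n) • z.2)) - m2 * N) ∂ν =
        ((∫ z, f1 z.1 * f2 z.2 ∂ν) - m1 * m2) * N := by
      have e5 : (fun z : (G ⧸ Γ) × (G ⧸ Γ) =>
          f1 z.1 * ((∑ n ∈ Finset.range N, f2 (hh (s * n) • z.2)) - m2 * N)) =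
          fun z => (∑ n ∈ Finset.range N, f1 z.1 * f2 (hh (s * n) • z.2)) -
            f1 z.1 * (m2 * N) := by
        funext z
        rw [mul_sub, Finset.mul_sum]
      rw [e5, integral_sub (integrable_finsetSum _ fun n _ => hi _) (hi1.mul_const _),
        integral_finsetSum _ fun n _ => hi _, integral_mul_const, hA]
      simp only [hn, Finset.sum_const, Finset.card_range, nsmul_eq_mul]
      ring
    have e6 : (0 : ℝ) < N := by
      rw [hN]
      positivity
    rw [e4, Real.norm_eq_abs, abs_mul, abs_of_pos e6, ← mul_assoc] at e2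
    exact le_of_mul_le_mul_right e2 e6
  have h0 : |(∫ z, f1 z.1 * f2 z.2 ∂ν) - m1 * m2| ≤ 0 := by
    refine le_of_forall_pos_le_add fun ε hε => ?_
    rw [zero_add]
    by_cases hC0 : C ≤ 0
    · exact (key 1 one_pos).trans (by linarith)
    · push Not at hC0
      have e1 := key (ε / C) (div_pos hε hC0)
      rwa [mul_div_cancel₀ _ hC0.ne'] at e1
  have h3 := abs_nonpos_iff.1 h0
  linarith

end Pool.Agent.MOM.Dyn
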