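import Pool.Agent.MOM.Dyn.TopC
import Pool.Agent.MOM.Dyn.MeanDef

/-!
MOM/Dyn/SixRet: returns with a prescribed small time in the first coordinate (part of (D6)).

PROOF of `small_return`. `G ⧸ Γ` is compact, Hausdorff and second countable, so metrizable, and the
finite measure `lam` is outer regular: there is an open `O ⊇ A` with `lam O < 2 * lam A`
(`0 < lam A < ∞`; `Set.exists_isOpen_lt_of_lt`). By compactness of `A` and continuity of
`(t, x) ↦ hh t • x` there is `τ > 0` with `hh t • x ∈ O` for `|t| ≤ τ`, `x ∈ A`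
(`IsCompact.eventually_forall_of_forall_eventually`). Let `|t| ≤ τ`, `A' = (hh t • ·) '' A`
`= (hh (-t) • ·) ⁻¹' A`, so `lam A' = lam A` by invariance. If `A ∩ A' = ∅` then
`2 * lam A = lam (A ∪ A') ≤ lam O < 2 * lam A`. So there is `x ∈ A ∩ A'`, `x = hh t • x1`.

PROOF of `six_return`. By `nhds_mul` (twice) and `continuous_hh` there are `V0 ∈ 𝓝 1` and `τ0 > 0`
with `u * w⁻¹ * hh (-t) ∈ U` for `u, w ∈ V0`, `|t| ≤ τ0`. `G` is locally compact: take a compact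
`V ⊆ V0`, `V ∈ 𝓝 1`. `finite_cover V` gives a finite set `F`. `K2` is the union over `x ∈ F` of the
sets `K2 ∩ {z | ∃ g ∈ V, z.2 = g • x}`; one of them, `E`, has `ν E ≠ 0`. `E` is compact
(`{y | ∃ g ∈ V, y = g • x}` is the image of the compact `V`, so closed). `A = Prod.fst '' E` is
compact,
`E ⊆ Prod.fst ⁻¹' A`, so `(ν.map Prod.fst) A ≥ ν E > 0`. `small_return` for
`lam = ν.map Prod.fst` gives `τ1`; `τ = min τ0 τ1`. For `|t| ≤ τ` there is `x1 ∈ A` with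
`hh t • x1 ∈ A`, so there are `x2, x2'` with `(x1, x2), (hh t • x1, x2') ∈ E`, `x2 = w • x`,
`x2' = u • x`, `x2' = (u * w⁻¹ * hh (-t)) • hh t • x2`.
-/

set_option autoImplicit false

namespace Pool.Agent.MOM.Dyn

open MeasureTheory Filter Topology Set

variable {Γ : Subgroup G} [DiscreteTopology Γ] [CompactSpace (G ⧸ Γ)] [MeasurableSpace (G ⧸ Γ)]
  [BorelSpace (G ⧸ Γ)]

theorem small_return {lam : Measure (G ⧸ Γ)} [IsProbabilityMeasure lam]
    (hm : ∀ t : ℝ, lam.map (fun x => hh t • x) = lam) {A : Set (G ⧸ Γ)} (hA : IsCompact A)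
    (hpos : 0 < lam A) : ∃ τ : ℝ, 0 < τ ∧ ∀ t : ℝ, |t| ≤ τ → ∃ x ∈ A, hh t • x ∈ A := by
  have : TopologicalSpace.MetrizableSpace (G ⧸ Γ) :=
    TopologicalSpace.metrizableSpace_of_t3_secondCountable _
  have hlt : lam A < 2 * lam A := by
    rw [two_mul]
    exact ENNReal.lt_add_right (measure_ne_top lam A) hpos.ne'
  obtain ⟨O, hAO, hO, hOlt⟩ := A.exists_isOpen_lt_of_lt (μ := lam) _ hlt
  have h1 : ∀ x ∈ A, ∀ᶠ z : ℝ × (G ⧸ Γ) in 𝓝 ((0 : ℝ), x), hh z.1 • z.2 ∈ O := by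
    intro x hx
    refine (continuous_hh_smul Γ).continuousAt.eventually (hO.mem_nhds ?_)
    change hh 0 • x ∈ O
    rw [hh_zero, one_smul]
    exact hAO hx
  have h2 : ∀ᶠ t in 𝓝 (0 : ℝ), ∀ x ∈ A, hh t • x ∈ O :=
    hA.eventually_forall_of_forall_eventually (P := fun (t : ℝ) (x : G ⧸ Γ) => hh t • x ∈ O) h1
  obtain ⟨ε, hε, h3⟩ := Metric.eventually_nhds_iff.1 h2
  refine ⟨ε / 2, half_pos hε, fun t ht => ?_⟩
  by_contra hcon
  push Not at hcon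
  have h4 : ∀ x ∈ A, hh t • x ∈ O := h3 (by
    rw [Real.dist_eq, sub_zero]
    linarith)
  have hc : Continuous fun x : G ⧸ Γ => hh t • x := continuous_const_smul _
  have hA' : IsCompact ((fun x : G ⧸ Γ => hh t • x) '' A) := hA.image hc
  have h5 : lam ((fun x : G ⧸ Γ => hh t • x) '' A) = lam A := by
    conv_lhs => rw [← hm t]
    rw [Measure.map_apply hc.measurable hA'.isClosed.measurableSet,
      preimage_image_eq _ (MulAction.injective (hh t))]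
  have hdis : Disjoint A ((fun x : G ⧸ Γ => hh t • x) '' A) := by
    rw [Set.disjoint_left]
    rintro _ hx ⟨x, hxA, rfl⟩
    exact hcon x hxA hx
  have h6 : lam (A ∪ (fun x : G ⧸ Γ => hh t • x) '' A) = 2 * lam A := by
    rw [measure_union hdis hA'.isClosed.measurableSet, h5, two_mul]
  have h7 : lam (A ∪ (fun x : G ⧸ Γ => hh t • x) '' A) ≤ lam O := by
    refine measure_mono (union_subset hAO ?_)
    rintro _ ⟨x, hxA, rfl⟩
    exact h4 x hxA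
  rw [h6] at h7
  exact absurd hOlt (not_lt.2 h7)

theorem six_return {ν : Measure ((G ⧸ Γ) × (G ⧸ Γ))} [IsProbabilityMeasure ν]
    (hm : ∀ t : ℝ, (ν.map Prod.fst).map (fun x => hh t • x) = ν.map Prod.fst)
    {K2 : Set ((G ⧸ Γ) × (G ⧸ Γ))} (hK2 : IsCompact K2) (hpos : 0 < ν K2) {U : Set G}
    (hU : U ∈ 𝓝 (1 : G)) :
    ∃ τ : ℝ, 0 < τ ∧ ∀ t : ℝ, |t| ≤ τ → ∃ x1 x2 : G ⧸ Γ, (x1, x2) ∈ K2 ∧ ∃ g ∈ U,
      (hh t • x1, g • hh t • x2) ∈ K2 := by
  have hc : Continuous fun p : (G × G) × ℝ => p.1.1 * p.1.2⁻¹ * hh (-p.2) :=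
    ((continuous_fst.comp continuous_fst).mul (continuous_snd.comp continuous_fst).inv).mul
      (continuous_hh.comp continuous_snd.neg)
  have h1 : (fun p : (G × G) × ℝ => p.1.1 * p.1.2⁻¹ * hh (-p.2)) ⁻¹' U ∈
      𝓝 (((1 : G), (1 : G)), (0 : ℝ)) := by
    apply hc.continuousAt.preimage_mem_nhds
    simpa [hh_zero] using hU
  obtain ⟨W, hW, I, hI, hWI⟩ := mem_nhds_prod_iff.1 h1
  obtain ⟨W1, hW1, W2, hW2, hWW⟩ := mem_nhds_prod_iff.1 hW
  obtain ⟨ε, hε, hεI⟩ := Metric.mem_nhds_iff.1 hI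
  obtain ⟨V, hV, hVW, hVc⟩ := local_compact_nhds (inter_mem hW1 hW2)
  obtain ⟨F, hF⟩ := finite_cover (Γ := Γ) hV
  -- the pieces
  obtain ⟨x, -, hxpos⟩ : ∃ x ∈ F,
      0 < ν (K2 ∩ {z : (G ⧸ Γ) × (G ⧸ Γ) | ∃ g ∈ V, z.2 = g • x}) := by
    by_contra hcon
    push Not at hcon
    have h2 : K2 ⊆ ⋃ x ∈ F, K2 ∩ {z : (G ⧸ Γ) × (G ⧸ Γ) | ∃ g ∈ V, z.2 = g • x} := by
      intro z hz
      obtain ⟨x, hx, g, hg, hzg⟩ := hF z.2
      exact mem_iUnion₂.2 ⟨x, hx, hz, g, hg, hzg⟩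
    have h3 : ν K2 ≤ ∑ x ∈ F, ν (K2 ∩ {z : (G ⧸ Γ) × (G ⧸ Γ) | ∃ g ∈ V, z.2 = g • x}) :=
      (measure_mono h2).trans (measure_biUnion_finset_le F _)
    have h4 : ∑ x ∈ F, ν (K2 ∩ {z : (G ⧸ Γ) × (G ⧸ Γ) | ∃ g ∈ V, z.2 = g • x}) = 0 :=
      Finset.sum_eq_zero fun x hx => le_antisymm (hcon x hx) zero_le
    rw [h4] at h3
    exact absurd hpos (not_lt.2 h3)
  set E : Set ((G ⧸ Γ) × (G ⧸ Γ)) :=
    K2 ∩ {z : (G ⧸ Γ) × (G ⧸ Γ) | ∃ g ∈ V, z.2 = g • x} with hE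
  have hcl : IsClosed {z : (G ⧸ Γ) × (G ⧸ Γ) | ∃ g ∈ V, z.2 = g • x} := by
    have h2 : IsCompact ((fun g : G => g • x) '' V) := hVc.image (by fun_prop)
    have h3 : {z : (G ⧸ Γ) × (G ⧸ Γ) | ∃ g ∈ V, z.2 = g • x} =
        Prod.snd ⁻¹' ((fun g : G => g • x) '' V) := by
      ext z
      constructor
      · rintro ⟨g, hg, hz⟩
        exact ⟨g, hg, hz.symm⟩
      · rintro ⟨g, hg, hz⟩
        exact ⟨g, hg, hz.symm⟩
    rw [h3]
    exact h2.isClosed.preimage continuous_snd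
  have hEc : IsCompact E := hK2.inter_right hcl
  have hAc : IsCompact (Prod.fst '' E) := hEc.image continuous_fst
  have : IsProbabilityMeasure (ν.map Prod.fst) :=
    Measure.isProbabilityMeasure_map measurable_fst.aemeasurable
  have hApos : 0 < (ν.map Prod.fst) (Prod.fst '' E) := by
    rw [Measure.map_apply measurable_fst hAc.isClosed.measurableSet]
    exact lt_of_lt_of_le hxpos (measure_mono (subset_preimage_image _ _))
  obtain ⟨τ, hτ, H⟩ := small_return hm hAc hApos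
  refine ⟨min (ε / 2) τ, lt_min (half_pos hε) hτ, fun t ht => ?_⟩
  obtain ⟨_, ⟨z, hz, rfl⟩, ⟨z', hz', hzz⟩⟩ := H t (ht.trans (min_le_right _ _))
  obtain ⟨hzK, w, hw, hzw⟩ := hz
  obtain ⟨hzK', u, hu, hzu⟩ := hz'
  have hg : u * w⁻¹ * hh (-t) ∈ U := by
    have h2 : ((u, w), t) ∈ W ×ˢ I := by
      refine ⟨hWW ⟨(hVW hu).1, (hVW hw).2⟩, hεI ?_⟩
      rw [Metric.mem_ball, Real.dist_eq, sub_zero]
      have := ht.trans (min_le_left _ _)
      linarith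
    exact hWI h2
  refine ⟨z.1, z.2, hzK, _, hg, ?_⟩
  have h3 : (u * w⁻¹ * hh (-t)) • hh t • z.2 = z'.2 := by
    rw [hzw, hzu, ← mul_smul, ← mul_smul, hh_neg]
    congr 1
    group
  rw [h3, ← hzz]
  exact hzK'

end Pool.Agent.MOM.Dyn
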