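import Pool.Agent.MOM.Dyn.SixDrift
import Pool.Agent.MOM.Dyn.SixRet
import Pool.Agent.MOM.Dyn.SixLine
import Pool.Agent.MOM.Dyn.SixProd

/-!
MOM/Dyn/Six: (D6), products of two functions along the orbits of `h_c × h_c`.

Write `T z = (hh c • z.1, hh c • z.2)` and `Φ t s z = (hh t • z.1, hh s • hh t • z.2)`.

PROOF of `six_flow` (hypothesis `h0`: `(1, hh s)` preserves `ν` only for `s = 0`). `erg_good` for `T`
gives `K1, K2, Nk`. `R = {(t, s) | ν.map (Φ t s) = ν}` is an `AddSubgroup (ℝ × ℝ)` (`Φ` is an action of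
`ℝ²`, `hh_comm`; `Measure.map_map`); `(c, 0) ∈ R` since `hν` is measure preserving; `(0, s) ∈ R`
implies `s = 0` by `h0`. The hypothesis `hR` of `six_close` is false: otherwise `six_close` gives
`(y1, y2), (y1, hh s • y2) ∈ K1`, `|s| ≥ 1/300`, both generic, and `erg_inv` with
`S z = (z.1, hh s • z.2)` gives `ν.map S = ν`, so `s = 0`. So there are `U₀ ∈ 𝓝 1`, `τ₀ > 0` such that
`|t| ≤ τ₀`, `(x1, x2) ∈ K2`, `g ∈ U₀`, `(hh t • x1, g • hh t • x2) ∈ K2` imply `g ∈ HH`. `six_return`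
(`ν K2 > 0`; `ν.map Prod.fst` is invariant under all `hh t` by `fst_inv` and `five_any`) with
`U = U₀ ∩ {g | |g 0 1| < 1}` (`nhds_small one_pos`) gives `τ`. For `|t| ≤ min τ τ₀` we get
`z = (x1, x2) ∈ K2` and `g = hh s`, `|s| = |g 0 1| ≤ 1`, with `Φ t s z ∈ K2 ⊆ K1`: both generic, and
`erg_inv` with `S = Φ t s` (commutes with `T`) gives `(t, s) ∈ R`. `line_zero` gives `(t, 0) ∈ R` for
all `t`, i.e. `ν.map (fun z => (hh t • z.1, hh t • z.2)) = ν` (`hh_zero`, `one_smul`).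

PROOF of `six_main`. If there is `s ≠ 0` with `ν.map (fun z => (z.1, hh s • z.2)) = ν` then both
sides are `m1 * m2` by `six_prod` (`exists_mean`, and `IsMean.comp_hh` for `f ∘ (hh t • ·)`).
Otherwise `six_flow` and `integral_map`.
-/

set_option autoImplicit false

namespace Pool.Agent.MOM.Dyn

open MeasureTheory Filter Topology Set

variable {Γ : Subgroup G} [DiscreteTopology Γ] [CompactSpace (G ⧸ Γ)] [MeasurableSpace (G ⧸ Γ)]
  [BorelSpace (G ⧸ Γ)]

omit [DiscreteTopology Γ] [CompactSpace (G ⧸ Γ)] [MeasurableSpace (G ⧸ Γ)]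
  [BorelSpace (G ⧸ Γ)] in
private def phi2 (p : ℝ × ℝ) (z : (G ⧸ Γ) × (G ⧸ Γ)) : (G ⧸ Γ) × (G ⧸ Γ) :=
  (hh p.1 • z.1, hh p.2 • hh p.1 • z.2)

omit [DiscreteTopology Γ] [CompactSpace (G ⧸ Γ)] [MeasurableSpace (G ⧸ Γ)]
  [BorelSpace (G ⧸ Γ)] in
private theorem phi2_add (p q : ℝ × ℝ) (z : (G ⧸ Γ) × (G ⧸ Γ)) :
    phi2 (p + q) z = phi2 p (phi2 q z) := by
  simp only [phi2, Prod.fst_add, Prod.snd_add, hh_add, ← mul_smul]
  rw [mul_assoc (hh p.2), ← mul_assoc (hh p.1), hh_comm p.1 q.2]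
  simp only [mul_assoc]

omit [DiscreteTopology Γ] [CompactSpace (G ⧸ Γ)] [MeasurableSpace (G ⧸ Γ)]
  [BorelSpace (G ⧸ Γ)] in
private theorem phi2_zero (z : (G ⧸ Γ) × (G ⧸ Γ)) : phi2 0 z = z := by
  simp only [phi2, Prod.fst_zero, Prod.snd_zero, hh_zero, one_smul]

theorem six_flow (hneg : ∀ z : G, (z : Matrix (Fin 2) (Fin 2) ℝ) = -1 → z ∈ Γ) {c : ℝ}
    (hc : c ≠ 0) {ν : Measure ((G ⧸ Γ) × (G ⧸ Γ))} [IsProbabilityMeasure ν]
    (hν : Ergodic (fun z : (G ⧸ Γ) × (G ⧸ Γ) => (hh c • z.1, hh c • z.2)) ν)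
    (h0 : ∀ s : ℝ, ν.map (fun z => (z.1, hh s • z.2)) = ν → s = 0) (t : ℝ) :
    ν.map (fun z => (hh t • z.1, hh t • z.2)) = ν := by
  classical
  have hcl : IsClosed (Γ : Set G) := Subgroup.isClosed_of_discrete
  have : T2Space (G ⧸ Γ) := inferInstance
  have hT : Continuous fun z : (G ⧸ Γ) × (G ⧸ Γ) => (hh c • z.1, hh c • z.2) :=
    ((continuous_const_smul (hh c)).comp continuous_fst).prodMk
      ((continuous_const_smul (hh c)).comp continuous_snd)
  have hΦc : ∀ p : ℝ × ℝ, Continuous (phi2 (Γ := Γ) p) := fun p =>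
    ((continuous_const_smul (hh p.1)).comp continuous_fst).prodMk
      ((continuous_const_smul (hh p.2)).comp ((continuous_const_smul (hh p.1)).comp continuous_snd))
  obtain ⟨K1, K2, Nk, hK1, hK2, hK21, hbig, _, hgen, hv⟩ := erg_good hT ν hν
  have hpos : 0 < ν K2 := by
    rw [pos_iff_ne_zero]
    intro h1
    rw [Measure.real, h1, ENNReal.toReal_zero] at hbig
    norm_num at hbig
  let R : AddSubgroup (ℝ × ℝ) :=
    { carrier := {p | ν.map (phi2 (Γ := Γ) p) = ν}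
      add_mem' := by
        intro p q hp hq
        change ν.map (phi2 p) = ν at hp
        change ν.map (phi2 q) = ν at hq
        show ν.map (phi2 (p + q)) = ν
        have h1 : phi2 (Γ := Γ) (p + q) = phi2 p ∘ phi2 q := funext fun z => phi2_add p q z
        rw [h1, ← Measure.map_map (hΦc p).measurable (hΦc q).measurable, hq, hp]
      zero_mem' := by
        show ν.map (phi2 0) = ν
        have h1 : phi2 (Γ := Γ) 0 = id := funext fun z => phi2_zero z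
        rw [h1, Measure.map_id]
      neg_mem' := by
        intro p hp
        change ν.map (phi2 p) = ν at hp
        show ν.map (phi2 (-p)) = ν
        have h1 : phi2 (Γ := Γ) (-p) ∘ phi2 p = id := funext fun z => by
          show phi2 (-p) (phi2 p z) = z
          rw [← phi2_add, neg_add_cancel, phi2_zero]
        calc ν.map (phi2 (-p)) = (ν.map (phi2 p)).map (phi2 (-p)) := by rw [hp]
          _ = ν := by
            rw [Measure.map_map (hΦc (-p)).measurable (hΦc p).measurable, h1, Measure.map_id] }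
  have hRmem : ∀ p : ℝ × ℝ, p ∈ R ↔ ν.map (phi2 (Γ := Γ) p) = ν := fun p => Iff.rfl
  have hcR : (c, (0 : ℝ)) ∈ R := by
    rw [hRmem]
    have h1 : phi2 (Γ := Γ) (c, 0) = fun z => (hh c • z.1, hh c • z.2) := by
      funext z
      simp only [phi2, hh_zero, one_smul]
    rw [h1]
    exact hν.toMeasurePreserving.map_eq
  have h0R : ∀ s : ℝ, ((0 : ℝ), s) ∈ R → s = 0 := by
    intro s hs
    rw [hRmem] at hs
    have h1 : phi2 (Γ := Γ) (0, s) = fun z => (z.1, hh s • z.2) := by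
      funext z
      simp only [phi2, hh_zero, one_smul]
    rw [h1] at hs
    exact h0 s hs
  have hcomm : ∀ p : ℝ × ℝ, ∀ z : (G ⧸ Γ) × (G ⧸ Γ), phi2 p (hh c • z.1, hh c • z.2) =
      (hh c • (phi2 p z).1, hh c • (phi2 p z).2) := by
    intro p z
    simp only [phi2, ← mul_smul]
    rw [hh_comm p.1 c, ← mul_assoc (hh p.2), hh_comm p.2 c, mul_assoc]
  have hinv : ∀ p : ℝ × ℝ, ∀ z ∈ K1, phi2 p z ∈ K1 → p ∈ R := fun p z hz hpz =>
    erg_inv (T := fun z : (G ⧸ Γ) × (G ⧸ Γ) => (hh c • z.1, hh c • z.2)) (hΦc p) (hcomm p)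
      (hgen z hz) (hgen _ hpz)
  have hnot : ¬ ∀ U ∈ 𝓝 (1 : G), ∀ τ : ℝ, 0 < τ → ∃ t : ℝ, |t| ≤ τ ∧ ∃ x1 x2 : G ⧸ Γ,
      (x1, x2) ∈ K2 ∧ ∃ g ∈ U, g ∉ HH ∧ (hh t • x1, g • hh t • x2) ∈ K2 := by
    intro hR
    obtain ⟨y1, y2, hy, s, hs1, _, hs⟩ := six_close hc hK1 hv hR
    have h1 : ((0 : ℝ), s) ∈ R := by
      refine hinv (0, s) (y1, y2) hy ?_
      simpa only [phi2, hh_zero, one_smul] using hs
    have h2 := h0R s h1
    rw [h2, abs_zero] at hs1
    norm_num at hs1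
  push Not at hnot
  obtain ⟨U₀, hU₀, τ₀, hτ₀, hU⟩ := hnot
  have hfst : ∀ t : ℝ, (ν.map Prod.fst).map (fun x => hh t • x) = ν.map Prod.fst := by
    intro t
    have : IsProbabilityMeasure (ν.map Prod.fst) :=
      Measure.isProbabilityMeasure_map measurable_fst.aemeasurable
    exact five_any hneg hc (fst_inv hν.toMeasurePreserving.map_eq) t
  obtain ⟨τ, hτ, hret⟩ := six_return hfst hK2 hpos
    (U := U₀ ∩ {g : G | |g 0 0 - 1| < 1 ∧ |g 0 1| < 1 ∧ |g 1 0| < 1 ∧ |g 1 1 - 1| < 1})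
    (inter_mem hU₀ (nhds_small one_pos))
  have hline := line_zero R h0R hc hcR (lt_min hτ hτ₀) (fun t ht => by
    obtain ⟨x1, x2, hx, g, hg, hgx⟩ := hret t (ht.trans (min_le_left _ _))
    have hgH : g ∈ HH := by
      by_contra hcon
      exact hU t (ht.trans (min_le_right _ _)) x1 x2 hx g hg.1 hcon hgx
    obtain ⟨s, rfl⟩ := hgH
    refine ⟨s, ?_, hinv (t, s) (x1, x2) (hK21 hx) (hK21 hgx)⟩
    have h1 := hg.2.2.1
    rw [hh_01] at h1
    exact h1.le) t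
  rw [hRmem] at hline
  have h1 : phi2 (Γ := Γ) (t, 0) = fun z => (hh t • z.1, hh t • z.2) := by
    funext z
    simp only [phi2, hh_zero, one_smul]
  rw [h1] at hline
  exact hline

theorem six_main (hneg : ∀ z : G, (z : Matrix (Fin 2) (Fin 2) ℝ) = -1 → z ∈ Γ) {c : ℝ}
    (hc : c ≠ 0) {ν : Measure ((G ⧸ Γ) × (G ⧸ Γ))} [IsProbabilityMeasure ν]
    (hν : Ergodic (fun z : (G ⧸ Γ) × (G ⧸ Γ) => (hh c • z.1, hh c • z.2)) ν)
    {f1 f2 : G ⧸ Γ → ℝ} (h1 : Continuous f1) (h2 : Continuous f2) (t : ℝ) :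
    ∫ z, f1 (hh t • z.1) * f2 (hh t • z.2) ∂ν = ∫ z, f1 z.1 * f2 z.2 ∂ν := by
  have hν' := hν.toMeasurePreserving.map_eq
  by_cases h : ∀ s : ℝ, ν.map (fun z => (z.1, hh s • z.2)) = ν → s = 0
  · have h3 := six_flow hneg hc hν h t
    have hc2 : Continuous fun z : (G ⧸ Γ) × (G ⧸ Γ) => (hh t • z.1, hh t • z.2) :=
      ((continuous_const_smul (hh t)).comp continuous_fst).prodMk
        ((continuous_const_smul (hh t)).comp continuous_snd)
    have hcf : Continuous fun z : (G ⧸ Γ) × (G ⧸ Γ) => f1 z.1 * f2 z.2 :=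
      (h1.comp continuous_fst).mul (h2.comp continuous_snd)
    have h4 : ∫ z, f1 z.1 * f2 z.2 ∂(ν.map (fun z => (hh t • z.1, hh t • z.2))) =
        ∫ z, f1 (hh t • z.1) * f2 (hh t • z.2) ∂ν :=
      integral_map hc2.measurable.aemeasurable hcf.aestronglyMeasurable
    rw [← h4, h3]
  · push Not at h
    obtain ⟨s, hs, hs0⟩ := h
    obtain ⟨m1, hm1⟩ := exists_mean hneg h1
    obtain ⟨m2, hm2⟩ := exists_mean hneg h2
    rw [six_prod hc hs0 hν' hs h1 h2 hm1 hm2]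
    exact six_prod hc hs0 hν' hs (h1.comp (continuous_const_smul (hh t)))
      (h2.comp (continuous_const_smul (hh t))) (hm1.comp_hh t) (hm2.comp_hh t)

end Pool.Agent.MOM.Dyn
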