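import Pool.Agent.MOM.Dyn.DriftTime
import Pool.Agent.MOM.Dyn.MeanDef

/-!
MOM/Dyn/SixDrift: the drift argument in the second coordinate of `X × X` (part of (D6)).

PROOF of `six_close`. Suppose that `(y1, hh s • y2) ∉ K1` for all `(y1, y2) ∈ K1` and
`1/300 ≤ |s| ≤ 3`. The set `D` of all these pairs `(y1, hh s • y2)` is compact (image of
a compact set,
`continuous_hh_smul`) and disjoint from the closed set `K1`, so `close_two` gives `U ∈ 𝓝 1` with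
`(u • d.1, w • d.2) ∉ K1` for `u, w ∈ U`, `d ∈ D`. `nhds_mul` gives `V ∈ 𝓝 1` with `u * w⁻¹ ∈ U` for
`u, w ∈ V`; `continuous_hh` gives `τ > 0` with `hh t ∈ U` and `hh (-t) ∈ V` for `|t| ≤ τ`.
`drift_time hc one_pos (V)` gives `V'`. `hR V' τ` gives `t`, `x1`, `x2`, `g ∈ V'`, `g ∉ HH`, and
`drift_time` gives `N`. Put `z = (x1, x2)`, `z' = (hh t • x1, g • hh t • x2)`, both in `K2`, and
`B = {n < N | T^[n] z ∉ K1} ∪ {n < N | T^[n] z' ∉ K1}`, `10 * B.card ≤ N` by `hv`. We get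
`n < N`, `n ∉ B`, `s`, `u ∈ V` with `hh (c n) * g = u * hh s * hh (c n)`. By `iter_hh2`:
`T^[n] z = (y1, y2)` with `y1 = hh (c n) • x1`, `y2 = hh (c n) • x2`, in `K1`, and
`T^[n] z' = (hh (c n) • hh t • x1, hh (c n) • g • hh t • x2)
= (hh t • y1, (u * hh t) • hh s • y2)` is in `K1` (the `hh`'s commute). `hh t ∈ U` and
`u * hh t = u * (hh (-t))⁻¹ ∈ U`: contradiction.
-/

set_option autoImplicit false

namespace Pool.Agent.MOM.Dyn

open MeasureTheory Filter Topology Set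

variable {Γ : Subgroup G} [DiscreteTopology Γ]

open scoped Classical in
theorem six_close {c : ℝ} (hc : c ≠ 0) {K1 K2 : Set ((G ⧸ Γ) × (G ⧸ Γ))} (hK1 : IsCompact K1)
    (hv : ∀ z ∈ K2, ∀ N : ℕ, 20 * ((Finset.range N).filter fun n =>
      (fun x : (G ⧸ Γ) × (G ⧸ Γ) => (hh c • x.1, hh c • x.2))^[n] z ∉ K1).card ≤ N)
    (hR : ∀ U ∈ 𝓝 (1 : G), ∀ τ : ℝ, 0 < τ → ∃ t : ℝ, |t| ≤ τ ∧ ∃ x1 x2 : G ⧸ Γ,
      (x1, x2) ∈ K2 ∧ ∃ g ∈ U, g ∉ HH ∧ (hh t • x1, g • hh t • x2) ∈ K2) :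
    ∃ y1 y2 : G ⧸ Γ, (y1, y2) ∈ K1 ∧ ∃ s : ℝ, 1 / 300 ≤ |s| ∧ |s| ≤ 3 ∧
      (y1, hh s • y2) ∈ K1 := by
  classical
  have hcl : IsClosed (Γ : Set G) := Subgroup.isClosed_of_discrete
  have : T2Space (G ⧸ Γ) := inferInstance
  by_contra hcon
  -- the compact set of the shifted pairs
  have hSc : IsCompact {s : ℝ | 1 / 300 ≤ |s| ∧ |s| ≤ 3} := by
    refine (isCompact_Icc (a := (-3 : ℝ)) (b := 3)).of_isClosed_subset ?_ ?_
    · exact (isClosed_le continuous_const continuous_abs).inter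
        (isClosed_le continuous_abs continuous_const)
    · intro s hs
      exact abs_le.1 hs.2
  have hD : IsCompact ((fun q : ℝ × ((G ⧸ Γ) × (G ⧸ Γ)) => (q.2.1, hh q.1 • q.2.2)) ''
      ({s : ℝ | 1 / 300 ≤ |s| ∧ |s| ≤ 3} ×ˢ K1)) := by
    refine (hSc.prod hK1).image ?_
    refine (continuous_fst.comp continuous_snd).prodMk ?_
    exact (continuous_hh_smul Γ).comp
      (continuous_fst.prodMk (continuous_snd.comp continuous_snd))
  have hdis : ∀ x ∈ ((fun q : ℝ × ((G ⧸ Γ) × (G ⧸ Γ)) => (q.2.1, hh q.1 • q.2.2)) ''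
      ({s : ℝ | 1 / 300 ≤ |s| ∧ |s| ≤ 3} ×ˢ K1)), x ∉ K1 := by
    rintro _ ⟨⟨s, y1, y2⟩, ⟨hs, hy⟩, rfl⟩ hmem
    exact hcon ⟨y1, y2, hy, s, hs.1, hs.2, hmem⟩
  obtain ⟨U, hU, hUK⟩ := close_two hD hK1.isClosed hdis
  obtain ⟨V, hV, hVU⟩ := nhds_mul hU
  -- small times
  have hτ : ∃ τ : ℝ, 0 < τ ∧ ∀ t : ℝ, |t| ≤ τ → hh t ∈ U ∧ hh (-t) ∈ V := by
    have h1 : ∀ᶠ t in 𝓝 (0 : ℝ), hh t ∈ U := by
      refine continuous_hh.continuousAt.eventually ?_
      rw [hh_zero]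
      exact hU
    have h2 : ∀ᶠ t in 𝓝 (0 : ℝ), hh (-t) ∈ V := by
      have hc2 : Continuous fun t : ℝ => hh (-t) := continuous_hh.comp continuous_neg
      refine hc2.continuousAt.eventually ?_
      show ∀ᶠ y in 𝓝 (hh (-0)), y ∈ V
      rw [neg_zero, hh_zero]
      exact hV
    obtain ⟨ε, hε, hb⟩ := Metric.eventually_nhds_iff.1 (h1.and h2)
    refine ⟨ε / 2, by positivity, fun t ht => hb ?_⟩
    rw [Real.dist_eq, sub_zero]
    linarith
  obtain ⟨τ, hτ0, hτU⟩ := hτ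
  obtain ⟨V', hV', hdr⟩ := drift_time (s0 := 1) hc one_pos hV
  obtain ⟨t, ht, x1, x2, hx, g, hg, hgH, hx'⟩ := hR V' hV' τ hτ0
  obtain ⟨htU, htV⟩ := hτU t ht
  obtain ⟨N, hN, hdr'⟩ := hdr g hg hgH
  have hv1 := hv _ hx N
  have hv2 := hv _ hx' N
  obtain ⟨n, hnN, hnB, s, hs1, hs2, u, hu, heq⟩ := hdr'
    (((Finset.range N).filter fun n =>
      (fun x : (G ⧸ Γ) × (G ⧸ Γ) => (hh c • x.1, hh c • x.2))^[n] (x1, x2) ∉ K1) ∪
     ((Finset.range N).filter fun n =>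
      (fun x : (G ⧸ Γ) × (G ⧸ Γ) => (hh c • x.1, hh c • x.2))^[n]
        (hh t • x1, g • hh t • x2) ∉ K1)) (by
      have h3 := Finset.card_union_le ((Finset.range N).filter fun n =>
        (fun x : (G ⧸ Γ) × (G ⧸ Γ) => (hh c • x.1, hh c • x.2))^[n] (x1, x2) ∉ K1)
        ((Finset.range N).filter fun n =>
        (fun x : (G ⧸ Γ) × (G ⧸ Γ) => (hh c • x.1, hh c • x.2))^[n]
          (hh t • x1, g • hh t • x2) ∉ K1)
      omega)
  rw [Finset.mem_union, Finset.mem_filter, Finset.mem_filter, Finset.mem_range, not_or] at hnB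
  have hm1 : (hh (c * n) • x1, hh (c * n) • x2) ∈ K1 := by
    by_contra h4
    refine hnB.1 ⟨hnN, ?_⟩
    rw [iter_hh2]
    exact h4
  have hm2 : (hh (c * n) • hh t • x1, hh (c * n) • g • hh t • x2) ∈ K1 := by
    by_contra h4
    refine hnB.2 ⟨hnN, ?_⟩
    rw [iter_hh2]
    exact h4
  have e1 : hh (c * n) • hh t • x1 = hh t • hh (c * n) • x1 := by
    rw [← mul_smul, ← mul_smul, hh_comm]
  have key : hh (c * n) * (g * hh t) = u * hh t * (hh s * hh (c * n)) := by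
    calc hh (c * n) * (g * hh t) = hh (c * n) * g * hh t := by rw [mul_assoc]
      _ = u * hh s * hh (c * n) * hh t := by rw [heq]
      _ = u * (hh s * (hh (c * n) * hh t)) := by simp only [mul_assoc]
      _ = u * (hh s * (hh t * hh (c * n))) := by rw [hh_comm (c * n) t]
      _ = u * (hh s * hh t * hh (c * n)) := by simp only [mul_assoc]
      _ = u * (hh t * hh s * hh (c * n)) := by rw [hh_comm s t]
      _ = u * hh t * (hh s * hh (c * n)) := by simp only [mul_assoc]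
  have e2 : hh (c * n) • g • hh t • x2 = (u * hh t) • hh s • hh (c * n) • x2 := by
    rw [← mul_smul g (hh t) x2, ← mul_smul (hh (c * n)) (g * hh t) x2, key,
      mul_smul (u * hh t) (hh s * hh (c * n)) x2, mul_smul (hh s) (hh (c * n)) x2]
  rw [e1, e2] at hm2
  have hut : u * hh t ∈ U := by
    have h5 := hVU u hu (hh (-t)) htV
    rw [hh_neg, inv_inv] at h5
    exact h5
  refine hUK (hh t) htU (u * hh t) hut (hh (c * n) • x1, hh s • hh (c * n) • x2) ?_ hm2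
  refine ⟨(s, (hh (c * n) • x1, hh (c * n) • x2)), ⟨⟨?_, ?_⟩, hm1⟩, rfl⟩
  · exact hs1
  · linarith

end Pool.Agent.MOM.Dyn
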