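import Pool.Agent.MOM.Dyn.Defs

/-!
MOM/Dyn/Top: neighbourhoods of `1` in `G` and the topology of `G ⧸ Γ`.

PROOFS. `nhds_small`: the five sets are open (`continuous_entry`) and contain `1`.
`nhds_one`: the map `Subtype.val : G → Matrix` induces the topology, so `U` contains the preimage of
a product neighbourhood (`Matrix` is a pi type, `nhds_pi`, `Metric.mem_nhds_iff`); or: the continuous
map `Matrix → ...`; take `δ` the minimum over the four entries.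
`nhds_mul`: continuity of `(u, w) ↦ u * w⁻¹` at `(1, 1)`.
`orbit_mem_nhds`: `G → G ⧸ Γ` is open (`QuotientGroup.isOpenMap_coe`); for `x = ↑x₀` the set
`{g * x₀ | g ∈ U}` is a neighbourhood of `x₀` and its image is the set in question.
`finite_cover`: the sets `{y | ∃ g ∈ U, y = g • x}` are neighbourhoods of `x`
(`CompactSpace.elim_nhds_subcover`).
`exists_compact_lift`: `G` is locally compact: for every `x = ↑x₀` take a compact neighbourhood `K`
of `x₀`, its image is a neighbourhood of `x` (open map), finitely many of the images cover; the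
union of the `K`.
-/

set_option autoImplicit false

namespace Pool.Agent.MOM.Dyn

open MeasureTheory Filter Topology Set

variable {Γ : Subgroup G}

theorem nhds_small {δ : ℝ} (hδ : 0 < δ) :
    {g : G | |g 0 0 - 1| < δ ∧ |g 0 1| < δ ∧ |g 1 0| < δ ∧ |g 1 1 - 1| < δ} ∈ 𝓝 (1 : G) := by
  have h00 : Continuous fun g : G => |g 0 0 - 1| :=
    ((continuous_entry 0 0).sub continuous_const).abs
  have h01 : Continuous fun g : G => |g 0 1| := (continuous_entry 0 1).abs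
  have h10 : Continuous fun g : G => |g 1 0| := (continuous_entry 1 0).abs
  have h11 : Continuous fun g : G => |g 1 1 - 1| :=
    ((continuous_entry 1 1).sub continuous_const).abs
  refine IsOpen.mem_nhds ?_ ?_
  · exact (isOpen_lt h00 continuous_const).inter ((isOpen_lt h01 continuous_const).inter
      ((isOpen_lt h10 continuous_const).inter (isOpen_lt h11 continuous_const)))
  · simp [hδ]

theorem nhds_one {U : Set G} (hU : U ∈ 𝓝 (1 : G)) :
    ∃ δ : ℝ, 0 < δ ∧ ∀ g : G, |g 0 0 - 1| < δ → |g 0 1| < δ → |g 1 0| < δ → |g 1 1 - 1| < δ →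
      g ∈ U := by
  obtain ⟨u, hu, hus⟩ :=
    (mem_nhds_induced (fun g : G => (g : Matrix (Fin 2) (Fin 2) ℝ)) (1 : G) U).1 hU
  obtain ⟨ε, hε, hb⟩ := (Metric.mem_nhds_iff (α := Fin 2 → Fin 2 → ℝ)
    (x := fun i j => (1 : G) i j) (s := u)).1 hu
  refine ⟨ε, hε, fun g h00 h01 h10 h11 => hus ?_⟩
  have h1 : (fun i j => g i j : Fin 2 → Fin 2 → ℝ) ∈
      Metric.ball (fun i j => (1 : G) i j : Fin 2 → Fin 2 → ℝ) ε := by
    rw [Metric.mem_ball, dist_pi_lt_iff hε]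
    intro i
    rw [dist_pi_lt_iff hε]
    intro j
    rw [Real.dist_eq]
    have e00 : (1 : G) 0 0 = 1 := by simp
    have e01 : (1 : G) 0 1 = 0 := by simp
    have e10 : (1 : G) 1 0 = 0 := by simp
    have e11 : (1 : G) 1 1 = 1 := by simp
    fin_cases i <;> fin_cases j
    · show |g 0 0 - (1 : G) 0 0| < ε
      rw [e00]; exact h00
    · show |g 0 1 - (1 : G) 0 1| < ε
      rw [e01, sub_zero]; exact h01
    · show |g 1 0 - (1 : G) 1 0| < ε
      rw [e10, sub_zero]; exact h10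
    · show |g 1 1 - (1 : G) 1 1| < ε
      rw [e11]; exact h11
  exact hb h1

theorem nhds_mul {U : Set G} (hU : U ∈ 𝓝 (1 : G)) :
    ∃ V ∈ 𝓝 (1 : G), ∀ u ∈ V, ∀ w ∈ V, u * w⁻¹ ∈ U := by
  have hc : Continuous fun p : G × G => p.1 * p.2⁻¹ := continuous_fst.mul continuous_snd.inv
  have h1 : (fun p : G × G => p.1 * p.2⁻¹) ⁻¹' U ∈ 𝓝 ((1 : G), (1 : G)) := by
    apply hc.continuousAt.preimage_mem_nhds
    simpa using hU
  obtain ⟨u, hu, v, hv, huv⟩ := mem_nhds_prod_iff.1 h1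
  refine ⟨u ∩ v, inter_mem hu hv, fun a ha b hb => ?_⟩
  exact huv (show (a, b) ∈ u ×ˢ v from ⟨ha.1, hb.2⟩)

theorem orbit_mem_nhds {U : Set G} (hU : U ∈ 𝓝 (1 : G)) (x : G ⧸ Γ) :
    {y : G ⧸ Γ | ∃ g ∈ U, y = g • x} ∈ 𝓝 x := by
  obtain ⟨x₀, rfl⟩ := QuotientGroup.mk_surjective x
  have h1 : (fun g : G => g * x₀) '' U ∈ 𝓝 x₀ := by
    have h2 := (Homeomorph.mulRight x₀).isOpenMap.image_mem_nhds hU
    have h3 : (Homeomorph.mulRight x₀) (1 : G) = x₀ := one_mul x₀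
    rw [h3] at h2
    exact h2
  have h4 : ((↑) : G → G ⧸ Γ) '' ((fun g : G => g * x₀) '' U) ∈ 𝓝 ((x₀ : G) : G ⧸ Γ) :=
    (QuotientGroup.isOpenMap_coe (G := G) (N := Γ)).image_mem_nhds h1
  refine mem_of_superset h4 ?_
  rintro _ ⟨_, ⟨g, hg, rfl⟩, rfl⟩
  exact ⟨g, hg, rfl⟩

theorem finite_cover [CompactSpace (G ⧸ Γ)] {U : Set G} (hU : U ∈ 𝓝 (1 : G)) :
    ∃ F : Finset (G ⧸ Γ), ∀ y : G ⧸ Γ, ∃ x ∈ F, ∃ g ∈ U, y = g • x := by
  obtain ⟨t, ht⟩ := CompactSpace.elim_nhds_subcover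
    (fun x : G ⧸ Γ => {y : G ⧸ Γ | ∃ g ∈ U, y = g • x}) (fun x => orbit_mem_nhds hU x)
  refine ⟨t, fun y => ?_⟩
  have h1 : y ∈ ⋃ x ∈ t, {y : G ⧸ Γ | ∃ g ∈ U, y = g • x} := by
    rw [ht]; trivial
  obtain ⟨x, hx, hy⟩ := mem_iUnion₂.1 h1
  exact ⟨x, hx, hy⟩

theorem exists_compact_lift (Γ : Subgroup G) [CompactSpace (G ⧸ Γ)] :
    ∃ C : Set G, IsCompact C ∧ ∀ x : G ⧸ Γ, ∃ g ∈ C, (g : G ⧸ Γ) = x := by
  have h1 : ∀ x : G ⧸ Γ, ∃ K : Set G, IsCompact K ∧ ((↑) : G → G ⧸ Γ) '' K ∈ 𝓝 x := by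
    intro x
    obtain ⟨x₀, rfl⟩ := QuotientGroup.mk_surjective x
    obtain ⟨K, hK, hKn⟩ := exists_compact_mem_nhds x₀
    exact ⟨K, hK, (QuotientGroup.isOpenMap_coe (G := G) (N := Γ)).image_mem_nhds hKn⟩
  choose K hK hKn using h1
  obtain ⟨t, ht⟩ := CompactSpace.elim_nhds_subcover _ hKn
  refine ⟨⋃ x ∈ t, K x, t.isCompact_biUnion fun x _ => hK x, fun y => ?_⟩
  have h2 : y ∈ ⋃ x ∈ t, ((↑) : G → G ⧸ Γ) '' K x := by
    rw [ht]; trivial
  obtain ⟨x, hx, g, hg, hy⟩ := mem_iUnion₂.1 h2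
  exact ⟨g, mem_iUnion₂.2 ⟨x, hx, hg⟩, hy⟩

end Pool.Agent.MOM.Dyn
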